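import Mathlib

set_option autoImplicit false

/-! # Project PV: the variance of primes and the pair correlation of zeros; definitions -/

namespace Pool.Agent.N804.PV

open Filter Topology Set MeasureTheory

/-- the normalised error for the primes in `(e^y, e^y (1 + 1/T)]` -/
noncomputable def DT (T y : ℝ) : ℝ :=
  Real.exp (-(y / 2)) * (Chebyshev.psi (Real.exp y * (1 + 1 / T)) - Chebyshev.psi (Real.exp y) -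
    Real.exp y / T)

/-- the variance of primes in short intervals -/
noncomputable def GV (T u v : ℝ) : ℝ :=
  T / Real.log T ^ 2 * ∫ x in (T ^ u)..(T ^ v),
    (Chebyshev.psi (x + x / T) - Chebyshev.psi x - x / T) ^ 2 / x ^ 2

/-- Gaussian density -/
noncomputable def gs (ε v : ℝ) : ℝ :=
  Real.exp (-(v ^ 2 / (2 * ε ^ 2))) / (ε * Real.sqrt (2 * Real.pi))

/-- the smoothed error -/
noncomputable def DS (T ε y : ℝ) : ℝ := ∫ v : ℝ, gs ε v * DT T (y + v)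

/-- the weight -/
noncomputable def ph (v : ℝ) : ℝ := Real.sinc (v / 2) ^ 2

/-- the entire function `(e^{hs} - 1) / s` with `e^h = 1 + 1/T` -/
noncomputable def aT (T : ℝ) (s : ℂ) : ℂ :=
  ∫ v in (0 : ℝ)..(Real.log (1 + 1 / T)), Complex.exp ((v : ℂ) * s)

/-- the test function of the explicit formula -/
noncomputable def hT (T ε y : ℝ) (w : ℂ) : ℂ :=
  aT T (1 / 2 + w) * Complex.exp ((y : ℂ) * w + (ε : ℂ) ^ 2 * w ^ 2 / 2)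

/-! ## Statements over Mathlib only -/

/-- PV2: the smoothing is harmless -/
def S_PV2 : Prop := ∀ A : ℝ, 0 < A → ∃ K : ℕ, ∃ T0 : ℝ, ∀ T : ℝ, T0 ≤ T → ∀ ε : ℝ, 0 < ε →
  ε ≤ 1 / T ^ K → ∫ y in (0 : ℝ)..(A * Real.log T), (DT T y - DS T ε y) ^ 2 ≤ 1 / T ^ 2

/-- PV7: the variance just below `x = T` -/
def S_PV7 : Prop := ∃ C : ℝ, 0 < C ∧ ∀ η : ℝ, 0 < η → η < 1 / 2 → ∀ᶠ T : ℝ in atTop,
  T / Real.log T ^ 2 * ∫ y in ((1 - η) * Real.log T)..(Real.log T), DT T y ^ 2 ≤ C * η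

/-- PV6: the Riemann hypothesis from bounded variance -/
def S_PV6 : Prop := ∀ δ : ℝ, 0 < δ →
  (∀ᵐ b : ℝ, 1 < b → ∃ C T0 : ℝ, ∀ T : ℝ, T0 ≤ T → GV T (max 1 (b - δ)) b ≤ C) →
    RiemannHypothesis

/-- ABEL: averages with the weight `ph` -/
def S_ABEL : Prop := ∀ (ι : Type) (ℓ B T0 : ℝ) (A : ℝ → Finset ι) (p c d : ℝ → ι → ℝ),
  (∀ T : ℝ, T0 ≤ T → ∀ i ∈ A T, 0 < p T i ∧ |c T i| ≤ d T i) →
  (∀ T : ℝ, T0 ≤ T → ∀ v : ℝ, 0 < v → ∑ i ∈ A T, (if p T i ≤ v then d T i else 0) ≤ B * (1 + v)) →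
  (∀ v : ℝ, 0 < v → Tendsto (fun T => ∑ i ∈ A T, if p T i ≤ v then c T i else 0) atTop (𝓝 (v * ℓ))) →
  Tendsto (fun T => ∑ i ∈ A T, ph (p T i) * c T i) atTop (𝓝 (Real.pi * ℓ))

/-- ABELB: tails and bounds for sums with the weight `ph` -/
def S_ABELB : Prop := ∃ C : ℝ, 0 < C ∧ ∀ (ι : Type) (A : Finset ι) (p d : ι → ℝ) (B : ℝ), 0 ≤ B →
  (∀ i ∈ A, 0 < p i ∧ 0 ≤ d i) →
  (∀ v : ℝ, 0 < v → ∑ i ∈ A, (if p i ≤ v then d i else 0) ≤ B * (1 + v)) →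
  ∀ lam : ℝ, 0 < lam → ∑ i ∈ A, ph (p i / lam) * d i ≤ C * B * (1 + lam) ∧
    ∀ R : ℝ, 1 ≤ R → ∑ i ∈ A, (if R ≤ p i then ph (p i / lam) * d i else 0) ≤ C * B * lam ^ 2 / R

/-- TAU: the Tauberian theorem for the weight `ph` -/
def S_TAU : Prop := ∀ (ι : Type) (ℓ B T0 : ℝ) (A : ℝ → Finset ι) (p c : ℝ → ι → ℝ),
  (∀ T : ℝ, T0 ≤ T → ∀ i ∈ A T, 0 < p T i ∧ 0 ≤ c T i) →
  (∀ T : ℝ, T0 ≤ T → ∀ v : ℝ, 0 < v → ∑ i ∈ A T, (if p T i ≤ v then c T i else 0) ≤ B * (1 + v)) →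
  (∀ lam : ℝ, 0 < lam → Tendsto (fun T => ∑ i ∈ A T, ph (p T i / lam) * c T i) atTop
    (𝓝 (Real.pi * lam * ℓ))) →
  Tendsto (fun T => ∑ i ∈ A T, if p T i ≤ 1 then c T i else 0) atTop (𝓝 ℓ)

/-- PV3a: the coefficients on the critical line -/
def S_PV3a : Prop := ∀ h0 : ℝ, 0 < h0 → ∃ C : ℝ, 0 < C ∧ ∀ T : ℝ, 2 ≤ T →
  (∀ x γ : ℝ, |x| ≤ 2 → γ ≠ 0 → ‖aT T ⟨x, γ⟩‖ ≤ C / T ∧ ‖aT T ⟨x, γ⟩‖ ≤ C / |γ|) ∧
  (∀ γ γ' : ℝ, h0 ≤ γ → h0 ≤ γ' → ‖aT T ⟨1 / 2, γ⟩ - aT T ⟨1 / 2, γ'⟩‖ ≤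
    C * |γ - γ'| / T * min (1 / T) (1 / min γ γ')) ∧
  (∀ γ : ℝ, h0 ≤ γ → |T ^ 2 * ‖aT T ⟨1 / 2, γ⟩‖ ^ 2 - ph (γ / T)| ≤ C / γ)

end Pool.Agent.N804.PV
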