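import Pool.Agent.N804.FLim
import Pool.Agent.N804.PV.Def

set_option autoImplicit false

/-! # Project PV: statements about the zeros -/

namespace Pool.Agent.N804.PV

open Filter Topology Set MeasureTheory
open H370 (Zf mult)
open Pool.Agent.N804 (SC CT dsum XX mg)

/-- the weighted sum over pairs of zeros -/
noncomputable def AT (T : ℝ) (f : ℝ → ℝ) : ℝ :=
  (∑ s ∈ Zf riemannZeta 0 (T ^ 2), ∑ s' ∈ Zf riemannZeta 0 (T ^ 2),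
    (mult riemannZeta s : ℝ) * (mult riemannZeta s' : ℝ) * ph (max s.im s'.im / T) *
      f (s.im - s'.im)) / (Real.pi * XX T)

/-- the finite sums over the zeros in the explicit formula -/
noncomputable def ZN (T ε N y : ℝ) : ℝ :=
  2 * ∑ s ∈ Zf riemannZeta 0 N, (mult riemannZeta s : ℝ) * (hT T ε y (s - 1 / 2)).re

/-- the scaled test function -/
noncomputable def sc (r : ℝ → ℝ) (T d : ℝ) : ℝ := CT r (d * Real.log T / (2 * Real.pi))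

/-- the scaled kernel -/
noncomputable def kr (T d : ℝ) : ℝ := 1 / (1 + (d * Real.log T / (2 * Real.pi)) ^ 2)

/-- PV3b: crude counts -/
def S_PV3b : Prop := ∃ C : ℝ, 0 < C ∧ ∀ N : ℝ,
  (∀ t : ℝ, 0 < t → ∑ s ∈ Zf riemannZeta 0 N, (mult riemannZeta s : ℝ) / (1 + (t - s.im) ^ 2) ≤
    C * Real.log (t + 2)) ∧
  ∑ s ∈ Zf riemannZeta 0 N, (mult riemannZeta s : ℝ) * s.im ^ (-(5 / 4 : ℝ)) *
    Real.log (s.im + 2) ≤ C

/-- PV3: the mean square of the sum over the zeros -/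
def S_PV3 : Prop := RiemannHypothesis → ∀ w : ℝ → ℝ, SC w → ∀ η : ℝ, 0 < η →
  ∃ T0 : ℝ, ∀ T : ℝ, T0 ≤ T → ∀ ε : ℝ, 0 < ε → ε ≤ 1 / T ^ 3 → ∀ N : ℝ, T ^ 2 ≤ N →
    |T / Real.log T ^ 2 * (∫ y : ℝ, w (y / Real.log T) * ZN T ε N y ^ 2) - AT T (sc w T)| ≤ η

/-- PV1: the explicit formula -/
def S_PV1 : Prop := ∃ C : ℝ, 0 < C ∧ ∀ T : ℝ, 2 ≤ T → ∀ ε : ℝ, 0 < ε → ε ≤ 1 →
  ∃ (Z : ℝ → ℝ) (B : ℝ), (∀ y : ℝ, Tendsto (fun N : ℕ => ZN T ε N y) atTop (𝓝 (Z y))) ∧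
    (∀ (N : ℕ) (y : ℝ), |ZN T ε N y| ≤ B * Real.exp (|y| / 2)) ∧
    ∀ y : ℝ, 0 ≤ y → |DS T ε y + Z y| ≤ C * Real.exp (-y) * (1 + Real.log (1 / ε)) ^ 2

/-- PVI: primes and zeros -/
def S_PVI : Prop := RiemannHypothesis → ∀ w : ℝ → ℝ, SC w →
  (∃ A1 : ℝ, 1 / 2 < A1 ∧ ∀ α : ℝ, α ≤ A1 → w α = 0) →
  Tendsto (fun T => T / Real.log T ^ 2 * (∫ y : ℝ, w (y / Real.log T) * DT T y ^ 2) -
    AT T (sc w T)) atTop (𝓝 0)

/-- AVG: from all heights to averages -/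
def S_AVG : Prop := ∀ r : ℝ → ℝ, SC r → ∀ ℓ : ℝ,
  Tendsto (fun T => dsum T (sc r T) / XX T) atTop (𝓝 ℓ) →
    Tendsto (fun T => AT T (sc r T)) atTop (𝓝 ℓ)

/-- AKB: the bound for the averaged kernel -/
def S_AKB : Prop := ∃ B T0 : ℝ, 0 < B ∧ ∀ T : ℝ, T0 ≤ T → AT T (kr T) ≤ B

/-- MO: Montgomery's theorem -/
def S_MO : Prop := RiemannHypothesis → ∀ r : ℝ → ℝ, SC r →
  (∃ κ : ℝ, κ < 1 ∧ ∀ α : ℝ, κ < |α| → r α = 0) →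
    Tendsto (fun T => dsum T (sc r T) / XX T) atTop (𝓝 (mg r))

end Pool.Agent.N804.PV
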