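import Pool.Agent.N804.PV.Co

set_option autoImplicit false

/-! # The equivalences, from the inputs -/

namespace Pool.Agent.N804.PV

open Filter Topology Set MeasureTheory
open Pool.Agent.N804

/-- the upper half for almost all windows of length `δ` ending beyond `1` -/
def UH (δ : ℝ) : Prop := ∀ᵐ b : ℝ, 1 < b → ∀ ε : ℝ, 0 < ε → ∀ᶠ T in atTop,
  GV T (max 1 (b - δ)) b ≤ b - max 1 (b - δ) + ε

lemma UH_to_RH (h6 : S_PV6) {δ : ℝ} (hδ : 0 < δ) (h : UH δ) : RiemannHypothesis := by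
  refine h6 δ hδ ?_
  filter_upwards [h] with b hb hb1
  obtain ⟨T0, hT0⟩ := eventually_atTop.1 (hb hb1 1 one_pos)
  exact ⟨_, T0, hT0⟩

lemma UH_to_UV {δ : ℝ} (hδ : 0 < δ) (h : UH δ) : ∀ᵐ s : ℝ, 1 - δ < s → ∀ ε : ℝ, 0 < ε →
    ∀ᶠ T in atTop, ∫ α in (max 1 s)..(max 1 (s + δ)), uT T α ≤
      (max 1 (s + δ) - max 1 s) + ε := by
  have h1 := (measurePreserving_add_right (volume : Measure ℝ) δ).quasiMeasurePreserving.ae h
  filter_upwards [h1] with s hs hs1 ε hε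
  have hb : 1 < s + δ := by linarith
  filter_upwards [hs hb ε hε, eventually_gt_atTop 1] with T hT hT1
  rw [add_sub_cancel_right] at hT
  rw [max_eq_right hb.le]
  rwa [GV_eq hT1 (max_le hb.le (by linarith))] at hT

/-- **the equivalences** -/
theorem main (I : Inp) (htau : S_TAU) (h6 : S_PV6) {δ : ℝ} (hδ : 0 < δ) (hδ1 : δ < 1) :
    (UH δ → RiemannHypothesis ∧ ∀ a : ℝ, 0 < a → Tendsto (fun T => CF T a) atTop (𝓝 (PP a))) ∧
    ((RiemannHypothesis ∧ ∀ a : ℝ, 0 < a → Tendsto (fun T => CF T a) atTop (𝓝 (PP a))) →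
      ∀ u v : ℝ, 1 ≤ u → u < v → Tendsto (fun T => GV T u v) atTop (𝓝 (v - u))) := by
  constructor
  · intro h
    have RH := UH_to_RH h6 hδ h
    exact ⟨RH, fun a ha => CF_lim I.hb htau (fun x hx => CA_lim I RH hδ hδ1 (UH_to_UV hδ h) hx) ha⟩
  · rintro ⟨RH, h⟩ u v hu huv
    exact GV_lim I.hI I.hmo I.hav RH h hu huv

end Pool.Agent.N804.PV
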