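import Pool.Agent.N278.PV_2
import Pool.Agent.N755.PV_3a
import Pool.Agent.N755.PV_3b
import Pool.Agent.N755.PV_1d
import Pool.Agent.N704.PV_3
import Pool.Agent.N756.PV.Arch
import Pool.Agent.N221.PV_1b
import Pool.Agent.N87.PV_1
import Pool.Agent.N482.PV_ABEL
import Pool.Agent.N864.PV.Avg
import Pool.Agent.N999.PV_MO
import Pool.Agent.N490.PV_6
import Pool.Agent.N415.PV_7
import Pool.Agent.N531.PV_TAU
import Pool.Agent.N170.PV_I
import Pool.Agent.N804.PV.Fin
import Pool.Agent.N804.Glue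

set_option autoImplicit false

/-! # The equivalences, without hypotheses -/

namespace Pool.Agent.N804.PV

open Filter Topology Set MeasureTheory
open Pool.Agent.N804

theorem pv1d : S_PV1d := N755.PV1d.main

theorem pv1 : S_PV1 := N87.PV.main (N756.PV.main pv1d) (N221.PV1b.main pv1d) pv1d

theorem pv3 : S_PV3 := N704.PV3.main N755.PV3a.main N755.PV3b.main

theorem akb : S_AKB := N864.PV.akb N482.PV.abelb

theorem pvi : S_PVI := N170.PVI.main pv1 N278.PV.main pv3 akb

theorem inp : Inp where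
  ha := N482.PV.abel
  hb := N482.PV.abelb
  h3 := pv3
  hI := pvi
  h7 := N415.PV7.main
  hk := akb
  hmo := N999.PVMO.main
  hav := N864.PV.avg N482.PV.abel

theorem tau : S_TAU := N531.PVTAU.main N482.PV.abelb

theorem pv6 : S_PV6 := N490.PV6.main

/-- **the equivalences** -/
theorem pv_main {δ : ℝ} (hδ : 0 < δ) (hδ1 : δ < 1) :
    (UH δ → RiemannHypothesis ∧ ∀ a : ℝ, 0 < a → Tendsto (fun T => CF T a) atTop (𝓝 (PP a))) ∧
    ((RiemannHypothesis ∧ ∀ a : ℝ, 0 < a → Tendsto (fun T => CF T a) atTop (𝓝 (PP a))) →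
      ∀ u v : ℝ, 1 ≤ u → u < v → Tendsto (fun T => GV T u v) atTop (𝓝 (v - u))) :=
  main inp tau pv6 hδ hδ1

end Pool.Agent.N804.PV
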