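import Pool.Agent.N804.PV.Sv

set_option autoImplicit false

/-! # Slow variation of the prime variance, part 2 -/

namespace Pool.Agent.N804.PV

open Filter Topology Set MeasureTheory
open Pool.Agent.N804

/-- the parameters of the main estimate -/
structure EP (w W : ℝ → ℝ) (A1 a A M C η T T1 : ℝ) : Prop where
  H : CD w W A1 a A M
  hC0 : 0 ≤ C
  hη : 0 < η
  hη1 : η ≤ 1 / 4
  hT : 1 < T
  hL1 : 1 / η ≤ Real.log T
  hL2 : Real.log (3 / η) ≤ Real.log T
  hL3 : 1 + a * Real.log (3 / η) ≤ (A1 - a) * Real.log T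
  hC : ∀ S : ℝ, T ≤ S → ∫ α : ℝ, W α * uT S α ≤ C
  h1 : (1 + η) * T ≤ T1
  h2 : T1 ≤ (1 + 2 * η) * T

section

variable {w W : ℝ → ℝ} {A1 a A M C η T T1 : ℝ}

lemma EP.basic (E : EP w W A1 a A M C η T T1) : 0 < T ∧ T < T1 ∧ T1 ≤ 2 * T ∧ 4 ≤ Real.log T ∧
    Real.log T ≤ Real.log T1 ∧ Real.log T1 ≤ Real.log T + 1 ∧ 1 + a * 1 ≤ (A1 - a) * Real.log T := by
  have hη := E.hη
  have hη1 := E.hη1
  have hT := E.hT
  have h1 := E.h1
  have h2 := E.h2
  have a0 : 0 < T := by linarith
  have a1 : T < T1 := by nlinarith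
  have a2 : T1 ≤ 2 * T := by nlinarith
  have a3 : 4 ≤ Real.log T := by
    refine le_trans ?_ E.hL1
    rw [le_div_iff₀ hη]
    linarith
  have a4 : Real.log T ≤ Real.log T1 := Real.log_le_log a0 a1.le
  have a5 : Real.log T1 ≤ Real.log T + 1 := by
    have : Real.log T1 ≤ Real.log (2 * T) := Real.log_le_log (by linarith) a2
    rw [Real.log_mul (by norm_num) a0.ne'] at this
    have := Real.log_two_lt_d9
    linarith
  refine ⟨a0, a1, a2, a3, a4, a5, ?_⟩
  have h3 := E.hL3
  have h4 : 1 ≤ Real.log (3 / η) := by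
    rw [Real.le_log_iff_exp_le (by positivity)]
    have : Real.exp 1 < 3 := by
      have := Real.exp_one_lt_d9
      linarith
    have h5 : 3 ≤ 3 / η := by
      rw [le_div_iff₀ hη]
      nlinarith
    linarith
  have := E.H.ha
  nlinarith

/-- the difference in the height -/
lemma EP.e1 (E : EP w W A1 a A M C η T T1) :
    T / Real.log T ^ 2 * ∫ y : ℝ, |w (y / Real.log T)| * (DT T y - DT T1 y) ^ 2 ≤
      16 * M * C * η := by
  obtain ⟨a0, a1, a2, a3, a4, a5, a6⟩ := E.basic
  have hη := E.hη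
  have hη1 := E.hη1
  have hT := E.hT
  have h1 := E.h1
  have h2 := E.h2
  have hM := E.H.hM
  have hC0 := E.hC0
  set T2 : ℝ := (1 + 1 / T1) * (T * T1 / (T1 - T)) with hT2
  set h : ℝ := Real.log (1 + 1 / T1) with hh
  have b0 : 0 < T1 - T := by linarith
  have b1 : 0 < T1 := by linarith
  have b2 : 1 / T1 ≤ 1 := by rw [div_le_one b1]; linarith
  have b3 : 0 < 1 / T1 := by positivity
  have hh0 : 0 ≤ h := Real.log_nonneg (by linarith)
  have hh1 : h ≤ 1 := by
    have := Real.log_le_sub_one_of_pos (show 0 < 1 + 1 / T1 by linarith)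
    linarith
  have c1 : T / (2 * η) ≤ T * T1 / (T1 - T) := by
    rw [div_le_div_iff₀ (by positivity) b0]
    have : T * (T1 - T) ≤ T * (2 * η * T) := by
      refine mul_le_mul_of_nonneg_left ?_ a0.le
      linarith
    nlinarith [mul_pos a0 b1, mul_pos (mul_pos a0 b1) hη, mul_pos (mul_pos a0 a0) hη,
      mul_pos (mul_pos a0 b0) hη]
  have c2 : T * T1 / (T1 - T) ≤ T1 / η := by
    rw [div_le_div_iff₀ b0 hη]
    have : T * η ≤ T1 - T := by linarith
    nlinarith
  have c3 : T / (2 * η) ≤ T2 := by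
    refine c1.trans ?_
    rw [hT2]
    have : 0 < T * T1 / (T1 - T) := by positivity
    nlinarith
  have c4 : T2 ≤ 3 / η * T := by
    have q1 : T2 ≤ 2 * (T1 / η) := by
      rw [hT2]
      gcongr
      linarith
    have q2 : T1 ≤ 3 / 2 * T := by nlinarith
    calc T2 ≤ 2 * (T1 / η) := q1
      _ ≤ 2 * (3 / 2 * T / η) := by gcongr
      _ = 3 / η * T := by ring
  have c5 : T ≤ T2 := by
    refine le_trans ?_ c3
    rw [le_div_iff₀ (by positivity)]
    nlinarith
  have d1 : Real.log T ≤ Real.log T2 := Real.log_le_log a0 c5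
  have d2 : Real.log T2 ≤ Real.log (3 / η) + Real.log T := by
    rw [← Real.log_mul (by positivity) a0.ne']
    exact Real.log_le_log (by linarith) c4
  have d3 : Real.log T2 ≤ 2 * Real.log T := by linarith [E.hL2]
  have hcomp : ∀ y, |w (y / Real.log T)| ≤ M * W ((y + h) / Real.log T2) := by
    refine E.H.comp' (by linarith) d1 ?_ (by rw [abs_of_nonneg hh0]; exact hh1)
    refine le_trans ?_ E.hL3
    have := E.H.ha
    gcongr
    linarith
  have hT2' : 1 < T2 := by linarith
  have hpt : ∀ y, |w (y / Real.log T)| * (DT T y - DT T1 y) ^ 2 ≤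
      2 * M * (W ((y + h) / Real.log T2) * DT T2 (y + h) ^ 2) := by
    intro y
    rw [DT_diff hT a1 y, mul_pow, ← Real.exp_nat_mul]
    have q1 : Real.exp ((2 : ℕ) * (Real.log (1 + 1 / T1) / 2)) = 1 + 1 / T1 := by
      have : ((2 : ℕ) : ℝ) * (Real.log (1 + 1 / T1) / 2) = Real.log (1 + 1 / T1) := by
        push_cast; ring
      rw [this, Real.exp_log (by linarith)]
    rw [q1]
    have q2 := hcomp y
    calc |w (y / Real.log T)| * ((1 + 1 / T1) * DT T2 (y + h) ^ 2)
        ≤ (M * W ((y + h) / Real.log T2)) * (2 * DT T2 (y + h) ^ 2) := by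
          gcongr
          · exact mul_nonneg hM.le (E.H.W0 _)
          · linarith
      _ = _ := by ring
  have hL0 : 0 < Real.log T := by linarith
  have hL20 : 0 < Real.log T2 := by linarith
  have i1 : Integrable fun y => |w (y / Real.log T)| * (DT T y - DT T1 y) ^ 2 :=
    int_sca E.H.hw hL0 ((DT_LB hT).sub (DT_LB (by linarith))).sq
  have i2 : Integrable fun y => W (y / Real.log T2) * DT T2 y ^ 2 :=
    int_sc E.H.hW hL20 (DT_LB hT2').sq
  have i3 : Integrable fun y => 2 * M * (W ((y + h) / Real.log T2) * DT T2 (y + h) ^ 2) :=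
    (i2.comp_add_right h).const_mul _
  have j1 : ∫ y : ℝ, |w (y / Real.log T)| * (DT T y - DT T1 y) ^ 2 ≤
      2 * M * (C * (Real.log T2 ^ 2 / T2)) := by
    refine (integral_mono i1 i3 hpt).trans ?_
    rw [integral_const_mul]
    have e := integral_add_right_eq_self (μ := volume)
      (fun y : ℝ => W (y / Real.log T2) * DT T2 y ^ 2) h
    rw [e]
    gcongr
    exact sc_le hT2' (E.hC _ c5)
  calc T / Real.log T ^ 2 * ∫ y : ℝ, |w (y / Real.log T)| * (DT T y - DT T1 y) ^ 2
      ≤ T / Real.log T ^ 2 * (2 * M * (C * (Real.log T2 ^ 2 / T2))) := by gcongr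
    _ ≤ T / Real.log T ^ 2 * (2 * M * (C * ((2 * Real.log T) ^ 2 / (T / (2 * η))))) := by
        gcongr
    _ = 16 * M * C * η := by field_simp; ring

lemma EP.e2 (E : EP w W A1 a A M C η T T1) :
    T / Real.log T ^ 2 * ∫ y : ℝ, |w (y / Real.log T)| * DT T y ^ 2 ≤ M * C := by
  obtain ⟨a0, a1, a2, a3, a4, a5, a6⟩ := E.basic
  have hM := E.H.hM
  have hC0 := E.hC0
  have hL0 : 0 < Real.log T := by linarith
  have hpt : ∀ y, |w (y / Real.log T)| * DT T y ^ 2 ≤
      M * (W (y / Real.log T) * DT T y ^ 2) := by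
    intro y
    have := E.H.comp' (L := Real.log T) (L' := Real.log T) (h := 0) (by linarith) le_rfl
      (by have := E.H.ha; rw [sub_self]; linarith) (by simp) y
    rw [add_zero] at this
    rw [← mul_assoc]
    gcongr
  have i1 : Integrable fun y => |w (y / Real.log T)| * DT T y ^ 2 :=
    int_sca E.H.hw hL0 (DT_LB E.hT).sq
  have i2 : Integrable fun y => W (y / Real.log T) * DT T y ^ 2 :=
    int_sc E.H.hW hL0 (DT_LB E.hT).sq
  have j1 := integral_mono i1 (i2.const_mul M) hpt
  rw [integral_const_mul] at j1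
  have j2 := sc_le E.hT (E.hC T le_rfl)
  calc _ ≤ T / Real.log T ^ 2 * (M * (C * (Real.log T ^ 2 / T))) := by
        gcongr
        exact j1.trans (by gcongr)
    _ = M * C := by field_simp

lemma EP.e3 (E : EP w W A1 a A M C η T T1) :
    T / Real.log T ^ 2 * ∫ y : ℝ, |w (y / Real.log T)| * DT T1 y ^ 2 ≤ 4 * M * C := by
  obtain ⟨a0, a1, a2, a3, a4, a5, a6⟩ := E.basic
  have hM := E.H.hM
  have hC0 := E.hC0
  have hL0 : 0 < Real.log T := by linarith
  have hL10 : 0 < Real.log T1 := by linarith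
  have hT1 : 1 < T1 := by linarith [E.hT]
  have hpt : ∀ y, |w (y / Real.log T)| * DT T1 y ^ 2 ≤
      M * (W (y / Real.log T1) * DT T1 y ^ 2) := by
    intro y
    have := E.H.comp' (L := Real.log T) (L' := Real.log T1) (h := 0) (by linarith) a4
      (by
        have := E.H.ha
        refine le_trans ?_ a6
        gcongr
        linarith) (by simp) y
    rw [add_zero] at this
    rw [← mul_assoc]
    gcongr
  have i1 : Integrable fun y => |w (y / Real.log T)| * DT T1 y ^ 2 :=
    int_sca E.H.hw hL0 (DT_LB hT1).sq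
  have i2 : Integrable fun y => W (y / Real.log T1) * DT T1 y ^ 2 :=
    int_sc E.H.hW hL10 (DT_LB hT1).sq
  have j1 := integral_mono i1 (i2.const_mul M) hpt
  rw [integral_const_mul] at j1
  have j2 := sc_le hT1 (E.hC T1 a1.le)
  have j3 : Real.log T1 ≤ 2 * Real.log T := by linarith
  calc _ ≤ T / Real.log T ^ 2 * (M * (C * (Real.log T1 ^ 2 / T1))) := by
        gcongr
        exact j1.trans (by gcongr)
    _ ≤ T / Real.log T ^ 2 * (M * (C * ((2 * Real.log T) ^ 2 / T))) := by
        gcongr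
    _ = 4 * M * C := by field_simp; ring

lemma EP.e4 (E : EP w W A1 a A M C η T T1) :
    |T / Real.log T ^ 2 * (∫ y : ℝ, w (y / Real.log T) * DT T1 y ^ 2) -
      T / Real.log T ^ 2 * ∫ y : ℝ, w (y / Real.log T) * DT T y ^ 2| ≤
        13 * M * C * Real.sqrt η := by
  obtain ⟨a0, a1, a2, a3, a4, a5, a6⟩ := E.basic
  have hη := E.hη
  have hM := E.H.hM
  have hC0 := E.hC0
  have hL0 : 0 < Real.log T := by linarith
  have hT1 : 1 < T1 := by linarith [E.hT]
  set s : ℝ := Real.sqrt η with hs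
  have hs0 : 0 < s := Real.sqrt_pos.2 hη
  have hs2 : s * s = η := Real.mul_self_sqrt hη.le
  have b0 := DT_LB E.hT
  have b1 := DT_LB hT1
  have i0 : Integrable fun y => w (y / Real.log T) * DT T y ^ 2 := int_sc E.H.hw hL0 b0.sq
  have i1 : Integrable fun y => w (y / Real.log T) * DT T1 y ^ 2 := int_sc E.H.hw hL0 b1.sq
  have k0 : Integrable fun y => |w (y / Real.log T)| * DT T y ^ 2 := int_sca E.H.hw hL0 b0.sq
  have k1 : Integrable fun y => |w (y / Real.log T)| * DT T1 y ^ 2 := int_sca E.H.hw hL0 b1.sq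
  have k2 : Integrable fun y => |w (y / Real.log T)| * (DT T y - DT T1 y) ^ 2 :=
    int_sca E.H.hw hL0 (b0.sub b1).sq
  rw [← mul_sub, ← integral_sub i1 i0, abs_mul, abs_of_nonneg (by positivity)]
  have hpt : ∀ y, |w (y / Real.log T) * DT T1 y ^ 2 - w (y / Real.log T) * DT T y ^ 2| ≤
      1 / (2 * s) * (|w (y / Real.log T)| * (DT T y - DT T1 y) ^ 2) +
        s * (|w (y / Real.log T)| * DT T y ^ 2 + |w (y / Real.log T)| * DT T1 y ^ 2) := by
    intro y
    have q : |DT T1 y ^ 2 - DT T y ^ 2| ≤ 1 / (2 * s) * (DT T y - DT T1 y) ^ 2 +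
        s * (DT T y ^ 2 + DT T1 y ^ 2) := by
      set p := DT T1 y
      set r := DT T y
      have e1 : 1 / (2 * s) * (r - p) ^ 2 + s / 2 * (r + p) ^ 2 - |r - p| * |r + p| =
          (|r - p| - s * |r + p|) ^ 2 / (2 * s) := by
        rw [← sq_abs (r - p), ← sq_abs (r + p)]
        field_simp
        ring
      have e2 : 0 ≤ (|r - p| - s * |r + p|) ^ 2 / (2 * s) := by positivity
      have e3 : |p ^ 2 - r ^ 2| = |r - p| * |r + p| := by
        rw [← abs_mul, ← abs_neg]
        congr 1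
        ring
      have e4 : s / 2 * (r + p) ^ 2 ≤ s * (r ^ 2 + p ^ 2) := by
        nlinarith [mul_nonneg hs0.le (sq_nonneg (r - p))]
      linarith
    rw [← mul_sub, abs_mul]
    calc _ ≤ |w (y / Real.log T)| * (1 / (2 * s) * (DT T y - DT T1 y) ^ 2 +
        s * (DT T y ^ 2 + DT T1 y ^ 2)) := by gcongr
      _ = _ := by ring
  have j := norm_integral_le_of_norm_le ((k2.const_mul (1 / (2 * s))).add ((k0.add k1).const_mul s))
    (ae_of_all _ fun y => by
      rw [Real.norm_eq_abs]
      exact hpt y)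
  rw [Real.norm_eq_abs] at j
  have e : ∫ y : ℝ, (1 / (2 * s) * (|w (y / Real.log T)| * (DT T y - DT T1 y) ^ 2) +
      s * (|w (y / Real.log T)| * DT T y ^ 2 + |w (y / Real.log T)| * DT T1 y ^ 2)) =
      1 / (2 * s) * (∫ y : ℝ, |w (y / Real.log T)| * (DT T y - DT T1 y) ^ 2) +
        s * ((∫ y : ℝ, |w (y / Real.log T)| * DT T y ^ 2) +
          ∫ y : ℝ, |w (y / Real.log T)| * DT T1 y ^ 2) := by
    have f1 := integral_add (k2.const_mul (1 / (2 * s))) ((k0.add k1).const_mul s)
    have f2 := integral_add k0 k1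
    rw [← f2, ← integral_const_mul, ← integral_const_mul]
    exact f1
  have j' : |∫ x : ℝ, w (x / Real.log T) * DT T1 x ^ 2 - w (x / Real.log T) * DT T x ^ 2| ≤
      1 / (2 * s) * (∫ y : ℝ, |w (y / Real.log T)| * (DT T y - DT T1 y) ^ 2) +
        s * ((∫ y : ℝ, |w (y / Real.log T)| * DT T y ^ 2) +
          ∫ y : ℝ, |w (y / Real.log T)| * DT T1 y ^ 2) := j.trans (le_of_eq e)
  have E1 := E.e1
  have E2 := E.e2
  have E3 := E.e3
  calc _ ≤ T / Real.log T ^ 2 *
      (1 / (2 * s) * (∫ y : ℝ, |w (y / Real.log T)| * (DT T y - DT T1 y) ^ 2) +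
        s * ((∫ y : ℝ, |w (y / Real.log T)| * DT T y ^ 2) +
          ∫ y : ℝ, |w (y / Real.log T)| * DT T1 y ^ 2)) := by gcongr
    _ = 1 / (2 * s) *
      (T / Real.log T ^ 2 * ∫ y : ℝ, |w (y / Real.log T)| * (DT T y - DT T1 y) ^ 2) +
        s * ((T / Real.log T ^ 2 * ∫ y : ℝ, |w (y / Real.log T)| * DT T y ^ 2) +
          T / Real.log T ^ 2 * ∫ y : ℝ, |w (y / Real.log T)| * DT T1 y ^ 2) := by ring
    _ ≤ 1 / (2 * s) * (16 * M * C * η) + s * (M * C + 4 * M * C) := by gcongr
    _ = 13 * M * C * s := by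
        rw [← hs2]
        field_simp
        ring

lemma EP.e5 (E : EP w W A1 a A M C η T T1) :
    |T1 / Real.log T1 ^ 2 * (∫ y : ℝ, w (y / Real.log T1) * DT T1 y ^ 2) -
      T1 / Real.log T1 ^ 2 * ∫ y : ℝ, w (y / Real.log T) * DT T1 y ^ 2| ≤ M * C * (2 * A) * η := by
  obtain ⟨a0, a1, a2, a3, a4, a5, a6⟩ := E.basic
  have hη := E.hη
  have hM := E.H.hM
  have hA := E.H.hA
  have hC0 := E.hC0
  have hL0 : 0 < Real.log T := by linarith
  have hL10 : 0 < Real.log T1 := by linarith
  have hT1 : 1 < T1 := by linarith [E.hT]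
  have hT10 : 0 < T1 := by linarith
  have b1 := DT_LB hT1
  have i0 : Integrable fun y => w (y / Real.log T1) * DT T1 y ^ 2 := int_sc E.H.hw hL10 b1.sq
  have i1 : Integrable fun y => w (y / Real.log T) * DT T1 y ^ 2 := int_sc E.H.hw hL0 b1.sq
  have i2 : Integrable fun y => W (y / Real.log T1) * DT T1 y ^ 2 := int_sc E.H.hW hL10 b1.sq
  rw [← mul_sub, ← integral_sub i0 i1, abs_mul, abs_of_nonneg (by positivity)]
  have hcd : 1 + a * (Real.log T1 - Real.log T) ≤ (A1 - a) * Real.log T := by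
    have := E.H.ha
    refine le_trans ?_ a6
    gcongr
    linarith
  have hA10 : 0 < A1 - a := by linarith [E.H.haA]
  -- the pointwise bound
  have hpt : ∀ y, |w (y / Real.log T1) - w (y / Real.log T)| ≤
      M * (2 * A) * η * W (y / Real.log T1) := by
    intro y
    have hW0 := E.H.W0 (y / Real.log T1)
    -- the case where one of the two points is in the support
    have key : 0 ≤ y → y ≤ 2 * A * Real.log T → W (y / Real.log T1) = 1 →
        |w (y / Real.log T1) - w (y / Real.log T)| ≤ M * (2 * A) * η * W (y / Real.log T1) := by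
      intro hy0 hy1 hW1
      rw [hW1, mul_one]
      refine (E.H.lip _ _).trans ?_
      rw [mul_assoc, mul_assoc]
      refine mul_le_mul_of_nonneg_left ?_ hM.le
      have e : y / Real.log T1 - y / Real.log T =
          -(y * (Real.log T1 - Real.log T) / (Real.log T1 * Real.log T)) := by
        field_simp
        ring
      rw [e, abs_neg, abs_of_nonneg (by
        have : 0 ≤ Real.log T1 - Real.log T := by linarith
        positivity), div_le_iff₀ (by positivity)]
      have e2 : 1 ≤ η * Real.log T1 := by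
        have := E.hL1
        rw [div_le_iff₀ hη] at this
        nlinarith
      calc y * (Real.log T1 - Real.log T) ≤ (2 * A * Real.log T) * 1 := by
            gcongr
            linarith
        _ ≤ (2 * A * Real.log T) * (η * Real.log T1) := by gcongr
        _ = 2 * (A * η) * (Real.log T1 * Real.log T) := by ring
    by_cases h1 : y / Real.log T ≤ A1
    · by_cases h2 : y / Real.log T1 ≤ A1
      · rw [E.H.z1 _ h1, E.H.z1 _ h2, sub_self, abs_zero]
        positivity
      · exfalso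
        rw [div_le_iff₀ hL0] at h1
        rw [not_le, lt_div_iff₀ hL10] at h2
        have hA1 : 0 ≤ A1 := by
          have := E.H.ha
          have := E.H.haA
          linarith
        have : A1 * Real.log T ≤ A1 * Real.log T1 := by
          gcongr
        linarith
    · rw [not_le] at h1
      by_cases h2 : y / Real.log T ≤ A
      · have hW1 := E.H.comp (L' := Real.log T1) (h := 0) (by linarith) a4 hcd (by simp) y h1 h2
        rw [add_zero] at hW1
        refine key ?_ ?_ hW1
        · rw [lt_div_iff₀ hL0] at h1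
          have := E.H.ha
          have := E.H.haA
          have : 0 < A1 * Real.log T := by
            have : 0 < A1 := by linarith
            positivity
          linarith
        · rw [div_le_iff₀ hL0] at h2
          have : 0 < A * Real.log T := by positivity
          linarith
      · rw [not_le] at h2
        by_cases h3 : A < y / Real.log T1
        · rw [E.H.z2 _ h2, E.H.z2 _ h3, sub_self, abs_zero]
          positivity
        · rw [not_lt] at h3
          have g1 : 0 < y := by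
            rw [lt_div_iff₀ hL0] at h2
            have : 0 < A * Real.log T := by positivity
            linarith
          refine key g1.le ?_ (E.H.W1 _ ?_ ?_)
          · rw [div_le_iff₀ hL10] at h3
            have : A * Real.log T1 ≤ A * (2 * Real.log T) := by
              gcongr
              linarith
            linarith
          · rw [lt_div_iff₀ hL0] at h1
            rw [le_div_iff₀ hL10]
            nlinarith [E.H.ha]
          · linarith
  have hpt2 : ∀ y, ‖w (y / Real.log T1) * DT T1 y ^ 2 - w (y / Real.log T) * DT T1 y ^ 2‖ ≤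
      M * (2 * A) * η * (W (y / Real.log T1) * DT T1 y ^ 2) := by
    intro y
    rw [← sub_mul, Real.norm_eq_abs, abs_mul, abs_of_nonneg (sq_nonneg (DT T1 y)), ← mul_assoc]
    gcongr
    exact hpt y
  have j := norm_integral_le_of_norm_le (i2.const_mul (M * (2 * A) * η)) (ae_of_all _ hpt2)
  rw [Real.norm_eq_abs, integral_const_mul] at j
  have j2 := E.hC T1 a1.le
  rw [← scale_int hT1] at j2
  calc _ ≤ T1 / Real.log T1 ^ 2 *
      (M * (2 * A) * η * ∫ y : ℝ, W (y / Real.log T1) * DT T1 y ^ 2) := by gcongr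
    _ = M * (2 * A) * η *
      (T1 / Real.log T1 ^ 2 * ∫ y : ℝ, W (y / Real.log T1) * DT T1 y ^ 2) := by ring
    _ ≤ M * (2 * A) * η * C := by gcongr
    _ = M * C * (2 * A) * η := by ring

lemma EP.e6 (E : EP w W A1 a A M C η T T1) :
    |T1 / Real.log T1 ^ 2 * (∫ y : ℝ, w (y / Real.log T) * DT T1 y ^ 2) -
      T / Real.log T ^ 2 * ∫ y : ℝ, w (y / Real.log T) * DT T1 y ^ 2| ≤ 16 * M * C * η := by
  obtain ⟨a0, a1, a2, a3, a4, a5, a6⟩ := E.basic
  have hη := E.hη
  have hM := E.H.hM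
  have hC0 := E.hC0
  have hL0 : 0 < Real.log T := by linarith
  have hL10 : 0 < Real.log T1 := by linarith
  have hT1 : 1 < T1 := by linarith [E.hT]
  have hT10 : 0 < T1 := by linarith
  have b1 := DT_LB hT1
  have i1 : Integrable fun y => |w (y / Real.log T)| * DT T1 y ^ 2 := int_sca E.H.hw hL0 b1.sq
  have q : |T1 / Real.log T1 ^ 2 - T / Real.log T ^ 2| ≤ 4 * η * (T / Real.log T ^ 2) := by
    have g1 : 1 ≤ η * Real.log T := by
      have := E.hL1
      rw [div_le_iff₀ hη] at this
      linarith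
    rw [abs_le]
    constructor
    · -- lower bound
      rw [neg_le_sub_iff_le_add, ← sub_le_iff_le_add]
      have : T / Real.log T ^ 2 - 4 * η * (T / Real.log T ^ 2) = (1 - 4 * η) * T / Real.log T ^ 2 := by
        ring
      rw [this, div_le_div_iff₀ (by positivity) (by positivity)]
      have g2 : Real.log T1 ^ 2 ≤ (Real.log T * (1 + η)) ^ 2 := by
        gcongr
        nlinarith
      have g3 : (1 - 4 * η) * (1 + η) ^ 2 ≤ 1 := by nlinarith [sq_nonneg η, E.hη1]
      have g4 : 0 ≤ 1 - 4 * η := by linarith [E.hη1]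
      calc (1 - 4 * η) * T * Real.log T1 ^ 2
          ≤ (1 - 4 * η) * T * (Real.log T * (1 + η)) ^ 2 := by gcongr
        _ = ((1 - 4 * η) * (1 + η) ^ 2) * (T * Real.log T ^ 2) := by ring
        _ ≤ 1 * (T * Real.log T ^ 2) := by gcongr
        _ ≤ T1 * Real.log T ^ 2 := by rw [one_mul]; gcongr
    · rw [sub_le_iff_le_add]
      calc T1 / Real.log T1 ^ 2 ≤ ((1 + 2 * η) * T) / Real.log T ^ 2 := by
            gcongr
            exact E.h2
        _ = 2 * η * (T / Real.log T ^ 2) + T / Real.log T ^ 2 := by ring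
        _ ≤ 4 * η * (T / Real.log T ^ 2) + T / Real.log T ^ 2 := by
            gcongr
            norm_num
  rw [← sub_mul, abs_mul]
  have j : |∫ y : ℝ, w (y / Real.log T) * DT T1 y ^ 2| ≤
      ∫ y : ℝ, |w (y / Real.log T)| * DT T1 y ^ 2 := by
    rw [← Real.norm_eq_abs]
    refine norm_integral_le_of_norm_le i1 (ae_of_all _ fun y => ?_)
    rw [Real.norm_eq_abs, abs_mul, abs_of_nonneg (sq_nonneg (DT T1 y))]
  calc _ ≤ 4 * η * (T / Real.log T ^ 2) * ∫ y : ℝ, |w (y / Real.log T)| * DT T1 y ^ 2 := by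
        gcongr
    _ = 4 * η * (T / Real.log T ^ 2 * ∫ y : ℝ, |w (y / Real.log T)| * DT T1 y ^ 2) := by ring
    _ ≤ 4 * η * (4 * M * C) := mul_le_mul_of_nonneg_left E.e3 (by positivity)
    _ = 16 * M * C * η := by ring

/-- the main estimate -/
lemma EP.main (E : EP w W A1 a A M C η T T1) :
    |(∫ α : ℝ, w α * uT T1 α) - ∫ α : ℝ, w α * uT T α| ≤ M * C * (29 + 2 * A) * Real.sqrt η := by
  obtain ⟨a0, a1, a2, a3, a4, a5, a6⟩ := E.basic
  have hT1 : 1 < T1 := by linarith [E.hT]
  have hM := E.H.hM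
  have hA := E.H.hA
  have hC0 := E.hC0
  rw [← scale_int hT1, ← scale_int E.hT]
  have E4 := E.e4
  have E5 := E.e5
  have E6 := E.e6
  have hη := E.hη
  have hs : η ≤ Real.sqrt η := by
    have : η * η ≤ η := by nlinarith [E.hη1]
    exact Real.le_sqrt_of_sq_le (by rw [pow_two]; exact this)
  set x1 := T1 / Real.log T1 ^ 2 * (∫ y : ℝ, w (y / Real.log T1) * DT T1 y ^ 2)
  set x2 := T1 / Real.log T1 ^ 2 * ∫ y : ℝ, w (y / Real.log T) * DT T1 y ^ 2
  set x3 := T / Real.log T ^ 2 * ∫ y : ℝ, w (y / Real.log T) * DT T1 y ^ 2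
  set x4 := T / Real.log T ^ 2 * ∫ y : ℝ, w (y / Real.log T) * DT T y ^ 2
  have t1 : |x1 - x4| ≤ |x1 - x2| + |x2 - x3| + |x3 - x4| := by
    have := abs_sub_le x1 x2 x4
    have := abs_sub_le x2 x3 x4
    linarith
  have hMC : 0 ≤ M * C := by positivity
  calc |x1 - x4| ≤ M * C * (2 * A) * η + 16 * M * C * η + 13 * M * C * Real.sqrt η := by linarith
    _ ≤ M * C * (2 * A) * Real.sqrt η + 16 * M * C * Real.sqrt η + 13 * M * C * Real.sqrt η := by
        gcongr
    _ = _ := by ring

end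

/-- the comparison function -/
lemma exists_CD {w : ℝ → ℝ} (hw : SC w) {A1 : ℝ} (hA1 : 1 / 2 < A1)
    (hz : ∀ α : ℝ, α ≤ A1 → w α = 0) : ∃ (W : ℝ → ℝ) (a A M : ℝ), CD w W A1 a A M ∧
      ∃ A2 : ℝ, 1 / 2 < A2 ∧ ∀ α : ℝ, α ≤ A2 → W α = 0 := by
  obtain ⟨M, R, hM, hR, h1, h2⟩ := SC.bdd hw
  obtain ⟨M', R', hM', hR', h1', h2'⟩ := SC.bdd hw.deriv
  set a' : ℝ := (A1 + 1 / 2) / 2 with ha'
  set a : ℝ := (A1 + a') / 2 with ha
  have haa : a' < a := by rw [ha]; linarith
  refine ⟨fun x => big (R + 1) (by linarith) x * sst a' a x, a, R, max M M', ?_, a', by linarith,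
    fun α hα => ?_⟩
  · refine ⟨hw, (big_SC (by linarith)).mulS (sst_sm a' a), fun x => mul_nonneg (big (R + 1) _).nonneg
      (sst_nonneg _ _ _), fun x hx1 hx2 => ?_, hz, fun x hx => h2 x (lt_of_lt_of_le hx (le_abs_self x)),
      by linarith, hR, lt_of_lt_of_le hM (le_max_left _ _), by linarith,
      fun x => (h1 x).trans (le_max_left _ _), fun x y => ?_⟩
    · show big (R + 1) _ x * sst a' a x = 1
      rw [sst_one haa hx1, big_one (by linarith) (abs_le.2 ⟨by linarith, hx2⟩), mul_one]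
    · have := Convex.norm_image_sub_le_of_norm_deriv_le (f := w) (s := univ) (C := max M M')
        (x := y) (y := x) (fun z _ => hw.diff z) (fun z _ => by
          rw [Real.norm_eq_abs]
          exact (h1' z).trans (le_max_right _ _)) convex_univ (mem_univ _) (mem_univ _)
      simpa only [Real.norm_eq_abs] using this
  · show big (R + 1) _ α * sst a' a α = 0
    rw [sst_zero haa hα, mul_zero]

/-- **slow variation** -/
theorem w3_main : S_W3 := by
  rintro HB w hw ⟨A1, hA1, hz⟩ ε hε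
  obtain ⟨W, a, A, M, H, A2, hA2, hzW⟩ := exists_CD hw hA1 hz
  obtain ⟨C', T0, hC'⟩ := HB W H.hW H.W0 ⟨A2, hA2, hzW⟩
  set C : ℝ := max C' 1 with hC
  have hC1 : 1 ≤ C := le_max_right _ _
  have hM := H.hM
  have hA := H.hA
  set Q : ℝ := M * C * (29 + 2 * A) with hQ
  have hQ0 : 0 < Q := by positivity
  -- the choice of `η`
  set η : ℝ := min (1 / 4) ((ε / (2 * Q)) ^ 2) with hη
  have hη0 : 0 < η := by
    rw [hη]
    exact lt_min (by norm_num) (by positivity)
  have hη1 : η ≤ 1 / 4 := min_le_left _ _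
  have hη2 : Q * Real.sqrt η ≤ ε / 2 := by
    have : Real.sqrt η ≤ ε / (2 * Q) := by
      rw [Real.sqrt_le_left (by positivity)]
      exact min_le_right _ _
    calc Q * Real.sqrt η ≤ Q * (ε / (2 * Q)) := by gcongr
      _ = ε / 2 := by field_simp
  have hAa : 0 < A1 - a := by linarith [H.haA]
  have hev : ∀ᶠ T : ℝ in atTop, T0 ≤ T ∧ 1 < T ∧ 1 / η ≤ Real.log T ∧
      Real.log (3 / η) ≤ Real.log T ∧ 1 + a * Real.log (3 / η) ≤ (A1 - a) * Real.log T := by
    have t := Real.tendsto_log_atTop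
    have t2 : Tendsto (fun T => (A1 - a) * Real.log T) atTop atTop :=
      t.const_mul_atTop hAa
    filter_upwards [eventually_ge_atTop T0, eventually_gt_atTop 1,
      t.eventually (eventually_ge_atTop (1 / η)), t.eventually (eventually_ge_atTop (Real.log (3 / η))),
      t2.eventually (eventually_ge_atTop (1 + a * Real.log (3 / η)))] with T h1 h2 h3 h4 h5
    exact ⟨h1, h2, h3, h4, h5⟩
  obtain ⟨T2, hT2⟩ := eventually_atTop.1 hev
  have hmain : ∀ T : ℝ, T2 ≤ T → ∀ T1 : ℝ, (1 + η) * T ≤ T1 → T1 ≤ (1 + 2 * η) * T →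
      |(∫ α : ℝ, w α * uT T1 α) - ∫ α : ℝ, w α * uT T α| ≤ ε / 2 := by
    intro T hT T1 h1 h2
    obtain ⟨c1, c2, c3, c4, c5⟩ := hT2 T hT
    have E : EP w W A1 a A M C η T T1 := ⟨H, by linarith, hη0, hη1, c2, c3, c4, c5,
      fun S hS => (hC' S (by linarith)).trans (le_max_left _ _), h1, h2⟩
    exact E.main.trans hη2
  refine ⟨η / 4, max T2 1, by positivity, fun T hT T' h1 h2 => ?_⟩
  have hTT : T2 ≤ T := (le_max_left _ _).trans hT
  have hT1 : 1 ≤ T := (le_max_right _ _).trans hT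
  have e1 := hmain T hTT ((1 + 3 / 2 * η) * T) (by nlinarith) (by nlinarith)
  have e2 := hmain T' (by linarith) ((1 + 3 / 2 * η) * T) (by
    have : (1 + η) * (1 + η / 4) ≤ 1 + 3 / 2 * η := by nlinarith
    calc (1 + η) * T' ≤ (1 + η) * ((1 + η / 4) * T) := by gcongr
      _ = ((1 + η) * (1 + η / 4)) * T := by ring
      _ ≤ (1 + 3 / 2 * η) * T := by gcongr) (by nlinarith)
  have t := abs_sub_le (∫ α : ℝ, w α * uT T' α) (∫ α : ℝ, w α * uT ((1 + 3 / 2 * η) * T) α)
    (∫ α : ℝ, w α * uT T α)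
  rw [abs_sub_comm (∫ α : ℝ, w α * uT T' α) (∫ α : ℝ, w α * uT ((1 + 3 / 2 * η) * T) α)] at t
  linarith

end Pool.Agent.N804.PV
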