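import Pool.Agent.N804.PV.Ta

set_option autoImplicit false

/-! # From the conjecture to the prime variance -/

namespace Pool.Agent.N804.PV

open Filter Topology Set MeasureTheory
open H370 (Zf mult mem_Zf good_zeta zset NN NN_eq)
open Pool.Agent.N804

lemma mg_form {r : ℝ → ℝ} (Hr : SC r) : mg r = CT r 0 + 2 * ∫ x in Ioi (0 : ℝ), tw r x * PP x := by
  obtain ⟨κ, hκ, hs⟩ := Hr.supp
  have W := tw_test Hr hκ hs
  have i0 := w_int W
  have iP := wP_int W
  have hc0 : CT r 0 = ∫ x in Ioi (0 : ℝ), tw r x := by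
    have := W.eq 0
    rwa [abs_zero] at this
  have hm := main_gen Hr
  have e2 : ∫ x in Ioi (0 : ℝ), tw r x * (1 + 2 * PP x) =
      (∫ x in Ioi (0 : ℝ), tw r x) + 2 * ∫ x in Ioi (0 : ℝ), tw r x * PP x := by
    rw [← integral_const_mul, ← integral_add i0 (iP.const_mul 2)]
    congr 1
    funext x
    ring
  rw [hc0, ← e2, hm]
  rfl

/-- the limits of the integrals -/
lemma J_lim (h : ∀ x : ℝ, 0 < x → Tendsto (fun T => CF T x) atTop (𝓝 (PP x))) {r : ℝ → ℝ}
    (Hr : SC r) : Tendsto (fun T => ∫ x in Ioi (0 : ℝ), tw r x * CF T x) atTop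
      (𝓝 (∫ x in Ioi (0 : ℝ), tw r x * PP x)) := by
  obtain ⟨κ, hκ, hs⟩ := Hr.supp
  have W := tw_test Hr hκ hs
  obtain ⟨B, T0, hB, hT0, hbd⟩ := CF_bd
  refine tendsto_integral_filter_of_dominated_convergence
    (fun x => B * (x ^ 1 * |tw r x|) + B * (x ^ 0 * |tw r x|)) ?_ ?_ ?_ ?_
  · filter_upwards [eventually_ge_atTop 2] with T hT
    have hm : Monotone (CF T) := fun x y hxy => CF_mono (by linarith) hxy
    exact ((tw_cont Hr).measurable.mul hm.measurable).aestronglyMeasurable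
  · filter_upwards [eventually_ge_atTop T0] with T hT
    refine (ae_restrict_iff' measurableSet_Ioi).2 (ae_of_all _ fun x hx => ?_)
    have hx0 : 0 ≤ x := le_of_lt hx
    obtain ⟨c1, c2⟩ := (hbd T hT).2 x hx0
    rw [Real.norm_eq_abs, abs_mul, abs_of_nonneg c1]
    calc |tw r x| * CF T x ≤ |tw r x| * (B * (1 + x)) := by gcongr
      _ = _ := by ring
  · exact ((W.inta 1 le_rfl).const_mul _).add ((W.inta 0 le_rfl).const_mul _)
  · refine (ae_restrict_iff' measurableSet_Ioi).2 (ae_of_all _ fun x hx => ?_)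
    exact (h x hx).const_mul _

lemma dsum_form {r : ℝ → ℝ} (Hr : SC r) {T : ℝ} (hT : 1 < T) : dsum T (sc r T) / XX T =
    MF' T * CT r 0 + 2 * ∫ x in Ioi (0 : ℝ), tw r x * CF T x := by
  obtain ⟨κ, hκ, hs⟩ := Hr.supp
  have W := tw_test Hr hκ hs
  exact (dsum_eq (w := tw r) (g := CT r) (w_int W) W.eq hT).2

/-- almost all zeros are simple -/
theorem MF_lim (hmo : S_MO) (RH : RiemannHypothesis)
    (h : ∀ x : ℝ, 0 < x → Tendsto (fun T => CF T x) atTop (𝓝 (PP x))) :
    Tendsto MF' atTop (𝓝 1) := by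
  set B : ContDiffBump (0 : ℝ) := ⟨1 / 4, 1 / 2, by norm_num, by norm_num⟩ with hB
  have HB : SC B := ⟨B.contDiff, B.hasCompactSupport⟩
  have hpos : 0 < CT B 0 := by
    unfold CT
    simp only [mul_zero, Real.cos_zero, mul_one]
    exact B.integral_pos
  have h1 := hmo RH B HB ⟨1 / 2, by norm_num, fun α hα => B.zero_of_le_dist (by
    rw [Real.dist_eq, sub_zero]
    exact hα.le)⟩
  rw [mg_form HB] at h1
  have h2 := (J_lim h HB).const_mul 2
  have h3 := (h1.sub h2).div_const (CT B 0)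
  rw [add_sub_cancel_right, div_self hpos.ne'] at h3
  refine h3.congr' ?_
  filter_upwards [eventually_gt_atTop 1] with T hT
  rw [dsum_form HB hT]
  field_simp
  ring

/-- all sums over pairs -/
theorem dsum_lim (hmo : S_MO) (RH : RiemannHypothesis)
    (h : ∀ x : ℝ, 0 < x → Tendsto (fun T => CF T x) atTop (𝓝 (PP x))) {r : ℝ → ℝ} (Hr : SC r) :
    Tendsto (fun T => dsum T (sc r T) / XX T) atTop (𝓝 (mg r)) := by
  have h1 := ((MF_lim hmo RH h).mul_const (CT r 0)).add ((J_lim h Hr).const_mul 2)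
  rw [one_mul, ← mg_form Hr] at h1
  refine h1.congr' ?_
  filter_upwards [eventually_gt_atTop 1] with T hT
  rw [dsum_form Hr hT]

/-- the smoothed prime variance -/
theorem prime_lim (hI : S_PVI) (hmo : S_MO) (hav : S_AVG) (RH : RiemannHypothesis)
    (h : ∀ x : ℝ, 0 < x → Tendsto (fun T => CF T x) atTop (𝓝 (PP x))) {w : ℝ → ℝ} (Hw : SC w)
    (hw : ∃ A1 : ℝ, 1 / 2 < A1 ∧ ∀ α : ℝ, α ≤ A1 → w α = 0) :
    Tendsto (fun T => ∫ α : ℝ, w α * uT T α) atTop (𝓝 (mg w)) := by
  have h1 := (hI RH w Hw hw).add (hav w Hw _ (dsum_lim hmo RH h Hw))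
  rw [zero_add] at h1
  refine h1.congr' ?_
  filter_upwards [eventually_gt_atTop 1] with T hT
  rw [scale_int hT w]
  ring

lemma mg_mono {r s : ℝ → ℝ} (H : SC r) (H' : SC s) (hrs : ∀ α, r α ≤ s α) : mg r ≤ mg s := by
  have h1 := mg_nonneg (r := fun α => s α - r α) fun α => sub_nonneg.2 (hrs α)
  rw [mg_sub H' H] at h1
  linarith

/-- **from the conjecture to the prime variance** -/
theorem GV_lim (hI : S_PVI) (hmo : S_MO) (hav : S_AVG) (RH : RiemannHypothesis)
    (h : ∀ x : ℝ, 0 < x → Tendsto (fun T => CF T x) atTop (𝓝 (PP x))) {u v : ℝ} (hu : 1 ≤ u)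
    (huv : u < v) : Tendsto (fun T => GV T u v) atTop (𝓝 (v - u)) := by
  have hint : ∫ α in u..v, min |α| 1 = v - u := by
    have e : ∫ α in u..v, min |α| 1 = ∫ α in u..v, (1 : ℝ) := by
      refine intervalIntegral.integral_congr fun α hα => ?_
      rw [uIcc_of_le huv.le] at hα
      show min |α| 1 = 1
      rw [abs_of_nonneg (by linarith [hα.1])]
      exact min_eq_right (by linarith [hα.1])
    rw [e, intervalIntegral.integral_const, smul_eq_mul, mul_one]
  refine tendsto_order.2 ⟨fun y hy => ?_, fun y hy => ?_⟩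
  · obtain ⟨r, Hr, hr0, hr1, hrb, hrc, hmg⟩ := bump_low (show 0 < u by linarith) huv
      (show 0 < (v - u - y) / 2 by linarith)
    rw [hint] at hmg
    have hp := prime_lim hI hmo hav RH h Hr ⟨u, by linarith, hrb⟩
    filter_upwards [hp.eventually (lt_mem_nhds (show y < mg r by linarith)),
      eventually_ge_atTop 2] with T hk hk2
    have hT1 : 1 < T := by linarith
    refine hk.trans_le ?_
    rw [GV_eq hT1 huv.le]
    have e1 : ∫ α : ℝ, r α * uT T α = ∫ α in u..v, r α * uT T α := by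
      refine (intervalIntegral.integral_eq_integral_of_support_subset ?_).symm
      intro α hα
      by_contra hcon
      apply hα
      rw [mem_Ioc, not_and_or] at hcon
      show r α * uT T α = 0
      rcases hcon with h6 | h6
      · rw [hrb α (not_lt.1 h6), zero_mul]
      · rw [hrc α (not_le.1 h6).le, zero_mul]
    rw [e1]
    refine intervalIntegral.integral_mono_on huv.le (uT_int hT1 Hr).intervalIntegrable
      (uT_ii hT1 _ _) fun α _ => ?_
    exact mul_le_of_le_one_left (uT_nonneg hT1 α) (hr1 α)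
  · obtain ⟨r, Hr, hr0, hr1, hmg⟩ := bump_up (show 0 < u by linarith) huv
      (show 0 < (y - (v - u)) / 2 by linarith)
    rw [hint] at hmg
    have H1 : SC fun α => r α * sst (3 / 4) 1 α := Hr.mulS (sst_sm _ _)
    have hp := prime_lim hI hmo hav RH h H1 ⟨3 / 4, by norm_num, fun α hα => by
      rw [sst_zero (by norm_num) hα, mul_zero]⟩
    have hle : mg (fun α => r α * sst (3 / 4) 1 α) ≤ mg r := mg_mono H1 Hr fun α =>
      mul_le_of_le_one_right (hr0 α) (sst_le _ _ _)
    filter_upwards [hp.eventually (gt_mem_nhds (show mg (fun α => r α * sst (3 / 4) 1 α) < y by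
      linarith)), eventually_ge_atTop 2] with T hk hk2
    have hT1 : 1 < T := by linarith
    rw [GV_eq hT1 huv.le]
    refine (win_le' hT1 H1 (fun α => mul_nonneg (hr0 α) (sst_nonneg _ _ _)) huv.le
      fun α hα => ?_).trans_lt hk
    rw [sst_one (by norm_num) (by linarith [hα.1]), mul_one]
    exact hr1 α hα

end Pool.Agent.N804.PV
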