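import Pool.Agent.N804.PV.Wb
import Pool.Agent.N804.PV.Co

set_option autoImplicit false

/-! # The end of the proof for fixed lengths -/

namespace Pool.Agent.N804.PV

open Filter Topology Set MeasureTheory
open Pool.Agent.N804

/-- the functionals vanish -/
theorem av_aA_lim (I : Inp) (h1 : S_W1) (h4 : S_W4) (hfn : S_FN) (RH : RiemannHypothesis) {θ : ℝ}
    (hθ0 : 0 ≤ θ) (hθ1 : θ ≤ 1) {δ : ℝ} (hδ : 0 < δ) (hδ1 : δ < 1)
    (hW : ∀ᵐ s : ℝ, 1 - δ < s → ∀ ε : ℝ, 0 < ε → ∀ᶠ T in atTop,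
      WV θ T (max 1 s) (max 1 (s + δ)) ≤ (max 1 (s + δ) - max 1 s) + ε)
    (hB : ∀ B : ℝ, ∃ b : ℝ, B < b ∧ ∃ C T0 : ℝ, ∀ T : ℝ, T0 ≤ T → WV θ T 1 b ≤ C)
    {r : ℝ → ℝ} (Hr : SC r) : Tendsto (av (aA r)) atTop (𝓝 (mg r)) := by
  rw [tendsto_iff_ultrafilter]
  intro U hU
  have hF := fn I h4 RH hU hδ hδ1 fun ρ Hρ hρ ⟨a, ha, hz⟩ =>
    win_avg I h1 h4 RH hθ0 hθ1 hδ hW hB hU Hρ hρ ha hz
  have hz := hfn (DU U) (mU U) δ hδ hδ1 hF r Hr
  have h2 := DU_lim I.hk h4 hU Hr
  rwa [hz, mul_zero, add_zero] at h2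

/-- from averages to values -/
theorem g_lim (I : Inp) (h3 : S_W3) (h4 : S_W4) (RH : RiemannHypothesis) {w : ℝ → ℝ} (Hw : SC w)
    (hw : ∃ A1 : ℝ, 1 / 2 < A1 ∧ ∀ α : ℝ, α ≤ A1 → w α = 0)
    (ha : Tendsto (av (aA w)) atTop (𝓝 (mg w))) :
    Tendsto (aA w) atTop (𝓝 (mg w)) := by
  set g : ℝ → ℝ := fun t => ∫ α : ℝ, w α * uT t α with hg
  have i1 : LI g := fun M => (h4 w Hw M).2.2
  have hga : Tendsto (fun t => g t - aA w t) atTop (𝓝 0) := by
    refine (I.hI RH w Hw hw).congr' ?_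
    filter_upwards [eventually_gt_atTop 1] with t ht
    rw [scale_int ht]
    rfl
  have hag : Tendsto (av g) atTop (𝓝 (mg w)) := by
    have h2 := (av_lim (i1.sub (LI_aA h4 Hw)) hga).add ha
    rw [zero_add] at h2
    refine h2.congr' ?_
    filter_upwards [eventually_ge_atTop 2] with T hT
    rw [av_sub i1 (LI_aA h4 Hw) hT]
    ring
  have hgl : Tendsto g atTop (𝓝 (mg w)) := by
    rw [Metric.tendsto_nhds]
    intro ε hε
    obtain ⟨η, T0, hη, hsl⟩ := h3 (fun v Hv _ hv => by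
      obtain ⟨K, -, hK⟩ := gP_bd I RH Hv hv
      obtain ⟨T1, hT1⟩ := eventually_atTop.1 hK
      exact ⟨K, T1, fun T hT => (le_abs_self _).trans (hT1 T hT)⟩) w Hw hw (ε / 3) (by positivity)
    have hη1 : Tendsto (fun T : ℝ => (1 + η) * T) atTop atTop :=
      tendsto_id.const_mul_atTop (by linarith)
    have h5 : Tendsto (fun T => ((1 + η) * av g ((1 + η) * T) - av g T) / η) atTop
        (𝓝 (((1 + η) * mg w - mg w) / η)) :=
      (((hag.comp hη1).const_mul (1 + η)).sub hag).div_const η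
    have e5 : ((1 + η) * mg w - mg w) / η = mg w := by
      field_simp
      ring
    rw [e5] at h5
    filter_upwards [(Metric.tendsto_nhds.1 h5) (ε / 3) (by positivity), eventually_ge_atTop T0,
      eventually_ge_atTop 2] with T a1 a2 a3
    have hT0 : 0 < T := by linarith
    have hT2 : 2 ≤ (1 + η) * T := by nlinarith
    have hTT : T ≤ (1 + η) * T := by nlinarith
    have e6 : ((1 + η) * av g ((1 + η) * T) - av g T) / η =
        1 / (η * T) * ∫ t in T..((1 + η) * T), g t := by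
      have e7 : ∫ t in T..((1 + η) * T), g t =
          (∫ t in (2 : ℝ)..((1 + η) * T), g t) - ∫ t in (2 : ℝ)..T, g t :=
        (intervalIntegral.integral_interval_sub_left (i1.ii le_rfl hT2) (i1.ii le_rfl a3)).symm
      rw [e7]
      unfold av
      have : (1 + η) ≠ 0 := by positivity
      field_simp
    have hlen : ∫ t in T..((1 + η) * T), g T = (η * T) * g T := by
      rw [intervalIntegral.integral_const, smul_eq_mul]
      ring
    have h6 : |(∫ t in T..((1 + η) * T), g t) - (η * T) * g T| ≤ (ε / 3) * (η * T) := by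
      rw [← hlen, ← intervalIntegral.integral_sub (i1.ii a3 hT2) intervalIntegrable_const]
      have h7 := intervalIntegral.norm_integral_le_of_norm_le_const (a := T) (b := (1 + η) * T)
        (f := fun t => g t - g T) (C := ε / 3) (fun t ht => by
          rw [uIoc_of_le hTT] at ht
          exact hsl T a2 t ht.1.le ht.2)
      have e8 : (1 + η) * T - T = η * T := by ring
      rw [e8, abs_of_pos (by positivity)] at h7
      exact h7
    have h7 : |1 / (η * T) * (∫ t in T..((1 + η) * T), g t) - g T| ≤ ε / 3 := by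
      have e8 : 1 / (η * T) * (∫ t in T..((1 + η) * T), g t) - g T =
          ((∫ t in T..((1 + η) * T), g t) - (η * T) * g T) / (η * T) := by
        field_simp
      rw [e8, abs_div, abs_of_pos (show 0 < η * T by positivity), div_le_iff₀ (by positivity)]
      exact h6
    rw [e6, Real.dist_eq] at a1
    rw [Real.dist_eq]
    have h8 := abs_lt.1 a1
    have h9 := abs_le.1 h7
    rw [abs_lt]
    constructor <;> linarith [h8.1, h8.2, h9.1, h9.2]
  have h5 := hgl.sub hga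
  rw [sub_zero] at h5
  refine h5.congr fun t => ?_
  ring

lemma mg_refl (r : ℝ → ℝ) : mg (fun α => r (-α)) = mg r := by
  unfold mg
  beta_reduce
  rw [neg_zero]
  congr 1
  rw [← integral_neg_eq_self]
  congr 1
  funext α
  rw [abs_neg, neg_neg]

/-- all test functions -/
theorem aA_lim (I : Inp) (RH : RiemannHypothesis)
    (h : ∀ w : ℝ → ℝ, SC w → (∃ A1 : ℝ, 1 / 2 < A1 ∧ ∀ α : ℝ, α ≤ A1 → w α = 0) →
      Tendsto (aA w) atTop (𝓝 (mg w))) {r : ℝ → ℝ} (Hr : SC r) :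
    Tendsto (aA r) atTop (𝓝 (mg r)) := by
  set χ : ℝ → ℝ := sst (3 / 5) (4 / 5) with hχ
  have hlt : (3 / 5 : ℝ) < 4 / 5 := by norm_num
  have hχs : ContDiff ℝ (⊤ : ℕ∞) χ := sst_sm _ _
  have hχn : ContDiff ℝ (⊤ : ℕ∞) (fun x => χ (-x)) := hχs.comp contDiff_neg
  have H1 : SC fun x => r x * χ x := Hr.mulS hχs
  have H2 : SC fun x => r (-x) * χ x := Hr.refl.mulS hχs
  have H2' : SC fun x => r x * χ (-x) := Hr.mulS hχn
  have H3 : SC fun x => r x * (1 - χ x - χ (-x)) := Hr.mulS ((contDiff_const.sub hχs).sub hχn)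
  have l1 := h _ H1 ⟨3 / 5, by norm_num, fun α hα => by
    simp only [hχ]
    rw [sst_zero hlt hα, mul_zero]⟩
  have l2 := h _ H2 ⟨3 / 5, by norm_num, fun α hα => by
    simp only [hχ]
    rw [sst_zero hlt hα, mul_zero]⟩
  have e2 : aA (fun x => r (-x) * χ x) = aA (fun x => r x * χ (-x)) := by
    funext t
    have := aA_neg (fun x => r x * χ (-x)) t
    simp only [neg_neg] at this
    exact this
  have m2 : mg (fun x => r (-x) * χ x) = mg (fun x => r x * χ (-x)) := by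
    have := mg_refl (fun x => r x * χ (-x))
    simp only [neg_neg] at this
    exact this
  rw [e2, m2] at l2
  have l3 : Tendsto (aA fun x => r x * (1 - χ x - χ (-x))) atTop
      (𝓝 (mg fun x => r x * (1 - χ x - χ (-x)))) := by
    refine I.hav _ H3 _ (I.hmo RH _ H3 ⟨4 / 5, by norm_num, fun x hx => ?_⟩)
    rcases lt_abs.1 hx with h1 | h1
    · simp only [hχ]
      rw [sst_one hlt h1.le, sst_zero hlt (by linarith)]
      ring
    · simp only [hχ]
      rw [sst_zero (x := x) hlt (by linarith), sst_one hlt h1.le]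
      ring
  have e : r = fun x => (r x * χ x + r x * χ (-x)) + r x * (1 - χ x - χ (-x)) := by
    funext x
    ring
  have l4 := (l1.add l2).add l3
  have m4 : mg r = (mg (fun x => r x * χ x) + mg (fun x => r x * χ (-x))) +
      mg (fun x => r x * (1 - χ x - χ (-x))) := by
    rw [← mg_add H1 H2', ← mg_add (H1.add H2') H3]
    exact congrArg mg e
  rw [m4]
  refine l4.congr fun t => ?_
  rw [← aA_add H1 H2', ← aA_add (H1.add H2') H3]
  exact congrFun (congrArg aA e.symm) t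

/-- the averaged counting functions -/
theorem CA_lim' (I : Inp) (h : ∀ r : ℝ → ℝ, SC r → Tendsto (aA r) atTop (𝓝 (mg r))) {x : ℝ}
    (hx : 0 < x) : Tendsto (fun T => CA T x) atTop (𝓝 (PP x)) := by
  refine tendsto_of_subseq_tendsto fun T hT => ?_
  obtain ⟨ψ, hψ, Φ, μ, hA⟩ := extractA I.ha I.hb hT
  have hD : ∀ r : ℝ → ℝ, SC r → DD (Gd Φ μ) r = 0 := by
    intro r Hr
    have h1 := tendsto_nhds_unique ((h r Hr).comp hA.hT) (hA.pair I.hb Hr)
    linarith
  have hμ : μ = 1 := by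
    refine le_antisymm ?_ hA.mu
    refine le_of_forall_pos_le_add fun ε hε => ?_
    have hae : ∀ᵐ y : ℝ, ContinuousAt Φ y := by
      rw [ae_iff]
      exact hA.mono.countable_not_continuousAt.measure_zero _
    obtain ⟨y, hy, hyc⟩ := ae_Ioo hae (show (0 : ℝ) < ε / 2 by positivity)
    have h1 := van hA.lg hD hy.1 (by
      unfold Gd
      exact (hyc.sub PP_cont.continuousAt).add continuousAt_const)
    unfold Gd at h1
    obtain ⟨B, hB, hbd⟩ := hA.bd
    have h2 := (hbd y hy.1.le).1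
    have h3 := PP_le hy.1.le
    linarith [hy.2]
  exact ⟨ψ, CA_conv hA hμ hD hx⟩

/-- the upper half for almost all windows of length `δ` ending beyond `1`, fixed lengths -/
def UHF (θ δ : ℝ) : Prop := ∀ᵐ b : ℝ, 1 < b → ∀ ε : ℝ, 0 < ε → ∀ᶠ T in atTop,
  WV θ T (max 1 (b - δ)) b ≤ b - max 1 (b - δ) + ε

/-- **the equivalences for fixed lengths** -/
theorem mainF (I : Inp) (htau : S_TAU) (h1 : S_W1) (h2 : S_W2) (h3 : S_W3) (h4 : S_W4) (h5 : S_W5)
    (hfn : S_FN) {θ : ℝ} (hθ0 : 0 ≤ θ) (hθ1 : θ ≤ 1) {δ : ℝ} (hδ : 0 < δ) (hδ1 : δ < 1) :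
    (UHF θ δ → RiemannHypothesis ∧ ∀ a : ℝ, 0 < a → Tendsto (fun T => CF T a) atTop (𝓝 (PP a))) ∧
    ((RiemannHypothesis ∧ ∀ a : ℝ, 0 < a → Tendsto (fun T => CF T a) atTop (𝓝 (PP a))) →
      ∀ u v : ℝ, 1 ≤ u → u < v → Tendsto (fun T => WV θ T u v) atTop (𝓝 (v - u))) := by
  constructor
  · intro h
    obtain ⟨RH, hB⟩ := h2 θ hθ0 hθ1 δ hδ (by
      filter_upwards [h] with b hb hb1
      obtain ⟨T0, hT0⟩ := eventually_atTop.1 (hb hb1 1 one_pos)
      exact ⟨_, T0, hT0⟩)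
    have hW : ∀ᵐ s : ℝ, 1 - δ < s → ∀ ε : ℝ, 0 < ε → ∀ᶠ T in atTop,
        WV θ T (max 1 s) (max 1 (s + δ)) ≤ (max 1 (s + δ) - max 1 s) + ε := by
      have h1 := (measurePreserving_add_right (volume : Measure ℝ) δ).quasiMeasurePreserving.ae h
      filter_upwards [h1] with s hs hs1 ε hε
      have hb : 1 < s + δ := by linarith
      filter_upwards [hs hb ε hε] with T hT
      rw [add_sub_cancel_right] at hT
      rwa [max_eq_right hb.le]
    have hA : ∀ r : ℝ → ℝ, SC r → Tendsto (aA r) atTop (𝓝 (mg r)) := fun r Hr =>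
      aA_lim I RH (fun w Hw hw => g_lim I h3 h4 RH Hw hw
        (av_aA_lim I h1 h4 hfn RH hθ0 hθ1 hδ hδ1 hW hB Hw)) Hr
    exact ⟨RH, fun a ha => CF_lim I.hb htau (fun x hx => CA_lim' I hA hx) ha⟩
  · rintro ⟨RH, h⟩
    exact h5 RH (fun u v hu huv => GV_lim I.hI I.hmo I.hav RH h hu huv) θ hθ0 hθ1

end Pool.Agent.N804.PV
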