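import Pool.Agent.N804.PV.All
import Pool.Agent.N804.PV.We
import Pool.Agent.N395.PX_1
import Pool.Agent.N490.PX_2
import Pool.Agent.N680.PX_4
import Pool.Agent.N711.PX_5
import Pool.Agent.N93.PX.Fn
import Pool.Agent.N804.PV.Sv2

set_option autoImplicit false

/-! # The equivalences for fixed lengths, without hypotheses -/

namespace Pool.Agent.N804.PV

open Filter Topology Set MeasureTheory
open Pool.Agent.N804

theorem w1 : S_W1 := N395.PX1.main
theorem w2 : S_W2 := N490.PX2.main w1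
theorem w3 : S_W3 := w3_main
theorem w4 : S_W4 := N680.PX4.main
theorem w5 : S_W5 := N711.PX_5.main w1
theorem sfn : S_FN := N93.PX6.main

/-- **the equivalences for fixed lengths** -/
theorem pw_main {θ : ℝ} (hθ0 : 0 ≤ θ) (hθ1 : θ ≤ 1) {δ : ℝ} (hδ : 0 < δ) (hδ1 : δ < 1) :
    (UHF θ δ → RiemannHypothesis ∧ ∀ a : ℝ, 0 < a → Tendsto (fun T => CF T a) atTop (𝓝 (PP a))) ∧
    ((RiemannHypothesis ∧ ∀ a : ℝ, 0 < a → Tendsto (fun T => CF T a) atTop (𝓝 (PP a))) →
      ∀ u v : ℝ, 1 ≤ u → u < v → Tendsto (fun T => WV θ T u v) atTop (𝓝 (v - u))) :=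
  mainF inp tau w1 w2 w3 w4 w5 sfn hθ0 hθ1 hδ hδ1

end Pool.Agent.N804.PV
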