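import Pool.Agent.N804.PV.Stm
import Pool.Agent.W54.TCF.NT

set_option autoImplicit false

/-! # Averaged sums over pairs of zeros -/

namespace Pool.Agent.N804.PV

open Filter Topology Set MeasureTheory
open H370 (Zf mult mem_Zf good_zeta zset NN NN_eq)
open Pool.Agent.N804

/-- weighted sums over pairs of zeros -/
noncomputable def PW (T : ℝ) (F : ℂ → ℂ → ℝ) : ℝ :=
  (∑ s ∈ Zf riemannZeta 0 (T ^ 2), ∑ s' ∈ Zf riemannZeta 0 (T ^ 2),
    (mult riemannZeta s : ℝ) * (mult riemannZeta s' : ℝ) * ph (max s.im s'.im / T) * F s s') /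
      (Real.pi * XX T)

/-- the averaged counting function -/
noncomputable def CA (T x : ℝ) : ℝ := by
  classical
  exact PW T fun s s' => if 0 < s.im - s'.im ∧ s.im - s'.im ≤ 2 * Real.pi * x / Real.log T then 1 else 0

/-- the averaged number of pairs of equal ordinates -/
noncomputable def MA (T : ℝ) : ℝ := by
  classical
  exact PW T fun s s' => if s.im = s'.im then 1 else 0

lemma AT_PW (T : ℝ) (f : ℝ → ℝ) : AT T f = PW T fun s s' => f (s.im - s'.im) := rfl

lemma ph_nonneg (v : ℝ) : 0 ≤ ph v := sq_nonneg _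

lemma ph_le_one (v : ℝ) : ph v ≤ 1 := by
  unfold ph
  have := Real.abs_sinc_le_one (v / 2)
  rw [← sq_abs]
  exact pow_le_one₀ (abs_nonneg _) this

lemma PW_mono {T : ℝ} (hT : 1 < T) {F G : ℂ → ℂ → ℝ} (h : ∀ s s', F s s' ≤ G s s') :
    PW T F ≤ PW T G := by
  unfold PW
  have hX := XX_pos hT
  have hpi := Real.pi_pos
  refine div_le_div_of_nonneg_right (Finset.sum_le_sum fun s _ => Finset.sum_le_sum fun s' _ => ?_)
    (by positivity)
  have := ph_nonneg (max s.im s'.im / T)
  exact mul_le_mul_of_nonneg_left (h s s') (by positivity)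

lemma PW_nonneg {T : ℝ} (hT : 1 < T) {F : ℂ → ℂ → ℝ} (h : ∀ s s', 0 ≤ F s s') : 0 ≤ PW T F := by
  unfold PW
  have hX := XX_pos hT
  have hpi := Real.pi_pos
  refine div_nonneg (Finset.sum_nonneg fun s _ => Finset.sum_nonneg fun s' _ => ?_) (by positivity)
  have := ph_nonneg (max s.im s'.im / T)
  exact mul_nonneg (by positivity) (h s s')

lemma PW_add (T : ℝ) (F G : ℂ → ℂ → ℝ) : PW T (fun s s' => F s s' + G s s') = PW T F + PW T G := by
  unfold PW
  rw [← add_div, ← Finset.sum_add_distrib]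
  congr 1
  refine Finset.sum_congr rfl fun s _ => ?_
  rw [← Finset.sum_add_distrib]
  refine Finset.sum_congr rfl fun s' _ => ?_
  ring

lemma PW_mul (T c : ℝ) (F : ℂ → ℂ → ℝ) : PW T (fun s s' => c * F s s') = c * PW T F := by
  unfold PW
  rw [← mul_div_assoc, Finset.mul_sum]
  congr 1
  refine Finset.sum_congr rfl fun s _ => ?_
  rw [Finset.mul_sum]
  refine Finset.sum_congr rfl fun s' _ => ?_
  ring

lemma CA_nonneg {T : ℝ} (hT : 1 < T) (x : ℝ) : 0 ≤ CA T x := by
  unfold CA
  refine PW_nonneg hT fun s s' => ?_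
  split_ifs <;> norm_num

lemma MA_nonneg {T : ℝ} (hT : 1 < T) : 0 ≤ MA T := by
  unfold MA
  refine PW_nonneg hT fun s s' => ?_
  split_ifs <;> norm_num

lemma CA_mono {T : ℝ} (hT : 1 < T) {x y : ℝ} (h : x ≤ y) : CA T x ≤ CA T y := by
  unfold CA
  refine PW_mono hT fun s s' => ?_
  have hL := Real.log_pos hT
  have hpi := Real.pi_pos
  have h1 : 2 * Real.pi * x / Real.log T ≤ 2 * Real.pi * y / Real.log T := by gcongr
  by_cases h2 : 0 < s.im - s'.im ∧ s.im - s'.im ≤ 2 * Real.pi * x / Real.log T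
  · rw [if_pos h2, if_pos ⟨h2.1, h2.2.trans h1⟩]
  · rw [if_neg h2]
    split_ifs <;> norm_num

/-- sums over pairs and the averaged counting function -/
theorem AT_eq {w g : ℝ → ℝ} (i0 : IntegrableOn w (Ioi 0)) (heq : ∀ u, g u = ∫ x in Ioi |u|, w x)
    {T : ℝ} (hT : 1 < T) :
    IntegrableOn (fun x => w x * CA T x) (Ioi 0) ∧
    AT T (fun d => g (d * Real.log T / (2 * Real.pi))) =
      MA T * g 0 + 2 * ∫ x in Ioi (0 : ℝ), w x * CA T x := by
  classical
  have hL := Real.log_pos hT
  have hpi := Real.pi_pos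
  set L := Real.log T with hLd
  set S := Zf riemannZeta 0 (T ^ 2) with hS
  set D : ℝ := Real.pi * XX T with hD
  have hgev : ∀ u, g |u| = g u := fun u => by rw [heq, heq, abs_abs]
  set k : ℂ → ℂ → ℝ := fun s s' =>
    (mult riemannZeta s : ℝ) * (mult riemannZeta s' : ℝ) * ph (max s.im s'.im / T) with hk
  have hksym : ∀ s s', k s s' = k s' s := fun s s' => by
    simp only [hk]
    rw [max_comm]
    ring
  have hexp : ∀ x : ℝ, w x * CA T x = (∑ s ∈ S, ∑ s' ∈ S,
      w x * (if 0 < s.im - s'.im ∧ s.im - s'.im ≤ 2 * Real.pi * x / L then k s s' else 0)) / D := by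
    intro x
    unfold CA PW
    rw [← mul_div_assoc, Finset.mul_sum]
    congr 1
    refine Finset.sum_congr rfl fun s _ => ?_
    rw [Finset.mul_sum]
    refine Finset.sum_congr rfl fun s' _ => ?_
    simp only [hk]
    split_ifs <;> ring
  have hone : ∀ s s' : ℂ, IntegrableOn (fun x => w x *
      (if 0 < s.im - s'.im ∧ s.im - s'.im ≤ 2 * Real.pi * x / L then k s s' else 0)) (Ioi 0) :=
    fun s s' => (one_pairG i0 heq hL (s.im - s'.im) (k s s')).1
  have honei : ∀ s s' : ℂ, Integrable (fun x => w x *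
      (if 0 < s.im - s'.im ∧ s.im - s'.im ≤ 2 * Real.pi * x / L then k s s' else 0))
      (volume.restrict (Ioi 0)) := hone
  have hii : IntegrableOn (fun x => w x * CA T x) (Ioi 0) := by
    simp_rw [hexp]
    refine Integrable.div_const ?_ D
    exact integrable_finsetSum _ fun s _ => integrable_finsetSum _ fun s' _ => honei s s'
  refine ⟨hii, ?_⟩
  have hI : ∫ x in Ioi (0 : ℝ), w x * CA T x = (∑ s ∈ S, ∑ s' ∈ S,
      (if 0 < s.im - s'.im then k s s' * g ((s.im - s'.im) * L / (2 * Real.pi)) else 0)) / D := by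
    simp_rw [hexp]
    rw [integral_div, integral_finsetSum S fun s _ => integrable_finsetSum S fun s' _ => honei s s']
    congr 1
    refine Finset.sum_congr rfl fun s _ => ?_
    rw [integral_finsetSum S fun s' _ => honei s s']
    exact Finset.sum_congr rfl fun s' _ => (one_pairG i0 heq hL (s.im - s'.im) (k s s')).2
  have hsymm : ∑ s ∈ S, ∑ s' ∈ S,
      (if s.im - s'.im < 0 then k s s' * g ((s.im - s'.im) * L / (2 * Real.pi)) else 0) =
      ∑ s ∈ S, ∑ s' ∈ S,
      (if 0 < s.im - s'.im then k s s' * g ((s.im - s'.im) * L / (2 * Real.pi))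
        else 0) := by
    rw [Finset.sum_comm]
    refine Finset.sum_congr rfl fun s _ => Finset.sum_congr rfl fun s' _ => ?_
    have e1 : g ((s'.im - s.im) * L / (2 * Real.pi)) =
        g ((s.im - s'.im) * L / (2 * Real.pi)) := by
      rw [← hgev, ← hgev ((s.im - s'.im) * L / (2 * Real.pi))]
      congr 1
      rw [← abs_neg]
      congr 1
      ring
    rw [e1, hksym s' s]
    by_cases h : 0 < s.im - s'.im
    · rw [if_pos h, if_pos (by linarith)]
    · rw [if_neg h, if_neg (by linarith)]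
  have hall : ∀ s s' : ℂ, k s s' * g ((s.im - s'.im) * L / (2 * Real.pi)) =
      (if s.im = s'.im then k s s' else 0) * g 0 +
      ((if 0 < s.im - s'.im then k s s' * g ((s.im - s'.im) * L / (2 * Real.pi)) else 0) +
      (if s.im - s'.im < 0 then k s s' * g ((s.im - s'.im) * L / (2 * Real.pi))
        else 0)) := by
    intro s s'
    rcases lt_trichotomy (s.im - s'.im) 0 with h | h | h
    · have hne : s.im ≠ s'.im := fun h2 => by linarith
      rw [if_neg hne, if_neg (by linarith), if_pos h]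
      ring
    · have h2 : s.im = s'.im := by linarith
      rw [if_pos h2, if_neg (by linarith), if_neg (by linarith), h, zero_mul, zero_div]
      ring
    · have hne : s.im ≠ s'.im := fun h2 => by linarith
      rw [if_neg hne, if_pos h, if_neg (by linarith)]
      ring
  have e0 : AT T (fun d => g (d * L / (2 * Real.pi))) =
      (∑ s ∈ S, ∑ s' ∈ S, k s s' * g ((s.im - s'.im) * L / (2 * Real.pi))) / D := rfl
  rw [e0, Finset.sum_congr rfl fun s _ => Finset.sum_congr rfl fun s' _ => hall s s']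
  simp_rw [Finset.sum_add_distrib]
  rw [hsymm, hI]
  have e2 : MA T * g 0 = (∑ s ∈ S, ∑ s' ∈ S, (if s.im = s'.im then k s s' else 0) * g 0) / D := by
    unfold MA PW
    rw [div_mul_eq_mul_div, Finset.sum_mul]
    congr 1
    refine Finset.sum_congr rfl fun s _ => ?_
    rw [Finset.sum_mul]
    refine Finset.sum_congr rfl fun s' _ => ?_
    simp only [hk]
    split_ifs <;> ring
  rw [e2, add_div, add_div]
  ring

/-- diagonal pairs -/
lemma AT_ge {T : ℝ} (hT : 1 < T) {f : ℝ → ℝ} (hf : ∀ d, 0 ≤ f d) : MA T * f 0 ≤ AT T f := by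
  classical
  have e : MA T * f 0 = PW T fun s s' => f 0 * (if s.im = s'.im then 1 else 0) := by
    rw [PW_mul]
    unfold MA
    ring
  rw [e, AT_PW]
  refine PW_mono hT fun s s' => ?_
  by_cases h : s.im = s'.im
  · rw [if_pos h, h, sub_self, mul_one]
  · rw [if_neg h, mul_zero]
    exact hf _

lemma AT_mono {T : ℝ} (hT : 1 < T) {f g : ℝ → ℝ} (h : ∀ d, f d ≤ g d) : AT T f ≤ AT T g :=
  PW_mono hT fun _ _ => h _

lemma AT_add (T : ℝ) (f g : ℝ → ℝ) : AT T (fun d => f d + g d) = AT T f + AT T g :=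
  PW_add T _ _

lemma AT_cmul (T c : ℝ) (f : ℝ → ℝ) : AT T (fun d => c * f d) = c * AT T f :=
  PW_mul T c _

end Pool.Agent.N804.PV
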