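import Pool.Agent.N804.PV.Av

set_option autoImplicit false

/-! # Bounds for the averaged sums over pairs -/

namespace Pool.Agent.N804.PV

open Filter Topology Set MeasureTheory
open H370 (Zf mult mem_Zf good_zeta zset NN NN_eq)
open Pool.Agent.N804

lemma XX_ratio {T V : ℝ} (hT : 1 < T) (h1 : T ≤ V) (h2 : V ≤ T ^ 2) :
    Real.log V ≤ 2 * Real.log T ∧ XX V ≤ 2 * (V / T) * XX T := by
  have hT0 : 0 < T := by linarith
  have hV0 : 0 < V := by linarith
  have hL := Real.log_pos hT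
  have h3 : Real.log V ≤ 2 * Real.log T := by
    have := Real.log_le_log hV0 h2
    rwa [Real.log_pow, Nat.cast_ofNat] at this
  refine ⟨h3, ?_⟩
  unfold XX
  have hpi := Real.pi_pos
  have e : 2 * (V / T) * (T * Real.log T / (2 * Real.pi)) = V * (2 * Real.log T) / (2 * Real.pi) := by
    field_simp
  rw [e]
  gcongr

/-- pairs inside a height, in terms of the full sum -/
lemma pair_le {T v : ℝ} (hT : 1 < T) (F : ℂ → ℂ → ℝ) (hF : ∀ s s', 0 ≤ F s s') :
    ∃ V : ℝ, T ≤ V ∧ V ≤ T ^ 2 ∧ V / T ≤ 1 + |v| ∧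
    ∑ i ∈ Zf riemannZeta 0 (T ^ 2) ×ˢ Zf riemannZeta 0 (T ^ 2),
      (if max i.1.im i.2.im / T ≤ v then F i.1 i.2 else 0) ≤
      ∑ s ∈ Zf riemannZeta 0 V, ∑ s' ∈ Zf riemannZeta 0 V, F s s' := by
  classical
  have hT0 : 0 < T := by linarith
  have hT2 : T ≤ T ^ 2 := by nlinarith
  refine ⟨max T (min (v * T) (T ^ 2)), le_max_left _ _, max_le hT2 (min_le_right _ _), ?_, ?_⟩
  · rw [div_le_iff₀ hT0]
    refine max_le ?_ ((min_le_left _ _).trans ?_)
    · nlinarith [abs_nonneg v]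
    · nlinarith [le_abs_self v]
  · rw [← Finset.sum_product', ← Finset.sum_filter]
    refine Finset.sum_le_sum_of_subset_of_nonneg ?_ fun i _ _ => hF _ _
    intro i hi
    rw [Finset.mem_filter, Finset.mem_product, mem_Z le_rfl, mem_Z le_rfl, div_le_iff₀ hT0] at hi
    obtain ⟨⟨⟨a1, a2, a3, a4, a5⟩, b1, b2, b3, b4, b5⟩, hm⟩ := hi
    have c1 := (le_max_left i.1.im i.2.im).trans hm
    have c2 := (le_max_right i.1.im i.2.im).trans hm
    rw [Finset.mem_product, mem_Z le_rfl, mem_Z le_rfl]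
    exact ⟨⟨a1, a2, a3, (le_min c1 a4).trans (le_max_right _ _), a5⟩,
      b1, b2, b3, (le_min c2 b4).trans (le_max_right _ _), b5⟩

lemma PW_prod (T : ℝ) (F : ℂ → ℂ → ℝ) : PW T F =
    1 / Real.pi * ∑ i ∈ Zf riemannZeta 0 (T ^ 2) ×ˢ Zf riemannZeta 0 (T ^ 2),
      ph (max i.1.im i.2.im / T) * ((mult riemannZeta i.1 : ℝ) * (mult riemannZeta i.2 : ℝ) *
        F i.1 i.2 / XX T) := by
  unfold PW
  rw [Finset.sum_product, Finset.mul_sum, Finset.sum_div]
  refine Finset.sum_congr rfl fun s _ => ?_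
  rw [Finset.mul_sum, Finset.sum_div]
  refine Finset.sum_congr rfl fun s' _ => ?_
  have := Real.pi_pos
  field_simp

lemma zpos {T : ℝ} {i : ℂ × ℂ} (hT : 0 < T)
    (hi : i ∈ Zf riemannZeta 0 (T ^ 2) ×ˢ Zf riemannZeta 0 (T ^ 2)) :
    0 < max i.1.im i.2.im / T := by
  rw [Finset.mem_product, mem_Z le_rfl] at hi
  exact div_pos (lt_of_lt_of_le hi.1.2.2.1 (le_max_left _ _)) hT

/-- general bound for the weighted sums -/
theorem PW_bd (hb : S_ABELB) : ∃ C : ℝ, 0 < C ∧ ∀ T : ℝ, 1 < T → ∀ (F : ℂ → ℂ → ℝ) (B : ℝ), 0 ≤ B →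
    (∀ s s', 0 ≤ F s s') →
    (∀ V : ℝ, T ≤ V → V ≤ T ^ 2 → ∑ s ∈ Zf riemannZeta 0 V, ∑ s' ∈ Zf riemannZeta 0 V,
      (mult riemannZeta s : ℝ) * (mult riemannZeta s' : ℝ) * F s s' ≤ B * (V / T) * XX T) →
    PW T F ≤ C * B ∧ (∀ v : ℝ, 0 < v →
      ∑ i ∈ Zf riemannZeta 0 (T ^ 2) ×ˢ Zf riemannZeta 0 (T ^ 2),
        (if max i.1.im i.2.im / T ≤ v then (mult riemannZeta i.1 : ℝ) * (mult riemannZeta i.2 : ℝ) *
          F i.1 i.2 / XX T else 0) ≤ B * (1 + v)) := by
  obtain ⟨C, hC, h⟩ := hb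
  have hpi := Real.pi_gt_three
  refine ⟨C * 2, by positivity, fun T hT F B hB hF hs => ?_⟩
  have hX := XX_pos hT
  have hT0 : 0 < T := by linarith
  have hbound : ∀ v : ℝ, 0 < v → ∑ i ∈ Zf riemannZeta 0 (T ^ 2) ×ˢ Zf riemannZeta 0 (T ^ 2),
      (if max i.1.im i.2.im / T ≤ v then (mult riemannZeta i.1 : ℝ) * (mult riemannZeta i.2 : ℝ) *
        F i.1 i.2 / XX T else 0) ≤ B * (1 + v) := by
    intro v hv
    obtain ⟨V, h1, h2, h3, h4⟩ := pair_le (v := v) hT (fun s s' => (mult riemannZeta s : ℝ) *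
      (mult riemannZeta s' : ℝ) * F s s' / XX T) (fun s s' => by
        have := hF s s'
        positivity)
    refine h4.trans ?_
    have h5 := hs V h1 h2
    have e : ∑ s ∈ Zf riemannZeta 0 V, ∑ s' ∈ Zf riemannZeta 0 V, (mult riemannZeta s : ℝ) *
        (mult riemannZeta s' : ℝ) * F s s' / XX T = (∑ s ∈ Zf riemannZeta 0 V,
        ∑ s' ∈ Zf riemannZeta 0 V, (mult riemannZeta s : ℝ) *
        (mult riemannZeta s' : ℝ) * F s s') / XX T := by
      rw [Finset.sum_div]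
      exact Finset.sum_congr rfl fun s _ => by rw [Finset.sum_div]
    rw [e, div_le_iff₀ hX]
    refine h5.trans ?_
    rw [abs_of_pos hv] at h3
    gcongr
  refine ⟨?_, hbound⟩
  have h1 := (h (ℂ × ℂ) (Zf riemannZeta 0 (T ^ 2) ×ˢ Zf riemannZeta 0 (T ^ 2))
    (fun i => max i.1.im i.2.im / T) (fun i => (mult riemannZeta i.1 : ℝ) *
      (mult riemannZeta i.2 : ℝ) * F i.1 i.2 / XX T) B hB (fun i hi => ⟨zpos hT0 hi, by
        have := hF i.1 i.2
        positivity⟩) hbound 1 one_pos).1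
  rw [PW_prod]
  simp only [div_one] at h1
  have h2 : 0 ≤ ∑ i ∈ Zf riemannZeta 0 (T ^ 2) ×ˢ Zf riemannZeta 0 (T ^ 2),
      ph (max i.1.im i.2.im / T) * ((mult riemannZeta i.1 : ℝ) * (mult riemannZeta i.2 : ℝ) *
        F i.1 i.2 / XX T) := Finset.sum_nonneg fun i _ => by
    have := hF i.1 i.2
    have := ph_nonneg (max i.1.im i.2.im / T)
    positivity
  have h3 : 1 / Real.pi ≤ 1 := by
    rw [div_le_one (by linarith)]
    linarith
  calc 1 / Real.pi * _ ≤ 1 * ∑ i ∈ Zf riemannZeta 0 (T ^ 2) ×ˢ Zf riemannZeta 0 (T ^ 2),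
      ph (max i.1.im i.2.im / T) * ((mult riemannZeta i.1 : ℝ) * (mult riemannZeta i.2 : ℝ) *
        F i.1 i.2 / XX T) := by gcongr
    _ ≤ C * B * (1 + 1) := by rw [one_mul]; exact h1
    _ = _ := by ring

/-- pairs up to the height `V` at the scale of `T` -/
lemma Pc_scale : ∃ B T0 : ℝ, 0 < B ∧ 10 ≤ T0 ∧ ∀ T : ℝ, T0 ≤ T → ∀ V : ℝ, T ≤ V → V ≤ T ^ 2 →
    Pe (Zf riemannZeta 0 V) ≤ B * (V / T) * XX T ∧ ∀ x : ℝ, 0 ≤ x →
      Pc (Zf riemannZeta 0 V) (2 * Real.pi * x / Real.log T) ≤ B * (1 + x) * (V / T) * XX T := by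
  obtain ⟨B, T0, hB, hT0, h⟩ := CF_bd
  refine ⟨4 * B, T0, by positivity, hT0, fun T hT V h1 h2 => ?_⟩
  have hT10 : 10 ≤ T := hT0.trans hT
  have hT1 : 1 < T := by linarith
  have hV1 : 1 < V := by linarith
  obtain ⟨r1, r2⟩ := XX_ratio hT1 h1 h2
  obtain ⟨g1, g2⟩ := h V (hT.trans h1)
  have hX := XX_pos hV1
  have hXT := XX_pos hT1
  have hL := Real.log_pos hT1
  have hLV := Real.log_pos hV1
  have hVT : 0 < V / T := by positivity
  constructor
  · unfold MF' at g1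
    rw [div_le_iff₀ hX] at g1
    calc Pe (Zf riemannZeta 0 V) ≤ B * XX V := g1
      _ ≤ B * (2 * (V / T) * XX T) := by gcongr
      _ ≤ 4 * B * (V / T) * XX T := by
        have : 0 ≤ B * (V / T) * XX T := by positivity
        nlinarith
  · intro x hx
    have g3 := (g2 (x * (Real.log V / Real.log T)) (by positivity)).2
    unfold CF at g3
    have e : 2 * Real.pi * (x * (Real.log V / Real.log T)) / Real.log V =
        2 * Real.pi * x / Real.log T := by field_simp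
    rw [e, div_le_iff₀ hX] at g3
    have r3 : Real.log V / Real.log T ≤ 2 := by
      rw [div_le_iff₀ hL]
      exact r1
    calc Pc (Zf riemannZeta 0 V) (2 * Real.pi * x / Real.log T) ≤
        B * (1 + x * (Real.log V / Real.log T)) * XX V := g3
      _ ≤ B * (1 + x * 2) * (2 * (V / T) * XX T) := by gcongr
      _ ≤ B * (2 * (1 + x)) * (2 * (V / T) * XX T) := by
        gcongr
        linarith
      _ = 4 * B * (1 + x) * (V / T) * XX T := by ring

lemma sum_Pc (S : Finset ℂ) (h : ℝ) : ∑ s ∈ S, ∑ s' ∈ S, (mult riemannZeta s : ℝ) *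
    (mult riemannZeta s' : ℝ) * (if 0 < s.im - s'.im ∧ s.im - s'.im ≤ h then 1 else 0) = Pc S h := by
  classical
  unfold Pc
  refine Finset.sum_congr rfl fun s _ => Finset.sum_congr rfl fun s' _ => ?_
  split_ifs <;> ring

lemma sum_Pe (S : Finset ℂ) : ∑ s ∈ S, ∑ s' ∈ S, (mult riemannZeta s : ℝ) *
    (mult riemannZeta s' : ℝ) * (if s.im = s'.im then 1 else 0) = Pe S := by
  classical
  unfold Pe
  refine Finset.sum_congr rfl fun s _ => Finset.sum_congr rfl fun s' _ => ?_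
  split_ifs <;> ring

/-- bounds for the averaged counting function -/
theorem CA_bd (hb : S_ABELB) : ∃ B T0 : ℝ, 0 < B ∧ 10 ≤ T0 ∧ ∀ T : ℝ, T0 ≤ T →
    MA T ≤ B ∧ ∀ x : ℝ, 0 ≤ x → 0 ≤ CA T x ∧ CA T x ≤ B * (1 + x) := by
  classical
  obtain ⟨C, hC, h⟩ := PW_bd hb
  obtain ⟨B, T0, hB, hT0, hp⟩ := Pc_scale
  refine ⟨C * B, T0, by positivity, hT0, fun T hT => ?_⟩
  have hT1 : 1 < T := by linarith
  constructor
  · refine (h T hT1 (fun s s' => if s.im = s'.im then 1 else 0) B hB.le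
      (fun s s' => by split_ifs <;> norm_num) fun V h1 h2 => ?_).1.trans le_rfl
    rw [sum_Pe]
    exact (hp T hT V h1 h2).1
  · intro x hx
    refine ⟨CA_nonneg hT1 x, ?_⟩
    have h3 := (h T hT1 (fun s s' => if 0 < s.im - s'.im ∧ s.im - s'.im ≤
      2 * Real.pi * x / Real.log T then 1 else 0) (B * (1 + x)) (by positivity)
      (fun s s' => by split_ifs <;> norm_num) fun V h1 h2 => by
        rw [sum_Pc]
        exact (hp T hT V h1 h2).2 x hx).1
    refine le_trans (le_of_eq ?_) (h3.trans (le_of_eq (by ring)))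
    unfold CA
    rfl

/-- the number of zeros -/
lemma nv {v : ℝ} (hv : 0 < v) : Tendsto (fun T => ms (Zf riemannZeta 0 (v * T)) / XX T) atTop (𝓝 v) := by
  obtain ⟨C, T0, hC, hT0, h⟩ := Pool.Agent.W54.TCF.NT_asymp
  have hpi := Real.pi_pos
  have hlog := Real.tendsto_log_atTop
  have e1 : Tendsto (fun T : ℝ => v + v * Real.log v / Real.log T) atTop (𝓝 (v + 0)) := by
    refine tendsto_const_nhds.add ?_
    exact tendsto_const_nhds.div_atTop hlog
  have e2 : Tendsto (fun T : ℝ => 2 * Real.pi * C * v / Real.log T) atTop (𝓝 0) :=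
    tendsto_const_nhds.div_atTop hlog
  rw [add_zero] at e1
  have e3 : Tendsto (fun T => ms (Zf riemannZeta 0 (v * T)) / XX T - (v + v * Real.log v / Real.log T))
      atTop (𝓝 0) := by
    refine squeeze_zero_norm' ?_ e2
    filter_upwards [eventually_gt_atTop 1, eventually_ge_atTop (T0 / v)] with T h1 h2
    have hT0' : 0 < T := by linarith
    have hL := Real.log_pos h1
    rw [div_le_iff₀ hv] at h2
    have h3 := h (v * T) (by linarith)
    have hX := XX_pos h1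
    have hXe : XX T * (v + v * Real.log v / Real.log T) =
        v * T * Real.log (v * T) / (2 * Real.pi) := by
      rw [Real.log_mul hv.ne' hT0'.ne']
      unfold XX
      field_simp
      ring
    rw [Real.norm_eq_abs]
    have e4 : ms (Zf riemannZeta 0 (v * T)) / XX T - (v + v * Real.log v / Real.log T) =
        (ms (Zf riemannZeta 0 (v * T)) - v * T * Real.log (v * T) / (2 * Real.pi)) / XX T := by
      rw [← hXe]
      field_simp
    rw [e4, abs_div, abs_of_pos hX, ms_eq le_rfl, div_le_iff₀ hX]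
    refine h3.trans (le_of_eq ?_)
    unfold XX
    field_simp
  have := e3.add e1
  rw [zero_add] at this
  refine this.congr fun T => ?_
  ring

end Pool.Agent.N804.PV
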