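import Pool.Agent.N804.PV.AvB
import Pool.Agent.N804.Glue
import Pool.Agent.N799.LW.Count

set_option autoImplicit false

/-! # The averaged mean multiplicity is at least one -/

namespace Pool.Agent.N804.PV

open Filter Topology Set MeasureTheory
open H370 (Zf mult mem_Zf good_zeta zset NN NN_eq)
open Pool.Agent.N804

lemma mult_ge {s : ℂ} {T : ℝ} (hs : s ∈ Zf riemannZeta 0 T) : 1 ≤ (mult riemannZeta s : ℝ) := by
  have h := (mem_ZT).1 hs
  have := Pool.Agent.N799.LW.order_ge h.1.1
  exact_mod_cast this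

theorem MA_ge (ha : S_ABEL) {ε : ℝ} (hε : 0 < ε) : ∀ᶠ T in atTop, 1 - ε ≤ MA T := by
  classical
  have hpi := Real.pi_pos
  obtain ⟨C, T0, hC, hT0, hN⟩ := Pool.Agent.W54.TCF.NT_asymp
  have hsum : ∀ T v : ℝ, 1 < T → 0 < v → v ≤ T →
      ∑ s ∈ Zf riemannZeta 0 (T ^ 2), (if s.im / T ≤ v then (mult riemannZeta s : ℝ) / XX T else 0) =
        ms (Zf riemannZeta 0 (v * T)) / XX T := by
    intro T v hT hv hvT
    have hT0 : 0 < T := by linarith
    rw [← Finset.sum_filter]
    unfold ms
    rw [Finset.sum_div]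
    refine Finset.sum_congr ?_ fun _ _ => rfl
    ext s
    rw [Finset.mem_filter, mem_Z le_rfl, mem_Z le_rfl, div_le_iff₀ hT0]
    constructor
    · rintro ⟨⟨a1, a2, a3, a4, a5⟩, h⟩
      exact ⟨a1, a2, a3, h, a5⟩
    · rintro ⟨a1, a2, a3, a4, a5⟩
      exact ⟨⟨a1, a2, a3, by nlinarith, a5⟩, a4⟩
  -- the bound
  obtain ⟨B, T1, hB, hT1, hcount⟩ : ∃ B T1 : ℝ, 0 < B ∧ 10 ≤ T1 ∧ ∀ T : ℝ, T1 ≤ T → ∀ V : ℝ,
      T ≤ V → V ≤ T ^ 2 → ms (Zf riemannZeta 0 V) ≤ B * (V / T) * XX T := by
    refine ⟨2 + 2 * Real.pi * C, max T0 (Real.exp 1), by positivity, le_max_of_le_left hT0,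
      fun T hT V h1 h2 => ?_⟩
    have g1 : T0 ≤ T := (le_max_left _ _).trans hT
    have g2 : Real.exp 1 ≤ T := (le_max_right _ _).trans hT
    have hT10 : 10 ≤ T := hT0.trans g1
    have hL1 : 1 ≤ Real.log T := by
      have := Real.log_le_log (Real.exp_pos 1) g2
      rwa [Real.log_exp] at this
    obtain ⟨r1, r2⟩ := XX_ratio (show 1 < T by linarith) h1 h2
    have h3 := (abs_le.1 (hN V (g1.trans h1))).2
    rw [ms_eq le_rfl]
    have h4 : C * V ≤ 2 * Real.pi * C * (V / T) * XX T := by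
      unfold XX
      have e : 2 * Real.pi * C * (V / T) * (T * Real.log T / (2 * Real.pi)) = C * V * Real.log T := by
        field_simp
      rw [e]
      have : 0 ≤ C * V := by nlinarith
      nlinarith
    have h5 : V * Real.log V / (2 * Real.pi) = XX V := rfl
    rw [h5] at h3
    nlinarith
  have key := ha ℂ 1 B T1 (fun T => Zf riemannZeta 0 (T ^ 2)) (fun T s => s.im / T)
    (fun T s => (mult riemannZeta s : ℝ) / XX T) (fun T s => (mult riemannZeta s : ℝ) / XX T) ?_ ?_ ?_
  · -- conclusion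
    have h1 : Tendsto (fun T => 1 / Real.pi * ∑ s ∈ Zf riemannZeta 0 (T ^ 2),
        ph (s.im / T) * ((mult riemannZeta s : ℝ) / XX T)) atTop (𝓝 (1 / Real.pi * (Real.pi * 1))) :=
      key.const_mul _
    have e : 1 / Real.pi * (Real.pi * 1) = 1 := by field_simp
    rw [e] at h1
    filter_upwards [h1.eventually (lt_mem_nhds (show 1 - ε < 1 by linarith)), eventually_gt_atTop 1]
      with T h2 hT
    refine h2.le.trans ?_
    have hX := XX_pos hT
    unfold MA PW
    rw [Finset.mul_sum, Finset.sum_div]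
    refine Finset.sum_le_sum fun s hs => ?_
    rw [Finset.sum_div]
    have h3 : ∀ s' ∈ Zf riemannZeta 0 (T ^ 2), 0 ≤ (mult riemannZeta s : ℝ) *
        (mult riemannZeta s' : ℝ) * ph (max s.im s'.im / T) *
          (if s.im = s'.im then 1 else 0) / (Real.pi * XX T) := by
      intro s' _
      have := ph_nonneg (max s.im s'.im / T)
      split_ifs <;> positivity
    refine le_trans ?_ (Finset.single_le_sum h3 hs)
    rw [if_pos rfl, max_self, mul_one]
    have h4 := mult_ge hs
    have h5 := ph_nonneg (s.im / T)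
    have e2 : 1 / Real.pi * (ph (s.im / T) * ((mult riemannZeta s : ℝ) / XX T)) =
        (mult riemannZeta s : ℝ) * ph (s.im / T) / (Real.pi * XX T) := by
      field_simp
    rw [e2]
    gcongr
    nlinarith
  · intro T hT s hs
    have hT1' : 1 < T := by linarith
    have hX := XX_pos hT1'
    rw [mem_Z le_rfl] at hs
    refine ⟨div_pos hs.2.2.1 (by linarith), le_of_eq ?_⟩
    exact abs_of_nonneg (by positivity)
  · intro T hT v hv
    have hT10 : 10 ≤ T := hT1.trans hT
    have hT0' : 0 < T := by linarith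
    have hX := XX_pos (show 1 < T by linarith)
    set V : ℝ := max T (min (v * T) (T ^ 2)) with hV
    have hT2 : T ≤ T ^ 2 := by nlinarith
    have h1 : T ≤ V := le_max_left _ _
    have h2 : V ≤ T ^ 2 := max_le hT2 (min_le_right _ _)
    have h3 : V / T ≤ 1 + v := by
      rw [div_le_iff₀ hT0']
      refine max_le ?_ ((min_le_left _ _).trans ?_)
      · nlinarith
      · nlinarith
    have h4 : ∑ s ∈ Zf riemannZeta 0 (T ^ 2), (if s.im / T ≤ v then
        (mult riemannZeta s : ℝ) / XX T else 0) ≤ ms (Zf riemannZeta 0 V) / XX T := by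
      rw [← Finset.sum_filter]
      unfold ms
      rw [Finset.sum_div]
      refine Finset.sum_le_sum_of_subset_of_nonneg ?_ fun s _ _ => by positivity
      intro s hs
      rw [Finset.mem_filter, mem_Z le_rfl, div_le_iff₀ hT0'] at hs
      obtain ⟨⟨a1, a2, a3, a4, a5⟩, hm⟩ := hs
      rw [mem_Z le_rfl]
      exact ⟨a1, a2, a3, (le_min hm a4).trans (le_max_right _ _), a5⟩
    refine h4.trans ?_
    rw [div_le_iff₀ hX]
    refine (hcount T hT V h1 h2).trans ?_
    gcongr
  · intro v hv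
    rw [mul_one]
    refine (nv hv).congr' ?_
    filter_upwards [eventually_gt_atTop 1, eventually_ge_atTop v] with T h1 h2
    exact (hsum T v h1 hv h2).symm

end Pool.Agent.N804.PV
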