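import Pool.Agent.N804.PV.DefW
import Pool.Agent.N804.PV.Av
import Pool.Agent.N804.Abs2

set_option autoImplicit false

/-! # Project PW: statements about the zeros -/

namespace Pool.Agent.N804.PV

open Filter Topology Set MeasureTheory
open Pool.Agent.N804

/-- PW4: measurability in the height -/
def S_W4 : Prop := ∀ r : ℝ → ℝ, SC r → ∀ M : ℝ,
  IntegrableOn (fun T => AT T (sc r T)) (Icc 2 M) ∧ IntegrableOn MA (Icc 2 M) ∧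
    IntegrableOn (fun T => ∫ α : ℝ, r α * uT T α) (Icc 2 M)

/-- abstract one-sided functionals -/
structure FN (D : (ℝ → ℝ) → ℝ) (μ δ : ℝ) : Prop where
  add : ∀ r s : ℝ → ℝ, SC r → SC s → D (fun α => r α + s α) = D r + D s
  mul : ∀ (c : ℝ) (r : ℝ → ℝ), SC r → D (fun α => c * r α) = c * D r
  neg : ∀ r : ℝ → ℝ, SC r → D (fun α => r (-α)) = D r
  nn : ∀ r : ℝ → ℝ, SC r → (∀ α, 0 ≤ r α) → 0 ≤ mg r + 2 * D r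
  band : ∀ r : ℝ → ℝ, SC r → (∃ κ : ℝ, κ < 1 ∧ ∀ α, κ < |α| → r α = 0) → D r = 0
  win : ∀ ρ : ℝ → ℝ, SC ρ → (∀ s, 0 ≤ ρ s) → (∃ a : ℝ, 0 < a ∧ ∀ s, s < a → ρ s = 0) →
    D (Wn (-δ) 0 ρ) ≤ 0
  low : ∀ g : ℝ → ℝ, SC g → (∀ u, 0 ≤ CT g u) → ∃ C : ℝ, 0 < C ∧ ∀ L : ℝ, 1 ≤ L →
    (μ - 1) * L * CT g 0 - C / L ≤ 2 * D (RL g δ L)
  mu : 1 ≤ μ

/-- the abstract theorem -/
def S_FN : Prop := ∀ (D : (ℝ → ℝ) → ℝ) (μ δ : ℝ), 0 < δ → δ < 1 → FN D μ δ →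
  ∀ r : ℝ → ℝ, SC r → D r = 0

end Pool.Agent.N804.PV
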