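import Pool.Agent.N804.PV.En
import Pool.Agent.N804.PV.StmW

set_option autoImplicit false

/-! # Averages over the heights -/

namespace Pool.Agent.N804.PV

open Filter Topology Set MeasureTheory
open Pool.Agent.N804

/-- averages over the heights -/
noncomputable def av (f : ℝ → ℝ) (T : ℝ) : ℝ := 1 / T * ∫ t in (2 : ℝ)..T, f t

/-- local integrability on `[2, ∞)` -/
def LI (f : ℝ → ℝ) : Prop := ∀ M : ℝ, IntegrableOn f (Icc 2 M)

lemma LI.ii {f : ℝ → ℝ} (h : LI f) {a b : ℝ} (ha : 2 ≤ a) (hb : 2 ≤ b) :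
    IntervalIntegrable f volume a b := by
  rw [intervalIntegrable_iff]
  refine (h (max a b)).mono_set ?_
  intro x hx
  rw [uIoc, mem_Ioc] at hx
  exact ⟨(le_min ha hb).trans hx.1.le, hx.2⟩

lemma LI.add {f g : ℝ → ℝ} (h : LI f) (h' : LI g) : LI fun t => f t + g t :=
  fun M => (h M).add (h' M)

lemma LI.sub {f g : ℝ → ℝ} (h : LI f) (h' : LI g) : LI fun t => f t - g t :=
  fun M => (h M).sub (h' M)

lemma LI.neg {f : ℝ → ℝ} (h : LI f) : LI fun t => -f t := fun M => (h M).neg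

lemma av_add {f g : ℝ → ℝ} (hf : LI f) (hg : LI g) {T : ℝ} (hT : 2 ≤ T) :
    av (fun t => f t + g t) T = av f T + av g T := by
  unfold av
  rw [intervalIntegral.integral_add (hf.ii le_rfl hT) (hg.ii le_rfl hT)]
  ring

lemma av_sub {f g : ℝ → ℝ} (hf : LI f) (hg : LI g) {T : ℝ} (hT : 2 ≤ T) :
    av (fun t => f t - g t) T = av f T - av g T := by
  unfold av
  rw [intervalIntegral.integral_sub (hf.ii le_rfl hT) (hg.ii le_rfl hT)]
  ring

lemma av_cmul (c : ℝ) (f : ℝ → ℝ) (T : ℝ) : av (fun t => c * f t) T = c * av f T := by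
  unfold av
  rw [intervalIntegral.integral_const_mul]
  ring

lemma av_neg (f : ℝ → ℝ) (T : ℝ) : av (fun t => -f t) T = -av f T := by
  unfold av
  rw [intervalIntegral.integral_neg]
  ring

lemma av_ge {f : ℝ → ℝ} (hf : LI f) {c : ℝ} (h : ∀ ε : ℝ, 0 < ε → ∀ᶠ t in atTop, c - ε ≤ f t)
    {ε : ℝ} (hε : 0 < ε) : ∀ᶠ T in atTop, c - ε ≤ av f T := by
  obtain ⟨T1, hT1⟩ := eventually_atTop.1 (h (ε / 2) (by positivity))
  set T2 : ℝ := max T1 2 with hT2
  have h22 : 2 ≤ T2 := le_max_right _ _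
  set K : ℝ := ∫ t in (2 : ℝ)..T2, f t with hK
  have hlim : Tendsto (fun T : ℝ => (c - ε / 2) + (K - (c - ε / 2) * T2) / T) atTop
      (𝓝 ((c - ε / 2) + 0)) := tendsto_const_nhds.add (tendsto_const_nhds.div_atTop tendsto_id)
  filter_upwards [hlim.eventually (lt_mem_nhds (show c - ε < c - ε / 2 + 0 by linarith)),
    eventually_ge_atTop T2] with T h1 h2
  have hT0 : 0 < T := by linarith
  have h3 : (c - ε / 2) * (T - T2) ≤ ∫ t in T2..T, f t := by
    have := intervalIntegral.integral_mono_on h2 (intervalIntegrable_const (c := c - ε / 2)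
      (μ := volume)) (hf.ii h22 (h22.trans h2)) fun t ht => hT1 t ((le_max_left _ _).trans ht.1)
    rw [intervalIntegral.integral_const, smul_eq_mul] at this
    linarith
  have h4 : ∫ t in (2 : ℝ)..T, f t = K + ∫ t in T2..T, f t :=
    (intervalIntegral.integral_add_adjacent_intervals (hf.ii le_rfl h22)
      (hf.ii h22 (h22.trans h2))).symm
  unfold av
  rw [h4]
  have h5 : c - ε / 2 + (K - (c - ε / 2) * T2) / T ≤ 1 / T * (K + ∫ t in T2..T, f t) := by
    rw [one_div, inv_mul_eq_div, le_div_iff₀ hT0, add_mul, div_mul_cancel₀ _ hT0.ne']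
    linarith
  linarith

lemma av_lim {f : ℝ → ℝ} (hf : LI f) {l : ℝ} (h : Tendsto f atTop (𝓝 l)) :
    Tendsto (av f) atTop (𝓝 l) := by
  refine tendsto_order.2 ⟨fun y hy => ?_, fun y hy => ?_⟩
  · have h1 := av_ge hf (c := l) (fun ε hε => (h.eventually (lt_mem_nhds
      (show l - ε < l by linarith))).mono fun t ht => ht.le) (ε := (l - y) / 2) (by linarith)
    filter_upwards [h1] with T hT
    linarith
  · have h1 := av_ge hf.neg (c := -l) (fun ε hε => (h.neg.eventually (lt_mem_nhds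
      (show -l - ε < -l by linarith))).mono fun t ht => ht.le) (ε := (y - l) / 2) (by linarith)
    filter_upwards [h1] with T hT
    rw [av_neg] at hT
    linarith

lemma av_bdd {f : ℝ → ℝ} (hf : LI f) {C : ℝ} (h : ∀ᶠ t in atTop, |f t| ≤ C) :
    ∀ᶠ T in atTop, |av f T| ≤ C + 1 := by
  have h1 := av_ge hf (c := -C) (fun ε hε => h.mono fun t ht => by
    linarith [(abs_le.1 ht).1]) one_pos
  have h2 := av_ge hf.neg (c := -C) (fun ε hε => h.mono fun t ht => by
    linarith [(abs_le.1 ht).2]) one_pos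
  filter_upwards [h1, h2] with T a1 a2
  rw [av_neg] at a2
  rw [abs_le]
  constructor <;> linarith

/-- limits along ultrafilters -/
lemma ulim (U : Ultrafilter ℝ) {F : ℝ → ℝ} {C : ℝ} (h : ∀ᶠ T in (U : Filter ℝ), |F T| ≤ C) :
    ∃ l, Tendsto F (U : Filter ℝ) (𝓝 l) := by
  have h1 : ((U.map F : Ultrafilter ℝ) : Filter ℝ) ≤ 𝓟 (Icc (-C) C) := by
    rw [le_principal_iff, Ultrafilter.coe_map, mem_map]
    filter_upwards [h] with T hT
    exact abs_le.1 hT
  obtain ⟨x, -, hx⟩ := isCompact_Icc.ultrafilter_le_nhds _ h1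
  exact ⟨x, hx⟩

/-- the sums over pairs -/
noncomputable def aA (r : ℝ → ℝ) (t : ℝ) : ℝ := AT t (sc r t)

lemma sc_add {r s : ℝ → ℝ} (H : SC r) (H' : SC s) (T d : ℝ) :
    sc (fun α => r α + s α) T d = sc r T d + sc s T d := by
  unfold sc CT
  rw [← integral_add (H.int_cos _) (H'.int_cos _)]
  congr 1
  funext α
  ring

lemma sc_mul (c : ℝ) (r : ℝ → ℝ) (T d : ℝ) : sc (fun α => c * r α) T d = c * sc r T d := by
  unfold sc CT
  rw [← integral_const_mul]
  congr 1
  funext α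
  ring

lemma sc_neg (r : ℝ → ℝ) (T d : ℝ) : sc (fun α => r (-α)) T d = sc r T d := by
  unfold sc CT
  rw [← integral_neg_eq_self]
  congr 1
  funext α
  beta_reduce
  rw [neg_neg]
  congr 1
  rw [show 2 * Real.pi * -α * (d * Real.log T / (2 * Real.pi)) =
    -(2 * Real.pi * α * (d * Real.log T / (2 * Real.pi))) by ring, Real.cos_neg]

lemma aA_add {r s : ℝ → ℝ} (H : SC r) (H' : SC s) (t : ℝ) :
    aA (fun α => r α + s α) t = aA r t + aA s t := by
  unfold aA
  rw [← AT_add]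
  congr 1
  funext d
  exact sc_add H H' t d

lemma aA_mul (c : ℝ) (r : ℝ → ℝ) (t : ℝ) : aA (fun α => c * r α) t = c * aA r t := by
  unfold aA
  rw [← AT_cmul]
  congr 1
  funext d
  exact sc_mul c r t d

lemma aA_neg (r : ℝ → ℝ) (t : ℝ) : aA (fun α => r (-α)) t = aA r t := by
  unfold aA
  congr 1
  funext d
  exact sc_neg r t d

lemma aA_bd (hk : S_AKB) {r : ℝ → ℝ} (Hr : SC r) : ∃ C : ℝ, ∀ᶠ t in atTop, |aA r t| ≤ C := by
  obtain ⟨B, T0, hB, hkb⟩ := hk
  obtain ⟨A, hA0, hA⟩ := CT_decp Hr 2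
  have hle : ∀ t d : ℝ, |sc r t d| ≤ A * kr t d := by
    intro t d
    unfold sc kr
    set u : ℝ := d * Real.log t / (2 * Real.pi)
    rw [mul_one_div, le_div_iff₀ (by positivity)]
    refine le_trans ?_ (hA u)
    rw [mul_comm]
    have h1 : 1 + u ^ 2 ≤ (1 + |u|) ^ 2 := by
      rw [← sq_abs u]
      nlinarith [abs_nonneg u]
    gcongr
  refine ⟨A * B, ?_⟩
  filter_upwards [eventually_ge_atTop T0, eventually_ge_atTop 2] with t h1 h2
  have ht : 1 < t := by linarith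
  have h3 : AT t (fun d => A * kr t d) ≤ A * B := by
    rw [AT_cmul]
    have := hkb t h1
    gcongr
  have h4 : AT t (sc r t) ≤ AT t (fun d => A * kr t d) :=
    AT_mono ht fun d => (le_abs_self _).trans (hle t d)
  have h5 : AT t (fun d => -1 * sc r t d) ≤ AT t (fun d => A * kr t d) :=
    AT_mono ht fun d => by
      have := hle t d
      have := neg_abs_le (sc r t d)
      linarith
  rw [AT_cmul] at h5
  unfold aA
  rw [abs_le]
  constructor <;> linarith

/-- the limit of the averages along an ultrafilter -/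
noncomputable def DU (U : Ultrafilter ℝ) (r : ℝ → ℝ) : ℝ :=
  (limUnder (U : Filter ℝ) (av (aA r)) - mg r) / 2

/-- the limit of the averaged number of pairs of equal ordinates -/
noncomputable def mU (U : Ultrafilter ℝ) : ℝ := limUnder (U : Filter ℝ) (av MA)

lemma LI_aA (h4 : S_W4) {r : ℝ → ℝ} (Hr : SC r) : LI (aA r) := fun M => (h4 r Hr M).1

lemma LI_MA (h4 : S_W4) : LI MA := fun M => (h4 (B2 1 one_pos) (B2_SC one_pos) M).2.1

lemma DU_lim (hk : S_AKB) (h4 : S_W4) {U : Ultrafilter ℝ} (hU : (U : Filter ℝ) ≤ atTop)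
    {r : ℝ → ℝ} (Hr : SC r) : Tendsto (av (aA r)) (U : Filter ℝ) (𝓝 (mg r + 2 * DU U r)) := by
  obtain ⟨C, hC⟩ := aA_bd hk Hr
  have h1 := hU (av_bdd (LI_aA h4 Hr) hC)
  obtain ⟨l, hl⟩ := ulim U h1
  have e : mg r + 2 * DU U r = l := by
    unfold DU
    rw [hl.limUnder_eq]
    ring
  rw [e]
  exact hl

lemma mU_lim (hb : S_ABELB) (h4 : S_W4) {U : Ultrafilter ℝ} (hU : (U : Filter ℝ) ≤ atTop) :
    Tendsto (av MA) (U : Filter ℝ) (𝓝 (mU U)) := by
  obtain ⟨B, T0, hB, hT0, hp⟩ := CA_bd hb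
  have hC : ∀ᶠ t in atTop, |MA t| ≤ B := by
    filter_upwards [eventually_ge_atTop T0] with t ht
    rw [abs_of_nonneg (MA_nonneg (by linarith))]
    exact (hp t ht).1
  have h1 := hU (av_bdd (LI_MA h4) hC)
  obtain ⟨l, hl⟩ := ulim U h1
  have e : mU U = l := hl.limUnder_eq
  rw [e]
  exact hl

/-- lower bounds at every height -/
theorem RL_ev (I : Inp) {g : ℝ → ℝ} (Hg : SC g) (hg : ∀ u, 0 ≤ CT g u) {δ : ℝ} (hδ : 0 < δ)
    (hδ1 : δ < 1) : ∃ C : ℝ, 0 < C ∧ ∀ L : ℝ, 1 ≤ L → ∀ ε : ℝ, 0 < ε → ∀ᶠ T in atTop,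
      mg (RL g δ L) + (MA T - 1) * L * CT g 0 - C / L - ε ≤ aA (RL g δ L) T := by
  obtain ⟨C, hC, hlow⟩ := RL_lower' I.hb I.hk Hg hg hδ hδ1
  refine ⟨C, hC, fun L hL ε hε => ?_⟩
  have hL0 : 0 < L := by linarith
  by_contra hcon
  rw [not_eventually] at hcon
  obtain ⟨T, hT, hlt⟩ := frequently_iff_seq_forall.1 hcon
  obtain ⟨ψ, hψ, Φ, μ, h⟩ := extractA I.ha I.hb hT
  have h1 := h.pair I.hb (RL_SC Hg δ hL0)
  have h2 : Tendsto (fun k => mg (RL g δ L) + (MA (T (ψ k)) - 1) * L * CT g 0 - C / L - ε) atTop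
      (𝓝 (mg (RL g δ L) + (μ - 1) * L * CT g 0 - C / L - ε)) :=
    (((((h.hm.sub_const 1).mul_const L).mul_const (CT g 0)).const_add _).sub_const _).sub_const _
  have h3 := le_of_tendsto_of_tendsto' h1 h2 fun k => (not_le.1 (hlt (ψ k))).le
  have h4 := hlow _ Φ μ h L hL
  linarith

lemma tendsto_lim {U : Ultrafilter ℝ} {F : ℝ → ℝ} {l : ℝ} (h : Tendsto F (U : Filter ℝ) (𝓝 l)) :
    limUnder (U : Filter ℝ) F = l := h.limUnder_eq

/-- **the functional of the averages** -/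
theorem fn (I : Inp) (h4 : S_W4) (RH : RiemannHypothesis) {U : Ultrafilter ℝ}
    (hU : (U : Filter ℝ) ≤ atTop) {δ : ℝ} (hδ : 0 < δ) (hδ1 : δ < 1)
    (hwin : ∀ ρ : ℝ → ℝ, SC ρ → (∀ s, 0 ≤ ρ s) → (∃ a : ℝ, 0 < a ∧ ∀ s, s < a → ρ s = 0) →
      DU U (Wn (-δ) 0 ρ) ≤ 0) : FN (DU U) (mU U) δ := by
  have hev : ∀ᶠ T : ℝ in (U : Filter ℝ), 2 ≤ T := hU (eventually_ge_atTop 2)
  refine ⟨fun r s Hr Hs => ?_, fun c r Hr => ?_, fun r Hr => ?_, fun r Hr hr => ?_,
    fun r Hr hs => ?_, hwin, fun g Hg hg => ?_, ?_⟩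
  · have h1 := (DU_lim I.hk h4 hU Hr).add (DU_lim I.hk h4 hU Hs)
    have h2 := DU_lim I.hk h4 hU (Hr.add Hs)
    have h3 : Tendsto (av (aA fun α => r α + s α)) (U : Filter ℝ)
        (𝓝 ((mg r + 2 * DU U r) + (mg s + 2 * DU U s))) := by
      refine h1.congr' ?_
      filter_upwards [hev] with T hT
      rw [← av_add (LI_aA h4 Hr) (LI_aA h4 Hs) hT]
      congr 1
      funext t
      exact (aA_add Hr Hs t).symm
    have h5 := tendsto_nhds_unique h2 h3
    rw [mg_add Hr Hs] at h5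
    linarith
  · have h1 := (DU_lim I.hk h4 hU Hr).const_mul c
    have h2 := DU_lim I.hk h4 hU (Hr.cmul c)
    have h3 : Tendsto (av (aA fun α => c * r α)) (U : Filter ℝ) (𝓝 (c * (mg r + 2 * DU U r))) := by
      refine h1.congr' ?_
      filter_upwards [hev] with T hT
      rw [← av_cmul]
      congr 1
      funext t
      exact (aA_mul c r t).symm
    have h5 := tendsto_nhds_unique h2 h3
    rw [mg_mul] at h5
    linarith
  · have h1 := DU_lim I.hk h4 hU Hr
    have h2 := DU_lim I.hk h4 hU Hr.refl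
    have e : aA (fun α => r (-α)) = aA r := by
      funext t
      exact aA_neg r t
    rw [e] at h2
    have h5 := tendsto_nhds_unique h2 h1
    have hmgn : mg (fun α => r (-α)) = mg r := by
      unfold mg
      beta_reduce
      rw [neg_zero]
      congr 1
      rw [← integral_neg_eq_self]
      congr 1
      funext α
      rw [abs_neg, neg_neg]
    rw [hmgn] at h5
    linarith
  · have h1 : ∀ ε : ℝ, 0 < ε → ∀ᶠ t in atTop, 0 - ε ≤ aA r t := by
      intro η hη
      obtain ⟨T0, hT0⟩ := I.h3 RH r Hr η hη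
      filter_upwards [eventually_ge_atTop T0, eventually_ge_atTop 2] with T hk hk2
      have hTk : 0 < T := by linarith
      have h5 := hT0 T hk (1 / T ^ 3) (by positivity) le_rfl (T ^ 2) le_rfl
      have h6 : 0 ≤ T / Real.log T ^ 2 *
          (∫ y : ℝ, r (y / Real.log T) * ZN T (1 / T ^ 3) (T ^ 2) y ^ 2) :=
        mul_nonneg (by positivity) (integral_nonneg fun y => mul_nonneg (hr _) (sq_nonneg _))
      unfold aA
      linarith [(abs_le.1 h5).2]
    refine le_of_forall_pos_le_add fun ε hε => ?_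
    have h2 := hU (av_ge (LI_aA h4 Hr) h1 hε)
    have h3 : 0 - ε ≤ mg r + 2 * DU U r := ge_of_tendsto (DU_lim I.hk h4 hU Hr) h2
    linarith
  · have h1 : Tendsto (aA r) atTop (𝓝 (mg r)) := I.hav r Hr _ (I.hmo RH r Hr hs)
    have h2 := (av_lim (LI_aA h4 Hr) h1).mono_left hU
    have h3 := tendsto_nhds_unique h2 (DU_lim I.hk h4 hU Hr)
    linarith
  · obtain ⟨C, hC, hlow⟩ := RL_ev I Hg hg hδ hδ1
    refine ⟨C, hC, fun L hL => ?_⟩
    have hL0 : 0 < L := by linarith
    have HR := RL_SC Hg δ hL0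
    have hcg := hg 0
    -- the difference
    set F : ℝ → ℝ := fun t => aA (RL g δ L) t - L * CT g 0 * MA t with hF
    have hFi : LI F := (LI_aA h4 HR).sub fun M => (LI_MA h4 M).const_mul _
    have h1 : ∀ ε : ℝ, 0 < ε → ∀ᶠ t in atTop,
        (mg (RL g δ L) - L * CT g 0 - C / L) - ε ≤ F t := by
      intro ε hε
      filter_upwards [hlow L hL ε hε] with t ht
      simp only [hF]
      have e : (MA t - 1) * L * CT g 0 = L * CT g 0 * MA t - L * CT g 0 := by ring
      rw [e] at ht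
      linarith
    have hlim : Tendsto (av F) (U : Filter ℝ)
        (𝓝 ((mg (RL g δ L) + 2 * DU U (RL g δ L)) - L * CT g 0 * mU U)) := by
      have h2 := (DU_lim I.hk h4 hU HR).sub ((mU_lim I.hb h4 hU).const_mul (L * CT g 0))
      refine h2.congr' ?_
      filter_upwards [hev] with T hT
      rw [← av_cmul, ← av_sub (LI_aA h4 HR) (fun M => (LI_MA h4 M).const_mul _) hT]
    have h3 : mg (RL g δ L) - L * CT g 0 - C / L ≤
        (mg (RL g δ L) + 2 * DU U (RL g δ L)) - L * CT g 0 * mU U := by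
      refine le_of_forall_pos_le_add fun ε hε => ?_
      have h5 := ge_of_tendsto hlim (hU (av_ge hFi h1 hε))
      linarith
    have e : (mU U - 1) * L * CT g 0 = L * CT g 0 * mU U - L * CT g 0 := by ring
    rw [e]
    linarith
  · refine le_of_forall_pos_le_add fun ε hε => ?_
    have h1 := ge_of_tendsto (mU_lim I.hb h4 hU) (hU (av_ge (LI_MA h4) (c := 1)
      (fun ε hε => MA_ge I.ha hε) hε))
    linarith

end Pool.Agent.N804.PV
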