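import Pool.Agent.N804.PV.DefW

set_option autoImplicit false

/-! # Centred intervals -/

namespace Pool.Agent.N804.PV

open Filter Topology Set MeasureTheory

/-- the sum of `Λ(n)` over `n ≥ 1` with `x - H / 2 ≤ n ≤ x + H / 2` -/
noncomputable def psiC (x H : ℝ) : ℝ :=
  ∑ n ∈ Finset.Icc ⌈x - H / 2⌉₊ ⌊x + H / 2⌋₊, ArithmeticFunction.vonMangoldt n

lemma psiC_eq {x H : ℝ} (hx : H / 2 ≤ x) (hH : 0 ≤ H) (hn : ∀ n : ℕ, x - H / 2 ≠ n) :
    psiC x H = Chebyshev.psi (x + H / 2) - Chebyshev.psi (x - H / 2) := by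
  have h0 : 0 ≤ x - H / 2 := by linarith
  have h1 : ⌈x - H / 2⌉₊ = ⌊x - H / 2⌋₊ + 1 := by
    rw [Nat.ceil_eq_iff (by omega)]
    constructor
    · push_cast
      have h2 := Nat.floor_le h0
      have h3 := hn ⌊x - H / 2⌋₊
      exact lt_of_le_of_ne h2 (Ne.symm h3)
    · push_cast
      exact (Nat.lt_floor_add_one _).le
  have h4 : ⌊x - H / 2⌋₊ ≤ ⌊x + H / 2⌋₊ := Nat.floor_mono (by linarith)
  unfold psiC Chebyshev.psi
  rw [h1]
  have h5 := Finset.sum_Ioc_consecutive (fun n => ArithmeticFunction.vonMangoldt n)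
    (Nat.zero_le ⌊x - H / 2⌋₊) h4
  have h6 : Finset.Icc (⌊x - H / 2⌋₊ + 1) ⌊x + H / 2⌋₊ = Finset.Ioc ⌊x - H / 2⌋₊ ⌊x + H / 2⌋₊ := by
    ext n
    simp only [Finset.mem_Icc, Finset.mem_Ioc]
    omega
  rw [h6]
  linarith

/-- the mean square over centred intervals -/
lemma cen_eq {X T : ℝ} (hX : 0 < X) (hT : 1 ≤ T) :
    ∫ x in (X / T / 2)..X, (psiC x (X / T) - X / T) ^ 2 = JV (1 / 2) T X := by
  have hT0 : 0 < T := by linarith
  set H := X / T with hH
  have hH0 : 0 < H := by positivity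
  have hHX : H ≤ X := by
    rw [hH, div_le_iff₀ hT0]
    nlinarith
  unfold JV
  rw [← hH]
  have e1 := intervalIntegral.integral_comp_add_right (a := 0) (b := X - 1 / 2 * H)
    (fun x => (psiC x H - H) ^ 2) (H / 2)
  have e2 : X - 1 / 2 * H + H / 2 = X := by ring
  rw [zero_add, e2] at e1
  rw [← e1]
  refine intervalIntegral.integral_congr_ae ?_
  have hc : ∀ᵐ x : ℝ, x ∉ Set.range (fun n : ℕ => (n : ℝ)) :=
    (Set.countable_range _).ae_notMem _
  filter_upwards [hc] with x hx hx2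
  rw [Set.uIoc_of_le (by linarith)] at hx2
  have hx0 := hx2.1
  rw [psiC_eq (by linarith) hH0.le]
  · unfold fE
    congr 3
    · congr 1
      ring
    · ring_nf
  · intro n hn
    exact hx ⟨n, by show (n : ℝ) = x; rw [← hn]; ring⟩

end Pool.Agent.N804.PV
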