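import Pool.Agent.N804.PV.Pr

set_option autoImplicit false

/-! # Project PW: the variance for intervals of fixed length; definitions and statements -/

namespace Pool.Agent.N804.PV

open Filter Topology Set MeasureTheory
open Pool.Agent.N804 (SC)

/-- the error for the primes in `(x, x + h]` -/
noncomputable def fE (x h : ℝ) : ℝ := Chebyshev.psi (x + h) - Chebyshev.psi x - h

/-- the mean square of the error for the intervals of length `X / T` starting in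
`(0, X - θ X / T]` -/
noncomputable def JV (θ T X : ℝ) : ℝ := ∫ x in (0 : ℝ)..(X - θ * (X / T)), fE x (X / T) ^ 2

/-- its logarithmic mean over `X` -/
noncomputable def WV (θ T u v : ℝ) : ℝ :=
  T / Real.log T ^ 2 * ∫ X in (T ^ u)..(T ^ v), JV θ T X / X ^ 3

/-- the integrand in the exponent -/
noncomputable def PSI (θ T α : ℝ) : ℝ := T / Real.log T * (JV θ T (T ^ α) / (T ^ α) ^ 2)

/-- the integrand in terms of relative lengths -/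
noncomputable def FI (T t α : ℝ) : ℝ :=
  t / Real.log T * DT t (Real.log t + (α - 1) * Real.log T) ^ 2

/-- PW1: fixed lengths and relative lengths -/
def S_W1 : Prop := ∀ θ : ℝ, 0 ≤ θ → θ ≤ 1 → ∀ T : ℝ, 2 ≤ T →
  (∀ a b : ℝ, IntervalIntegrable (PSI θ T) volume a b) ∧
  (∀ u v : ℝ, 1 ≤ u → u ≤ v → WV θ T u v = ∫ α in u..v, PSI θ T α) ∧
  ∀ g : ℝ → ℝ, Measurable g →
    (∃ M A : ℝ, ∀ α : ℝ, |g α| ≤ M ∧ (α < 1 ∨ A < α → g α = 0)) →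
    (∀ t : ℝ, 0 < t → t ≤ T → Integrable fun α => g α * FI T t α) ∧
    IntervalIntegrable (fun t => ∫ α : ℝ, g α * FI T t α) volume 0 (T - θ) ∧
    ∫ α : ℝ, g α * PSI θ T α = 1 / T * ∫ t in (0 : ℝ)..(T - θ), ∫ α : ℝ, g α * FI T t α

/-- PW2: the Riemann hypothesis from bounded variance -/
def S_W2 : Prop := ∀ θ : ℝ, 0 ≤ θ → θ ≤ 1 → ∀ δ : ℝ, 0 < δ →
  (∀ᵐ b : ℝ, 1 < b → ∃ C T0 : ℝ, ∀ T : ℝ, T0 ≤ T → WV θ T (max 1 (b - δ)) b ≤ C) →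
    RiemannHypothesis ∧ ∀ B : ℝ, ∃ b : ℝ, B < b ∧ ∃ C T0 : ℝ, ∀ T : ℝ, T0 ≤ T → WV θ T 1 b ≤ C

/-- PW3: slow variation -/
def S_W3 : Prop :=
  (∀ w : ℝ → ℝ, SC w → (∀ α, 0 ≤ w α) → (∃ A1 : ℝ, 1 / 2 < A1 ∧ ∀ α : ℝ, α ≤ A1 → w α = 0) →
    ∃ C T0 : ℝ, ∀ T : ℝ, T0 ≤ T → ∫ α : ℝ, w α * uT T α ≤ C) →
  ∀ w : ℝ → ℝ, SC w → (∃ A1 : ℝ, 1 / 2 < A1 ∧ ∀ α : ℝ, α ≤ A1 → w α = 0) →
    ∀ ε : ℝ, 0 < ε → ∃ η T0 : ℝ, 0 < η ∧ ∀ T : ℝ, T0 ≤ T → ∀ T' : ℝ, T ≤ T' → T' ≤ (1 + η) * T →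
      |(∫ α : ℝ, w α * uT T' α) - ∫ α : ℝ, w α * uT T α| ≤ ε

/-- PW5: the asymptotic formula for fixed lengths -/
def S_W5 : Prop := RiemannHypothesis →
  (∀ u v : ℝ, 1 ≤ u → u < v → Tendsto (fun T => GV T u v) atTop (𝓝 (v - u))) →
  ∀ θ : ℝ, 0 ≤ θ → θ ≤ 1 → ∀ u v : ℝ, 1 ≤ u → u < v →
    Tendsto (fun T => WV θ T u v) atTop (𝓝 (v - u))

end Pool.Agent.N804.PV
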