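import Pool.Agent.N804.PV.Wi

set_option autoImplicit false

/-! # From the upper half for the windows of the prime variance to the averaged counting functions -/

namespace Pool.Agent.N804.PV

open Filter Topology Set MeasureTheory
open Pool.Agent.N804

/-- the collected inputs -/
structure Inp : Prop where
  ha : S_ABEL
  hb : S_ABELB
  h3 : S_PV3
  hI : S_PVI
  h7 : S_PV7
  hk : S_AKB
  hmo : S_MO
  hav : S_AVG

/-- the far windows force `μ = 1` -/
theorem mu_one' (I : Inp) (RH : RiemannHypothesis) {T : ℕ → ℝ} {Φ : ℝ → ℝ} {μ : ℝ} (h : AD T Φ μ)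
    {δ : ℝ} (hδ : 0 < δ) (hδ1 : δ < 1) (hW : ∀ᵐ s, 1 - δ < s → UV T δ s) : μ = 1 := by
  have hg := gb_B2
  obtain ⟨C, hC, hlow⟩ := RL_lower' I.hb I.hk hg.sc CT_B2_nonneg hδ hδ1
  obtain ⟨m, hm⟩ := hg.sc.cont.bounded_above_of_compact_support hg.sc.cs
  have hm0 : 0 ≤ m := (norm_nonneg _).trans (hm 0)
  set G := Gd Φ μ with hG
  have hLG : LG G := h.lg
  set η : ℝ → ℝ := fun x => big (1 + δ) (by linarith) x with hη
  have Hη : SC η := big_SC _
  have hη0 : ∀ x, 0 ≤ η x := fun x => (big (1 + δ) (by linarith)).nonneg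
  set C₁ : ℝ := m * (mg η + 2 * DD G η) with hC₁
  have hRLm : ∀ L : ℝ, ∀ α, RL (B2 1 one_pos) δ L α ≤ m := by
    intro L α
    unfold RL Wn
    have h1 := intervalIntegral.norm_integral_le_of_norm_le_const (a := α + -(δ / 2))
      (b := α + δ / 2) (f := fun s => B2 1 one_pos (s / L)) (C := m) (fun s _ => hm _)
    have e1 : α + δ / 2 - (α + -(δ / 2)) = δ := by ring
    rw [e1, abs_of_pos hδ] at h1
    calc 1 / δ * ∫ s in (α + -(δ / 2))..(α + δ / 2), B2 1 one_pos (s / L) ≤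
        1 / δ * (m * δ) := by
          gcongr
          exact (le_abs_self _).trans h1
      _ = m := by field_simp
  have key : ∀ L : ℝ, 1 ≤ L → (μ - 1) * CT (B2 1 one_pos) 0 ≤ (|C₁| + C) / L := by
    intro L hL
    have hL0 : 0 < L := by linarith
    obtain ⟨r₁, Hr₁, hpos, hle, hzero, e1⟩ := decomp0 hLG hg hδ (a' := 1 - δ / 2) (a := 1)
      (by linarith) (by linarith) hL0
    have hw : DD G (Wn (-δ) 0 (wgt (B2 1 one_pos) δ L (1 - δ / 2) 1)) ≤ 0 := by
      refine win_cone' I.hb RH I.hI I.h7 I.hmo I.hav h hδ hW (wgt_SC hg.sc δ hL0 _ _) (fun s => ?_)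
        (a := 1 - δ / 2) (by linarith) (fun s hs => ?_)
      · unfold wgt
        have := hg.nn ((s + δ / 2) / L)
        have := sst_nonneg (1 - δ / 2) 1 s
        positivity
      · unfold wgt
        rw [sst_zero (by linarith) hs.le]
        ring
    have h2 := h.nonneg I.hb RH I.h3 (r := fun x => m * η x - r₁ x) ((Hη.cmul m).sub Hr₁) (fun α => by
      by_cases hα : 1 + δ < |α|
      · show 0 ≤ m * η α - r₁ α
        rw [hzero α hα, sub_zero]
        exact mul_nonneg hm0 (hη0 α)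
      · simp only [hη]
        rw [big_one _ (not_lt.1 hα)]
        linarith [hle α, hRLm L α])
    rw [mg_sub (Hη.cmul m) Hr₁, mg_mul, ← hG, DD_sub hLG (Hη.cmul m) Hr₁, DD_mul] at h2
    have h3 := mg_nonneg hpos
    have h4 := hlow T Φ μ h L hL
    rw [← hG, e1] at h4
    have h5 : (μ - 1) * L * CT (B2 1 one_pos) 0 ≤ |C₁| + C := by
      have h6 : C / L ≤ C := div_le_self hC.le hL
      have h7 := le_abs_self C₁
      linarith
    rw [le_div_iff₀ hL0]
    linarith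
  have h1 := arch key
  have h2 := CT_B2_pos
  have h3 : μ ≤ 1 := by
    by_contra hcon
    push Not at hcon
    have : 0 < (μ - 1) * CT (B2 1 one_pos) 0 := mul_pos (by linarith) h2
    linarith
  exact le_antisymm h3 h.mu

/-- the functional vanishes -/
theorem DD_zero' (I : Inp) (RH : RiemannHypothesis) {T : ℕ → ℝ} {Φ : ℝ → ℝ} {μ : ℝ} (h : AD T Φ μ)
    {δ : ℝ} (hδ : 0 < δ) (hδ1 : δ < 1) (hW : ∀ᵐ s, 1 - δ < s → UV T δ s) (r : ℝ → ℝ) (Hr : SC r) :
    DD (Gd Φ μ) r = 0 := by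
  have hμ := mu_one' I RH h hδ hδ1 hW
  have hg := gb_B2
  obtain ⟨C, hC, hlow⟩ := RL_lower' I.hb I.hk hg.sc CT_B2_nonneg hδ hδ1
  have hCH : CH (Gd Φ μ) δ ((1 - δ) / 8) (B2 1 one_pos) := by
    refine ⟨h.lg, ?_, ?_, ⟨C, fun L hL => ?_⟩, ?_⟩
    · intro κ₁ hκ₁ r Hr hs _
      exact (h.band I.hb RH I.hmo I.hav Hr ⟨κ₁, hκ₁, hs⟩).le
    · rintro ρ Hρ hρ ⟨a, ha, hz⟩
      exact win_cone' I.hb RH I.hI I.h7 I.hmo I.hav h hδ hW Hρ hρ (by linarith) hz
    · have h1 := hlow T Φ μ h L hL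
      rw [hμ] at h1 ⊢
      have hL0 : 0 < L := by linarith
      have h2 : 0 ≤ C / L := by positivity
      have h3 : (1 - 1) * L * CT (B2 1 one_pos) 0 - C / L = -(C / L) := by ring
      rw [h3] at h1
      linarith
    · intro κ hκ r Hr hs
      exact h.band I.hb RH I.hmo I.hav Hr ⟨κ, by linarith, hs⟩
  exact all_zero hCH hg hδ (by linarith) (lam := (1 - δ) / 4) (κ₁ := (1 + δ) / 2) (by linarith)
    (by linarith) (by linarith) (by linarith) Hr

/-- a monotone function with a vanishing functional is the expected one -/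
lemma Phi_eq {T : ℕ → ℝ} {Φ : ℝ → ℝ} {μ : ℝ} (h : AD T Φ μ) (hμ : μ = 1)
    (hD : ∀ r : ℝ → ℝ, SC r → DD (Gd Φ μ) r = 0) {x : ℝ} (hx : 0 < x) (hc : ContinuousAt Φ x) :
    Φ x = PP x := by
  have h1 := van h.lg hD hx (by
    unfold Gd
    exact (hc.sub PP_cont.continuousAt).add continuousAt_const)
  unfold Gd at h1
  rw [hμ] at h1
  linarith

/-- convergence everywhere -/
lemma CA_conv {T : ℕ → ℝ} {Φ : ℝ → ℝ} {μ : ℝ} (h : AD T Φ μ) (hμ : μ = 1)
    (hD : ∀ r : ℝ → ℝ, SC r → DD (Gd Φ μ) r = 0) {x : ℝ} (hx : 0 < x) :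
    Tendsto (fun k => CA (T k) x) atTop (𝓝 (PP x)) := by
  have hae : ∀ᵐ y : ℝ, ContinuousAt Φ y ∧ Tendsto (fun k => CA (T k) y) atTop (𝓝 (Φ y)) := by
    have h1 : ∀ᵐ y : ℝ, ContinuousAt Φ y := by
      rw [ae_iff]
      exact h.mono.countable_not_continuousAt.measure_zero _
    exact h1.and h.hg
  have hPc := PP_cont.continuousAt (x := x)
  refine tendsto_order.2 ⟨fun y hy => ?_, fun y hy => ?_⟩
  · obtain ⟨τ, hτ, h2⟩ := Metric.eventually_nhds_iff.1 (hPc.eventually (lt_mem_nhds hy))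
    obtain ⟨z, hz, hz1, hz2⟩ := ae_Ioo hae (show max (x / 2) (x - τ) < x by
      exact max_lt (by linarith) (by linarith))
    have hz0 : 0 < z := lt_of_lt_of_le (by positivity) ((le_max_left _ _).trans hz.1.le)
    rw [Phi_eq h hμ hD hz0 hz1] at hz2
    have h3 : y < PP z := h2 (by
      rw [Real.dist_eq, abs_lt]
      have := (le_max_right (x / 2) (x - τ)).trans_lt hz.1
      constructor <;> linarith [hz.2])
    filter_upwards [hz2.eventually (lt_mem_nhds h3), h.hT.eventually_ge_atTop 2] with k hk hk2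
    exact hk.trans_le (CA_mono (by linarith) hz.2.le)
  · obtain ⟨τ, hτ, h2⟩ := Metric.eventually_nhds_iff.1 (hPc.eventually (gt_mem_nhds hy))
    obtain ⟨z, hz, hz1, hz2⟩ := ae_Ioo hae (show x < x + τ by linarith)
    have hz0 : 0 < z := hx.trans hz.1
    rw [Phi_eq h hμ hD hz0 hz1] at hz2
    have h3 : PP z < y := h2 (by
      rw [Real.dist_eq, abs_lt]
      constructor <;> linarith [hz.1, hz.2])
    filter_upwards [hz2.eventually (gt_mem_nhds h3), h.hT.eventually_ge_atTop 2] with k hk hk2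
    exact (CA_mono (by linarith) hz.1.le).trans_lt hk

/-- **the averaged counting functions** -/
theorem CA_lim (I : Inp) (RH : RiemannHypothesis) {δ : ℝ} (hδ : 0 < δ) (hδ1 : δ < 1)
    (hW : ∀ᵐ s : ℝ, 1 - δ < s → ∀ ε : ℝ, 0 < ε → ∀ᶠ T in atTop,
      ∫ α in (max 1 s)..(max 1 (s + δ)), uT T α ≤ (max 1 (s + δ) - max 1 s) + ε)
    {x : ℝ} (hx : 0 < x) : Tendsto (fun T => CA T x) atTop (𝓝 (PP x)) := by
  refine tendsto_of_subseq_tendsto fun T hT => ?_
  obtain ⟨ψ, hψ, Φ, μ, h⟩ := extractA I.ha I.hb hT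
  have hW' : ∀ᵐ s, 1 - δ < s → UV (fun k => T (ψ k)) δ s := by
    filter_upwards [hW] with s hs hs1 ε hε
    exact h.hT.eventually (hs hs1 ε hε)
  exact ⟨ψ, CA_conv h (mu_one' I RH h hδ hδ1 hW') (DD_zero' I RH h hδ hδ1 hW') hx⟩

end Pool.Agent.N804.PV
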