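import Pool.Agent.N804.PV.AvC
import Pool.Agent.N804.FEnd

set_option autoImplicit false

/-! # Limits of the averaged sums over pairs -/

namespace Pool.Agent.N804.PV

open Filter Topology Set MeasureTheory
open H370 (Zf mult mem_Zf good_zeta zset NN NN_eq)
open Pool.Agent.N804

/-- limit data -/
structure AD (T : ℕ → ℝ) (Φ : ℝ → ℝ) (μ : ℝ) : Prop where
  hT : Tendsto T atTop atTop
  mono : Monotone Φ
  bd : ∃ B : ℝ, 0 < B ∧ ∀ x, 0 ≤ x → 0 ≤ Φ x ∧ Φ x ≤ B * (1 + x)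
  hg : ∀ᵐ x, Tendsto (fun k => CA (T k) x) atTop (𝓝 (Φ x))
  hm : Tendsto (fun k => MA (T k)) atTop (𝓝 μ)
  mu : 1 ≤ μ

lemma CA_neg {T x : ℝ} (hT : 1 < T) (hx : x ≤ 0) : CA T x = 0 := by
  classical
  have hL := Real.log_pos hT
  have hpi := Real.pi_pos
  unfold CA PW
  rw [Finset.sum_eq_zero, zero_div]
  intro s _
  refine Finset.sum_eq_zero fun s' _ => ?_
  have h0 : ¬(0 < s.im - s'.im ∧ s.im - s'.im ≤ 2 * Real.pi * x / Real.log T) := by
    rintro ⟨h1, h2⟩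
    have : 2 * Real.pi * x / Real.log T ≤ 0 :=
      div_nonpos_of_nonpos_of_nonneg (by nlinarith) hL.le
    linarith
  simp only [if_neg h0, mul_zero]

theorem extractA (ha : S_ABEL) (hb : S_ABELB) {T : ℕ → ℝ} (hT : Tendsto T atTop atTop) :
    ∃ ψ : ℕ → ℕ, StrictMono ψ ∧ ∃ (Φ : ℝ → ℝ) (μ : ℝ), AD (fun k => T (ψ k)) Φ μ := by
  obtain ⟨B, T0, hB, hT0, hp⟩ := CA_bd hb
  obtain ⟨N, hN⟩ := eventually_atTop.1 (hT.eventually_ge_atTop T0)
  set T1 : ℕ → ℝ := fun k => T (k + N) with hT1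
  have hk0 : ∀ k, T0 ≤ T1 k := fun k => hN (k + N) (by omega)
  have hk1 : ∀ k, 1 < T1 k := fun k => by linarith [hk0 k]
  have hbd : ∀ k x, |CA (T1 k) x| ≤ B * (1 + |x|) := by
    intro k x
    rcases le_total 0 x with h | h
    · obtain ⟨h1, h2⟩ := (hp (T1 k) (hk0 k)).2 x h
      rw [abs_of_nonneg h1, abs_of_nonneg h]
      exact h2
    · rw [CA_neg (hk1 k) h, abs_zero]
      positivity
  obtain ⟨ψ1, hψ1, Φ, hΦm, hΦ⟩ := helly (f := fun k => CA (T1 k))
    (fun k x y h => CA_mono (hk1 k) h) _ hbd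
  have hmB : ∀ k, MA (T1 (ψ1 k)) ∈ Icc 0 B := fun k => ⟨MA_nonneg (hk1 _), (hp _ (hk0 _)).1⟩
  obtain ⟨μ, hμ, ψ2, hψ2, hμt⟩ := isCompact_Icc.tendsto_subseq hmB
  have hcomp : StrictMono fun k => ψ1 (ψ2 k) + N := fun a b hab => by
    have := hψ1 (hψ2 hab)
    simp only
    omega
  have tT : Tendsto (fun k => T (ψ1 (ψ2 k) + N)) atTop atTop := hT.comp hcomp.tendsto_atTop
  have tΦ : ∀ᵐ x, Tendsto (fun k => CA (T (ψ1 (ψ2 k) + N)) x) atTop (𝓝 (Φ x)) := by
    filter_upwards [hΦ] with x hx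
    exact hx.comp hψ2.tendsto_atTop
  refine ⟨fun k => ψ1 (ψ2 k) + N, hcomp, Φ, μ, tT, hΦm, ⟨2 * B, by positivity, ?_⟩, tΦ, hμt, ?_⟩
  · intro x hx
    constructor
    · obtain ⟨y, hy, hyt⟩ := ae_Ioo tΦ (show x - 1 < x by linarith)
      have h1 : 0 ≤ Φ y := ge_of_tendsto' hyt fun k => CA_nonneg (hk1 (ψ1 (ψ2 k))) y
      exact h1.trans (hΦm hy.2.le)
    · obtain ⟨y, hy, hyt⟩ := ae_Ioo tΦ (show x < x + 1 by linarith)
      have h1 : Φ y ≤ B * (1 + y) := le_of_tendsto' hyt fun k =>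
        ((hp _ (hk0 (ψ1 (ψ2 k)))).2 y (by linarith [hy.1])).2
      have h2 := hΦm hy.1.le
      nlinarith [hy.2]
  · refine le_of_forall_pos_le_add fun ε hε => ?_
    have h1 := tT.eventually (MA_ge ha hε)
    have h2 : 1 - ε ≤ μ := ge_of_tendsto hμt h1
    linarith

lemma AD.lg {T : ℕ → ℝ} {Φ : ℝ → ℝ} {μ : ℝ} (h : AD T Φ μ) : LG (Gd Φ μ) := by
  obtain ⟨B, hB, hbd⟩ := h.bd
  refine ⟨?_, B + 1 + |μ - 1|, by positivity, fun x hx => ?_⟩
  · have h1 := h.mono.measurable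
    have h3 := PP_cont.measurable
    exact (h1.sub h3).add_const _
  · obtain ⟨c1, c2⟩ := hbd x hx
    have c3 := PP_nonneg hx
    have c4 := PP_le hx
    have c5 := neg_abs_le (μ - 1)
    have c6 := le_abs_self (μ - 1)
    have c7 := abs_nonneg (μ - 1)
    unfold Gd
    rw [abs_le]
    constructor <;> nlinarith [mul_nonneg c7 hx]

/-- the limits of the averaged sums over pairs -/
theorem AD.pair (hb : S_ABELB) {T : ℕ → ℝ} {Φ : ℝ → ℝ} {μ : ℝ} (h : AD T Φ μ) {r : ℝ → ℝ} (Hr : SC r) :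
    Tendsto (fun k => AT (T k) (sc r (T k))) atTop (𝓝 (mg r + 2 * DD (Gd Φ μ) r)) := by
  obtain ⟨κ, hκ, hs⟩ := Hr.supp
  have W := tw_test Hr hκ hs
  obtain ⟨B, T0, hB, hT0, hbd⟩ := CA_bd hb
  have hint : Tendsto (fun k => ∫ x in Ioi (0 : ℝ), tw r x * CA (T k) x) atTop
      (𝓝 (∫ x in Ioi (0 : ℝ), tw r x * Φ x)) := by
    refine tendsto_integral_filter_of_dominated_convergence
      (fun x => B * (x ^ 1 * |tw r x|) + B * (x ^ 0 * |tw r x|)) ?_ ?_ ?_ ?_
    · filter_upwards [h.hT.eventually_ge_atTop 2] with k hk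
      have hm : Monotone (CA (T k)) := fun x y hxy => CA_mono (by linarith) hxy
      exact ((tw_cont Hr).measurable.mul hm.measurable).aestronglyMeasurable
    · filter_upwards [h.hT.eventually_ge_atTop T0] with k hk
      refine (ae_restrict_iff' measurableSet_Ioi).2 (ae_of_all _ fun x hx => ?_)
      have hx0 : 0 ≤ x := le_of_lt hx
      obtain ⟨c1, c2⟩ := (hbd (T k) hk).2 x hx0
      rw [Real.norm_eq_abs, abs_mul, abs_of_nonneg c1]
      calc |tw r x| * CA (T k) x ≤ |tw r x| * (B * (1 + x)) := by gcongr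
        _ = _ := by ring
    · exact ((W.inta 1 le_rfl).const_mul _).add ((W.inta 0 le_rfl).const_mul _)
    · refine (ae_restrict_iff' measurableSet_Ioi).2 ?_
      filter_upwards [h.hg] with x gx hx
      exact gx.const_mul _
  have h1 : Tendsto (fun k => MA (T k) * CT r 0 + 2 * ∫ x in Ioi (0 : ℝ), tw r x * CA (T k) x)
      atTop (𝓝 (μ * CT r 0 + 2 * ∫ x in Ioi (0 : ℝ), tw r x * Φ x)) :=
    (h.hm.mul_const _).add (hint.const_mul 2)
  have e1 : μ * CT r 0 + 2 * ∫ x in Ioi (0 : ℝ), tw r x * Φ x = mg r + 2 * DD (Gd Φ μ) r := by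
    obtain ⟨B', hB', hΦ⟩ := h.bd
    have i0 := w_int W
    have iP := wP_int W
    have iΦ : IntegrableOn (fun x => tw r x * Φ x) (Ioi 0) := by
      refine tw_int ⟨h.mono.measurable, B', hB'.le, fun x hx => ?_⟩ Hr
      rw [abs_of_nonneg (hΦ x hx).1]
      exact (hΦ x hx).2
    have hc0 : CT r 0 = ∫ x in Ioi (0 : ℝ), tw r x := by
      have := W.eq 0
      rwa [abs_zero] at this
    have hm := main_gen Hr
    have e2 : ∫ x in Ioi (0 : ℝ), tw r x * (1 + 2 * PP x) =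
        (∫ x in Ioi (0 : ℝ), tw r x) + 2 * ∫ x in Ioi (0 : ℝ), tw r x * PP x := by
      rw [← integral_const_mul, ← integral_add i0 (iP.const_mul 2)]
      congr 1
      funext x
      ring
    have e3 : DD (Gd Φ μ) r = (∫ x in Ioi (0 : ℝ), tw r x * Φ x) -
        (∫ x in Ioi (0 : ℝ), tw r x * PP x) + (μ - 1) / 2 * ∫ x in Ioi (0 : ℝ), tw r x := by
      unfold DD
      have i2 : IntegrableOn (fun x => tw r x * Φ x - tw r x * PP x) (Ioi 0) := iΦ.sub iP
      rw [← integral_const_mul, ← integral_sub iΦ iP, ← integral_add i2 (i0.const_mul _)]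
      congr 1
      funext x
      unfold Gd
      ring
    have e4 : mg r = (∫ x in Ioi (0 : ℝ), tw r x) + 2 * ∫ x in Ioi (0 : ℝ), tw r x * PP x := by
      rw [← e2, hm]
      rfl
    rw [e3, e4, hc0]
    ring
  rw [← e1]
  refine h1.congr' ?_
  filter_upwards [h.hT.eventually_ge_atTop 2] with k hk
  obtain ⟨-, e⟩ := AT_eq (w := tw r) (g := CT r) (w_int W) W.eq (show 1 < T k by linarith)
  exact e.symm

/-- positivity of the limits -/
lemma AD.nonneg (hb : S_ABELB) (RH : RiemannHypothesis) (h3 : S_PV3) {T : ℕ → ℝ} {Φ : ℝ → ℝ} {μ : ℝ}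
    (h : AD T Φ μ) {r : ℝ → ℝ} (Hr : SC r) (hr : ∀ α, 0 ≤ r α) : 0 ≤ mg r + 2 * DD (Gd Φ μ) r := by
  refine le_of_forall_pos_le_add fun η hη => ?_
  obtain ⟨T0, hT0⟩ := h3 RH r Hr η hη
  have h4 : -η ≤ mg r + 2 * DD (Gd Φ μ) r := by
    refine ge_of_tendsto (h.pair hb Hr) ?_
    filter_upwards [h.hT.eventually_ge_atTop T0, h.hT.eventually_ge_atTop 2] with k hk hk2
    have hTk : 0 < T k := by linarith
    have h5 := hT0 (T k) hk (1 / T k ^ 3) (by positivity) le_rfl (T k ^ 2) le_rfl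
    have h6 : 0 ≤ T k / Real.log (T k) ^ 2 *
        (∫ y : ℝ, r (y / Real.log (T k)) * ZN (T k) (1 / T k ^ 3) (T k ^ 2) y ^ 2) :=
      mul_nonneg (by positivity) (integral_nonneg fun y => mul_nonneg (hr _) (sq_nonneg _))
    linarith [(abs_le.1 h5).2]
  linarith

/-- the band -/
lemma AD.band (hb : S_ABELB) (RH : RiemannHypothesis) (hmo : S_MO) (hav : S_AVG) {T : ℕ → ℝ}
    {Φ : ℝ → ℝ} {μ : ℝ} (h : AD T Φ μ) {r : ℝ → ℝ} (Hr : SC r)
    (hs : ∃ κ : ℝ, κ < 1 ∧ ∀ α, κ < |α| → r α = 0) : DD (Gd Φ μ) r = 0 := by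
  have h1 := (hav r Hr _ (hmo RH r Hr hs)).comp h.hT
  have h2 := tendsto_nhds_unique h1 (h.pair hb Hr)
  linarith

/-- the diagonal pairs give a lower bound -/
theorem a_lower (hb : S_ABELB) (hk : S_AKB) : ∃ B : ℝ, 0 < B ∧ ∀ (T : ℕ → ℝ) (Φ : ℝ → ℝ) (μ : ℝ),
    AD T Φ μ → ∀ (R : ℝ → ℝ), SC R → ∀ a : ℝ, 0 ≤ a → (∀ y, -(a / (1 + y ^ 2)) ≤ CT R y) →
      μ * CT R 0 - a * B ≤ mg R + 2 * DD (Gd Φ μ) R := by
  obtain ⟨B, T0, hB, hkb⟩ := hk
  refine ⟨B, hB, fun T Φ μ h R HR a ha hlow => ?_⟩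
  have h2 : Tendsto (fun k => MA (T k) * CT R 0 - a * B) atTop (𝓝 (μ * CT R 0 - a * B)) :=
    (h.hm.mul_const _).sub_const _
  refine le_of_tendsto_of_tendsto h2 (h.pair hb HR) ?_
  filter_upwards [h.hT.eventually_ge_atTop T0, h.hT.eventually_ge_atTop 2] with k hk2 hk3
  have hT1 : 1 < T k := by linarith
  have hkk := hkb (T k) hk2
  have hf : ∀ d : ℝ, 0 ≤ sc R (T k) d + a * kr (T k) d := by
    intro d
    have := hlow (d * Real.log (T k) / (2 * Real.pi))
    unfold sc kr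
    rw [mul_one_div]
    linarith
  have h3 := AT_ge hT1 hf
  rw [AT_add, AT_cmul] at h3
  have h4 := MA_nonneg hT1
  have e2 : sc R (T k) 0 + a * kr (T k) 0 = CT R 0 + a := by
    unfold sc kr
    rw [zero_mul, zero_div]
    norm_num
  rw [e2] at h3
  have h5 : a * AT (T k) (kr (T k)) ≤ a * B := by gcongr
  nlinarith [mul_nonneg h4 ha]

/-- **the lower bound for the long averages** -/
theorem RL_lower' (hb : S_ABELB) (hk : S_AKB) {g : ℝ → ℝ} (Hg : SC g) (hg : ∀ u, 0 ≤ CT g u) {δ : ℝ}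
    (hδ : 0 < δ) (hδ1 : δ < 1) :
    ∃ C : ℝ, 0 < C ∧ ∀ (T : ℕ → ℝ) (Φ : ℝ → ℝ) (μ : ℝ), AD T Φ μ → ∀ L : ℝ, 1 ≤ L →
      (μ - 1) * L * CT g 0 - C / L ≤ 2 * DD (Gd Φ μ) (RL g δ L) := by
  have hpi := Real.pi_pos
  obtain ⟨B, hB, hlow⟩ := a_lower hb hk
  obtain ⟨A, hA0, hA⟩ := CT_decp Hg 4
  have hI := CT_intp Hg 2
  set I : ℝ := ∫ v : ℝ, |v| ^ 2 * |CT g v| with hId
  have hI0 : 0 ≤ I := integral_nonneg fun v => by positivity
  refine ⟨20 * A * B + Real.pi ^ 2 / 3 * I + 1, by positivity, fun T Φ μ h L hL => ?_⟩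
  have hL0 : 0 < L := by linarith
  have HR := RL_SC Hg δ hL0
  have hCT := CT_RL Hg δ hL0
  have h0 : CT (RL g δ L) 0 = L * CT g 0 := by
    rw [hCT]
    simp only [mul_zero, Real.cos_zero]
    rw [intervalIntegral.integral_const, sub_neg_eq_add, add_halves, smul_eq_mul, mul_one]
    field_simp
  have hbd : ∀ y, |CT (RL g δ L) y| ≤ L * |CT g (L * y)| := by
    intro y
    rw [hCT, abs_mul, abs_mul L, abs_of_pos hL0]
    have := (cos_win hδ y).1
    have h2 : 0 ≤ L * |CT g (L * y)| := by positivity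
    calc _ ≤ 1 * (L * |CT g (L * y)|) := by gcongr
      _ = _ := one_mul _
  -- the lower bound for the transform
  have hlow1 : ∀ y, -(20 * A / L / (1 + y ^ 2)) ≤ CT (RL g δ L) y := by
    intro y
    by_cases hy : |y| ≤ 1 / (2 * δ)
    · have h1 := (cos_win hδ y).2 hy
      have h2 : 0 ≤ CT (RL g δ L) y := by
        rw [hCT]
        exact mul_nonneg h1 (mul_nonneg hL0.le (hg _))
      have h3 : 0 ≤ 20 * A / L / (1 + y ^ 2) := by positivity
      linarith
    · push Not at hy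
      have hy2 : 1 / 2 < |y| := by
        refine lt_of_le_of_lt ?_ hy
        rw [div_le_div_iff₀ (by norm_num) (by positivity)]
        linarith
      have h1 := hA (L * y)
      rw [abs_mul, abs_of_pos hL0] at h1
      have h2 : (L * |y|) ^ 4 * |CT g (L * y)| ≤ A := by
        refine le_trans ?_ h1
        gcongr
        linarith
      have h3 : L * |CT g (L * y)| ≤ 20 * A / L / (1 + y ^ 2) := by
        rw [div_div, le_div_iff₀ (by positivity)]
        have hy0 : 0 < |y| := by linarith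
        have h4 : (1 : ℝ) + y ^ 2 ≤ 20 * |y| ^ 4 := by
          rw [← sq_abs y]
          nlinarith [sq_nonneg (|y| - 1 / 2), mul_pos hy0 hy0, mul_pos (mul_pos hy0 hy0) hy0]
        have h5 : L ^ 2 ≤ L ^ 4 := pow_le_pow_right₀ hL (by norm_num)
        calc L * |CT g (L * y)| * (L * (1 + y ^ 2)) = L ^ 2 * (1 + y ^ 2) * |CT g (L * y)| := by ring
          _ ≤ L ^ 4 * (20 * |y| ^ 4) * |CT g (L * y)| := by gcongr
          _ = 20 * ((L * |y|) ^ 4 * |CT g (L * y)|) := by ring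
          _ ≤ 20 * A := by gcongr
      have h6 := (abs_le.1 ((hbd y).trans h3)).1
      exact h6
  have h1 := hlow T Φ μ h _ HR (20 * A / L) (by positivity) hlow1
  -- the upper bound for the main term
  obtain ⟨κ, hκ, hs⟩ := HR.supp
  have W := tw_test HR hκ hs
  have hmg : mg (RL g δ L) ≤ L * CT g 0 + Real.pi ^ 2 / 3 * I / L := by
    have e1 : mg (RL g δ L) = CT (RL g δ L) 0 +
        ∫ u : ℝ, CT (RL g δ L) u * (1 - Real.sinc (Real.pi * u) ^ 2) := by
      rw [main_int W, main_gen HR]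
      rfl
    rw [e1, h0]
    have hint : Integrable fun u : ℝ => L * |CT g (L * u)| * (Real.pi ^ 2 / 3 * |u| ^ 2) := by
      have h2 := (hI.comp_mul_left' hL0.ne').const_mul (Real.pi ^ 2 / 3 / L)
      refine h2.congr (ae_of_all _ fun u => ?_)
      simp only []
      rw [abs_mul, abs_of_pos hL0]
      field_simp
    have h2 : ∫ u : ℝ, CT (RL g δ L) u * (1 - Real.sinc (Real.pi * u) ^ 2) ≤
        ∫ u : ℝ, L * |CT g (L * u)| * (Real.pi ^ 2 / 3 * |u| ^ 2) := by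
      have hcc := CT_cont HR
      have hm : Integrable fun u : ℝ => CT (RL g δ L) u * (1 - Real.sinc (Real.pi * u) ^ 2) := by
        refine Integrable.mono' hint (hcc.mul pp_cont).aestronglyMeasurable
          (ae_of_all _ fun u => ?_)
        rw [Real.norm_eq_abs, abs_mul]
        have := hbd u
        have := pp_quad u
        gcongr
      refine integral_mono hm hint fun u => ?_
      refine (le_abs_self _).trans ?_
      rw [abs_mul]
      have := hbd u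
      have := pp_quad u
      gcongr
    have e2 : ∫ u : ℝ, L * |CT g (L * u)| * (Real.pi ^ 2 / 3 * |u| ^ 2) =
        Real.pi ^ 2 / 3 * I / L / L := by
      have e3 := Measure.integral_comp_mul_left (fun v : ℝ => |v| ^ 2 * |CT g v|) L
      rw [abs_of_pos (inv_pos.2 hL0), smul_eq_mul, ← hId] at e3
      have e4 : ∀ u : ℝ, L * |CT g (L * u)| * (Real.pi ^ 2 / 3 * |u| ^ 2) =
          Real.pi ^ 2 / 3 / L * (|L * u| ^ 2 * |CT g (L * u)|) := by
        intro u
        rw [abs_mul, abs_of_pos hL0]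
        field_simp
      simp_rw [e4]
      rw [integral_const_mul, e3]
      field_simp
    rw [e2] at h2
    have h3 : Real.pi ^ 2 / 3 * I / L / L ≤ Real.pi ^ 2 / 3 * I / L :=
      div_le_self (by positivity) hL
    linarith
  rw [h0] at h1
  have e5 : (20 * A * B + Real.pi ^ 2 / 3 * I + 1) / L =
      20 * A / L * B + Real.pi ^ 2 / 3 * I / L + 1 / L := by
    field_simp
  have h7 : 0 < 1 / L := by positivity
  rw [e5]
  linarith

end Pool.Agent.N804.PV
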