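import Pool.Agent.N804.PV.Def
import Pool.Agent.N804.Wn

set_option autoImplicit false

/-! # The scaled square of the prime error -/

namespace Pool.Agent.N804.PV

open Filter Topology Set MeasureTheory
open Pool.Agent.N804 (SC Wn Wn_SC)

/-- the scaled square of the error -/
noncomputable def uT (T α : ℝ) : ℝ := T / Real.log T * DT T (α * Real.log T) ^ 2

lemma uT_nonneg {T : ℝ} (hT : 1 < T) (α : ℝ) : 0 ≤ uT T α := by
  unfold uT
  have := Real.log_pos hT
  positivity

lemma DT_meas (T : ℝ) : Measurable (DT T) := by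
  have hm : Measurable Chebyshev.psi := Chebyshev.psi_mono.measurable
  have h1 : Measurable fun y : ℝ => Chebyshev.psi (Real.exp y * (1 + 1 / T)) :=
    hm.comp (Real.measurable_exp.mul_const _)
  have h2 : Measurable fun y : ℝ => Chebyshev.psi (Real.exp y) := hm.comp Real.measurable_exp
  unfold DT
  exact (by fun_prop : Measurable fun y : ℝ => Real.exp (-(y / 2))).mul
    ((h1.sub h2).sub (Real.measurable_exp.div_const _))

lemma DT_bd {T : ℝ} (hT : 1 < T) (A : ℝ) : ∃ C : ℝ, ∀ y : ℝ, |y| ≤ A → |DT T y| ≤ C := by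
  refine ⟨Real.exp (A / 2) * (Chebyshev.psi (Real.exp A * 2) + Chebyshev.psi (Real.exp A) +
    Real.exp A), fun y hy => ?_⟩
  obtain ⟨h1, h2⟩ := abs_le.1 hy
  unfold DT
  rw [abs_mul, abs_of_pos (Real.exp_pos _)]
  have e1 : Real.exp (-(y / 2)) ≤ Real.exp (A / 2) := Real.exp_le_exp.2 (by linarith)
  have e2 : Real.exp y ≤ Real.exp A := Real.exp_le_exp.2 h2
  have hp := Real.exp_pos y
  have hA := Real.exp_pos A
  have hT1 : 1 / T ≤ 1 := by rw [div_le_one (by linarith)]; linarith
  have hT0 : 0 < 1 / T := by positivity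
  have p1 : Chebyshev.psi (Real.exp y * (1 + 1 / T)) ≤ Chebyshev.psi (Real.exp A * 2) :=
    Chebyshev.psi_mono (by nlinarith)
  have p2 : Chebyshev.psi (Real.exp y) ≤ Chebyshev.psi (Real.exp A) := Chebyshev.psi_mono e2
  have q1 := Chebyshev.psi_nonneg (Real.exp y * (1 + 1 / T))
  have q2 := Chebyshev.psi_nonneg (Real.exp y)
  have r1 : Real.exp y / T ≤ Real.exp A := by
    rw [div_le_iff₀ (by linarith)]
    nlinarith
  have r2 : 0 ≤ Real.exp y / T := by positivity
  have h3 : |Chebyshev.psi (Real.exp y * (1 + 1 / T)) - Chebyshev.psi (Real.exp y) -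
      Real.exp y / T| ≤ Chebyshev.psi (Real.exp A * 2) + Chebyshev.psi (Real.exp A) +
        Real.exp A := by
    rw [abs_le]
    constructor <;> linarith
  gcongr

lemma uT_ii {T : ℝ} (hT : 1 < T) (a b : ℝ) : IntervalIntegrable (uT T) volume a b := by
  have hL := Real.log_pos hT
  obtain ⟨C, hC⟩ := DT_bd hT ((|a| + |b|) * Real.log T)
  rw [intervalIntegrable_iff]
  refine Measure.integrableOn_of_bounded (M := T / Real.log T * C ^ 2)
    (by rw [uIoc]; simp) ?_ ?_
  · unfold uT
    exact (((DT_meas T).comp (by fun_prop)).pow_const 2).const_mul _ |>.aestronglyMeasurable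
  · refine (ae_restrict_mem measurableSet_uIoc).mono fun x hx => ?_
    have hx1 : |x| ≤ |a| + |b| := by
      rw [uIoc, mem_Ioc] at hx
      rw [abs_le]
      have h1 := neg_abs_le a
      have h2 := neg_abs_le b
      have h3 := le_abs_self a
      have h4 := le_abs_self b
      have h5 := abs_nonneg a
      have h6 := abs_nonneg b
      constructor
      · rcases min_choice a b with h | h <;> rw [h] at hx <;> linarith [hx.1]
      · rcases max_choice a b with h | h <;> rw [h] at hx <;> linarith [hx.2]
    have h2 := hC (x * Real.log T) (by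
      rw [abs_mul, abs_of_pos hL]
      gcongr)
    rw [Real.norm_of_nonneg (uT_nonneg hT x)]
    unfold uT
    have : DT T (x * Real.log T) ^ 2 ≤ C ^ 2 := by
      rw [← sq_abs]
      exact pow_le_pow_left₀ (abs_nonneg _) h2 2
    gcongr

lemma uT_int {T : ℝ} (hT : 1 < T) {w : ℝ → ℝ} (hw : SC w) : Integrable fun α => w α * uT T α := by
  have hc := hw.cont
  obtain ⟨m, hm⟩ := hc.bounded_above_of_compact_support hw.cs
  obtain ⟨R, hR⟩ := hw.cs.isCompact.isBounded.subset_closedBall 0
  set K : ℝ := max R 1 with hK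
  have hz : ∀ α, K < |α| → w α = 0 := by
    intro α hα
    by_contra hne
    have h1 := hR (subset_tsupport w hne)
    rw [mem_closedBall_zero_iff, Real.norm_eq_abs] at h1
    have := le_max_left R 1
    linarith
  have h1 : IntegrableOn (uT T) (Icc (-K) K) := by
    have h2 := uT_ii hT (-K) K
    have : -K ≤ K := by
      have : 1 ≤ K := le_max_right _ _
      linarith
    rwa [intervalIntegrable_iff_integrableOn_Icc_of_le this] at h2
  have h3 : Integrable ((Icc (-K) K).indicator (uT T)) :=
    (integrable_indicator_iff measurableSet_Icc).2 h1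
  have h4 : Integrable fun α => w α * (Icc (-K) K).indicator (uT T) α := by
    refine h3.bdd_mul (c := m) hc.aestronglyMeasurable (ae_of_all _ hm)
  refine h4.congr (ae_of_all _ fun α => ?_)
  by_cases h5 : α ∈ Icc (-K) K
  · simp only [indicator_of_mem h5]
  · simp only [indicator_of_notMem h5]
    rw [hz α, zero_mul, zero_mul]
    by_contra hcon
    exact h5 (abs_le.1 (not_lt.1 hcon))

/-- scaling -/
lemma scale_int {T : ℝ} (hT : 1 < T) (w : ℝ → ℝ) :
    T / Real.log T ^ 2 * (∫ y : ℝ, w (y / Real.log T) * DT T y ^ 2) = ∫ α : ℝ, w α * uT T α := by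
  have hL := Real.log_pos hT
  have h := Measure.integral_comp_div (fun α : ℝ => w α * DT T (α * Real.log T) ^ 2) (Real.log T)
  have e : ∀ y : ℝ, w (y / Real.log T) * DT T (y / Real.log T * Real.log T) ^ 2 =
      w (y / Real.log T) * DT T y ^ 2 := by
    intro y
    rw [div_mul_cancel₀ _ hL.ne']
  simp_rw [e] at h
  rw [h, abs_of_pos hL, smul_eq_mul, ← mul_assoc]
  have e2 : T / Real.log T ^ 2 * Real.log T = T / Real.log T := by
    field_simp
  rw [e2, ← integral_const_mul]
  congr 1
  funext α
  unfold uT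
  ring

lemma scale_ii {T : ℝ} (hT : 1 < T) (a b : ℝ) :
    T / Real.log T ^ 2 * (∫ y in (a * Real.log T)..(b * Real.log T), DT T y ^ 2) =
      ∫ α in a..b, uT T α := by
  have hL := Real.log_pos hT
  have h := intervalIntegral.integral_comp_mul_right (a := a) (b := b) (fun y => DT T y ^ 2) hL.ne'
  unfold uT
  rw [intervalIntegral.integral_const_mul, h, smul_eq_mul]
  have e2 : T / Real.log T ^ 2 = T / Real.log T * (Real.log T)⁻¹ := by
    field_simp
  rw [e2]
  ring

/-- the variance as an integral of the scaled square -/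
lemma GV_eq {T : ℝ} (hT : 1 < T) {a b : ℝ} (hab : a ≤ b) : GV T a b = ∫ α in a..b, uT T α := by
  have hL := Real.log_pos hT
  have hT0 : 0 < T := by linarith
  rw [← scale_ii hT]
  unfold GV
  congr 1
  have e1 : ∀ c : ℝ, T ^ c = Real.exp (c * Real.log T) := fun c => by
    rw [Real.rpow_def_of_pos hT0, mul_comm]
  rw [e1, e1, intervalIntegral.integral_of_le (Real.exp_le_exp.2 (by gcongr)),
    intervalIntegral.integral_of_le (by gcongr)]
  have himg : Real.exp '' Ioc (a * Real.log T) (b * Real.log T) =
      Ioc (Real.exp (a * Real.log T)) (Real.exp (b * Real.log T)) := by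
    ext x
    constructor
    · rintro ⟨u, hu, rfl⟩
      exact ⟨Real.exp_lt_exp.2 hu.1, Real.exp_le_exp.2 hu.2⟩
    · rintro ⟨h1, h2⟩
      have hx : 0 < x := (Real.exp_pos _).trans h1
      refine ⟨Real.log x, ⟨?_, ?_⟩, Real.exp_log hx⟩
      · rwa [Real.lt_log_iff_exp_lt hx]
      · rwa [Real.log_le_iff_le_exp hx]
  rw [← himg, integral_image_eq_integral_abs_deriv_smul measurableSet_Ioc
    (fun x _ => (Real.hasDerivAt_exp x).hasDerivWithinAt) Real.exp_injective.injOn]
  refine setIntegral_congr_fun measurableSet_Ioc fun y _ => ?_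
  have hy := Real.exp_pos y
  show |Real.exp y| • _ = _
  rw [abs_of_pos hy, smul_eq_mul]
  unfold DT
  have e3 : Real.exp y * (1 + 1 / T) = Real.exp y + Real.exp y / T := by ring
  have e4 : Real.exp (-(y / 2)) ^ 2 = (Real.exp y)⁻¹ := by
    rw [← Real.exp_neg, ← Real.exp_nat_mul]
    congr 1
    push_cast
    ring
  rw [mul_pow, e3, e4]
  field_simp

/-- exchange of the order of integration -/
theorem fub_win {ρ u : ℝ → ℝ} (Hρ : SC ρ) (hu : ∀ a b, IntervalIntegrable u volume a b)
    {δ : ℝ} (hδ : 0 < δ) (c : ℝ) :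
    ∫ α in Ioi c, Wn (-δ) 0 ρ α * u α = ∫ s : ℝ, ρ s * ∫ α in (max c s)..(max c (s + δ)), u α := by
  have hρc := Hρ.cont
  obtain ⟨R, hR⟩ := Hρ.cs.isCompact.isBounded.subset_closedBall 0
  set K : ℝ := max R 1 + δ with hK
  have hz : ∀ s, K - δ < |s| → ρ s = 0 := by
    intro α hα
    by_contra hne
    have h1 := hR (subset_tsupport ρ hne)
    rw [mem_closedBall_zero_iff, Real.norm_eq_abs] at h1
    have := le_max_left R 1
    rw [hK] at hα
    linarith
  set v : ℝ → ℝ := (Icc (-K) K).indicator u with hv
  have hvi : Integrable v := by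
    rw [hv, integrable_indicator_iff measurableSet_Icc]
    have h2 := hu (-K) K
    have : -K ≤ K := by
      have : 1 ≤ max R 1 := le_max_right _ _
      rw [hK]
      linarith
    rwa [intervalIntegrable_iff_integrableOn_Icc_of_le this] at h2
  have hρi : Integrable ρ := hρc.integrable_of_hasCompactSupport Hρ.cs
  set S : Set (ℝ × ℝ) := {p | p.1 < p.2 ∧ p.2 ≤ p.1 + δ ∧ c < p.2} with hS
  have hSm : MeasurableSet S := by
    refine (measurableSet_lt measurable_fst measurable_snd).inter
      ((measurableSet_le measurable_snd (by fun_prop)).inter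
        (measurableSet_lt measurable_const measurable_snd))
  have hF : Integrable (S.indicator fun p : ℝ × ℝ => ρ p.1 * v p.2) :=
    (hρi.mul_prod hvi).indicator hSm
  have hsw := integral_integral_swap (f := fun s α => S.indicator (fun p : ℝ × ℝ => ρ p.1 * v p.2) (s, α))
    (μ := volume) (ν := volume) hF
  have e1 : ∀ s : ℝ, ∫ α : ℝ, S.indicator (fun p : ℝ × ℝ => ρ p.1 * v p.2) (s, α) =
      ρ s * ∫ α in (max c s)..(max c (s + δ)), u α := by
    intro s
    by_cases h0 : ρ s = 0
    · rw [h0, zero_mul]
      have : ∀ α : ℝ, S.indicator (fun p : ℝ × ℝ => ρ p.1 * v p.2) (s, α) = 0 := by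
        intro α
        rw [indicator_apply]
        split_ifs
        · show ρ s * v α = 0
          rw [h0, zero_mul]
        · rfl
      simp_rw [this]
      exact integral_zero _ _
    · have hs : |s| ≤ K - δ := by
        by_contra hcon
        exact h0 (hz s (not_le.1 hcon))
      obtain ⟨s1, s2⟩ := abs_le.1 hs
      rw [intervalIntegral.integral_of_le (max_le_max le_rfl (by linarith)), ← integral_const_mul,
        ← integral_indicator measurableSet_Ioc]
      congr 1
      funext α
      rw [indicator_apply, indicator_apply]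
      by_cases h1 : (s, α) ∈ S
      · obtain ⟨a1, a2, a3⟩ := h1
        simp only at a1 a2 a3
        rw [if_pos (show (s, α) ∈ S from ⟨a1, a2, a3⟩), if_pos ⟨max_lt a3 a1, le_max_of_le_right a2⟩]
        show ρ s * v α = ρ s * u α
        rw [hv, indicator_of_mem]
        exact ⟨by linarith, by linarith⟩
      · rw [if_neg h1, if_neg]
        rintro ⟨b1, b2⟩
        apply h1
        have b3 : c < α := lt_of_le_of_lt (le_max_left _ _) b1
        have b4 : s < α := lt_of_le_of_lt (le_max_right _ _) b1
        refine ⟨b4, ?_, b3⟩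
        rcases le_max_iff.1 b2 with h | h
        · exact absurd h (not_le.2 b3)
        · exact h
  have e2 : ∀ α : ℝ, ∫ s : ℝ, S.indicator (fun p : ℝ × ℝ => ρ p.1 * v p.2) (s, α) =
      (Ioi c).indicator (fun α => Wn (-δ) 0 ρ α * u α) α := by
    intro α
    rw [indicator_apply]
    by_cases hc : α ∈ Ioi c
    · rw [if_pos hc]
      have hW : Wn (-δ) 0 ρ α = ∫ s : ℝ, (Ico (α - δ) α).indicator ρ s := by
        unfold Wn
        rw [integral_indicator measurableSet_Ico, intervalIntegral.integral_of_le (by linarith),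
          integral_Ioc_eq_integral_Ioo, integral_Ico_eq_integral_Ioo, add_zero, ← sub_eq_add_neg]
      rw [hW, ← integral_mul_const]
      congr 1
      funext s
      rw [indicator_apply, indicator_apply]
      by_cases h1 : (s, α) ∈ S
      · obtain ⟨a1, a2, a3⟩ := h1
        simp only at a1 a2 a3
        rw [if_pos (show (s, α) ∈ S from ⟨a1, a2, a3⟩), if_pos (show s ∈ Ico (α - δ) α from
          ⟨by linarith, a1⟩)]
        show ρ s * v α = ρ s * u α
        by_cases h0 : ρ s = 0
        · rw [h0, zero_mul, zero_mul]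
        · have hs : |s| ≤ K - δ := by
            by_contra hcon
            exact h0 (hz s (not_le.1 hcon))
          obtain ⟨s1, s2⟩ := abs_le.1 hs
          rw [hv, indicator_of_mem]
          exact ⟨by linarith, by linarith⟩
      · rw [if_neg h1, if_neg, zero_mul]
        rintro ⟨b1, b2⟩
        exact h1 ⟨b2, by simp only; linarith, hc⟩
    · rw [if_neg hc]
      have : ∀ s : ℝ, S.indicator (fun p : ℝ × ℝ => ρ p.1 * v p.2) (s, α) = 0 := by
        intro s
        rw [indicator_of_notMem]
        rintro ⟨-, -, b⟩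
        exact hc b
      simp_rw [this]
      exact integral_zero _ _
  simp_rw [e1] at hsw
  simp_rw [e2] at hsw
  rw [hsw, integral_indicator measurableSet_Ioi]

end Pool.Agent.N804.PV
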