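import Pool.Agent.Y23.We5
import Pool.Agent.N804.PV.Def

set_option autoImplicit false

/-! # Project PV: the explicit formula, statements -/

namespace Pool.Agent.N804.PV

open Filter Topology Set MeasureTheory
open Pool.Agent.Y23 (ZZ YL Lam Zt mu Dec)

/-- PV1a: the archimedean part and the line on the left -/
def S_PV1a : Prop := ∃ C : ℝ, 0 < C ∧ ∀ T : ℝ, 2 ≤ T → ∀ ε : ℝ, 0 < ε → ε ≤ 1 → ∀ y : ℝ, 0 ≤ y →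
  ‖(∫ t : ℝ, YL ⟨1, t⟩ * hT T ε y ⟨1, t⟩) - 2 * Real.pi * hT T ε y (1 / 2)‖ ≤
    C * Real.exp (-y) * (1 + Real.log (1 / ε)) ^ 2 ∧
  ‖∫ t : ℝ, ZZ ⟨1, t⟩ * hT T ε y (-⟨1, t⟩)‖ ≤ C * Real.exp (-y) * (1 + Real.log (1 / ε)) ^ 2

/-- PV1b: the prime side -/
def S_PV1b : Prop := ∀ T : ℝ, 2 ≤ T → ∀ ε : ℝ, 0 < ε → ε ≤ 1 → ∀ y : ℝ,
  (∫ t : ℝ, H370.DD Lam ⟨3 / 2, t⟩ * hT T ε y ⟨1, t⟩) - 2 * Real.pi * hT T ε y (1 / 2) =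
    2 * Real.pi * (DS T ε y : ℂ)

/-- PV1d: the test function decays -/
def S_PV1d : Prop := ∀ T : ℝ, 2 ≤ T → ∀ ε : ℝ, 0 < ε → ε ≤ 1 → ∃ M : ℝ, 0 ≤ M ∧ ∀ y : ℝ,
  Dec (hT T ε y) (M * Real.exp |y|) (ε ^ 2 / 2) ∧
  ∀ w : ℂ, |w.re| ≤ 1 / 2 → ‖hT T ε y w‖ ≤ M * Real.exp (|y| / 2) * Real.exp (-(ε ^ 2 / 2) * w.im ^ 2)

end Pool.Agent.N804.PV
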