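import Pool.Agent.N804.PV.Def

set_option autoImplicit false

/-! # Project PV: the integral over `1 ≤ x ≤ T` (statements) -/

namespace Pool.Agent.N804.PV

open Filter Topology Set MeasureTheory

/-- LAM2: the sum of `Λ(n)² / n` -/
def S_LAM2 : Prop := Tendsto (fun T : ℝ => (∑ n ∈ Finset.Icc 1 ⌊T⌋₊,
  ArithmeticFunction.vonMangoldt n ^ 2 / (n : ℝ)) / Real.log T ^ 2) atTop (𝓝 (1 / 2))

/-- G01: the variance over `1 ≤ x ≤ T` -/
def S_G01 : Prop := Tendsto (fun T : ℝ => GV T 0 1) atTop (𝓝 (1 / 2))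

end Pool.Agent.N804.PV
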