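import Pool.Agent.N804.PV.DefW
import Pool.Agent.N804.Abs2

set_option autoImplicit false

/-! # Slow variation of the prime variance -/

namespace Pool.Agent.N804.PV

open Filter Topology Set MeasureTheory
open Pool.Agent.N804

lemma DT_diff {T T1 : ℝ} (hT : 1 < T) (hT1 : T < T1) (y : ℝ) :
    DT T y - DT T1 y = Real.exp (Real.log (1 + 1 / T1) / 2) *
      DT ((1 + 1 / T1) * (T * T1 / (T1 - T))) (y + Real.log (1 + 1 / T1)) := by
  have h0 : 0 < T1 := by linarith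
  have hT0 : 0 < T := by linarith
  have hd : 0 < T1 - T := by linarith
  have hp : 0 < 1 + 1 / T1 := by positivity
  unfold DT
  have e1 : Real.exp (y + Real.log (1 + 1 / T1)) = Real.exp y * (1 + 1 / T1) := by
    rw [Real.exp_add, Real.exp_log hp]
  have e2 : Real.exp (Real.log (1 + 1 / T1) / 2) *
      Real.exp (-((y + Real.log (1 + 1 / T1)) / 2)) = Real.exp (-(y / 2)) := by
    rw [← Real.exp_add]; congr 1; ring
  rw [e1, ← mul_assoc, e2]
  have e3 : Real.exp y * (1 + 1 / T1) * (1 + 1 / ((1 + 1 / T1) * (T * T1 / (T1 - T)))) =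
      Real.exp y * (1 + 1 / T) := by
    field_simp; ring
  have e4 : Real.exp y * (1 + 1 / T1) / ((1 + 1 / T1) * (T * T1 / (T1 - T))) =
      Real.exp y / T - Real.exp y / T1 := by
    field_simp
  rw [e3, e4]; ring

/-- measurable and locally bounded -/
structure LB (g : ℝ → ℝ) : Prop where
  m : Measurable g
  b : ∀ R : ℝ, ∃ C : ℝ, ∀ y : ℝ, |y| ≤ R → |g y| ≤ C

lemma LB.mul {f g : ℝ → ℝ} (hf : LB f) (hg : LB g) : LB fun y => f y * g y := by
  refine ⟨hf.m.mul hg.m, fun R => ?_⟩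
  obtain ⟨C, hC⟩ := hf.b R
  obtain ⟨D, hD⟩ := hg.b R
  refine ⟨C * D, fun y hy => ?_⟩
  rw [abs_mul]
  exact mul_le_mul (hC y hy) (hD y hy) (abs_nonneg _) ((abs_nonneg _).trans (hC y hy))

lemma LB.add {f g : ℝ → ℝ} (hf : LB f) (hg : LB g) : LB fun y => f y + g y := by
  refine ⟨hf.m.add hg.m, fun R => ?_⟩
  obtain ⟨C, hC⟩ := hf.b R
  obtain ⟨D, hD⟩ := hg.b R
  refine ⟨C + D, fun y hy => ?_⟩
  exact (abs_add_le _ _).trans (add_le_add (hC y hy) (hD y hy))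

lemma LB.sub {f g : ℝ → ℝ} (hf : LB f) (hg : LB g) : LB fun y => f y - g y := by
  refine ⟨hf.m.sub hg.m, fun R => ?_⟩
  obtain ⟨C, hC⟩ := hf.b R
  obtain ⟨D, hD⟩ := hg.b R
  refine ⟨C + D, fun y hy => ?_⟩
  exact (abs_sub _ _).trans (add_le_add (hC y hy) (hD y hy))

lemma LB.sq {f : ℝ → ℝ} (hf : LB f) : LB fun y => f y ^ 2 := by
  simpa only [pow_two] using hf.mul hf

lemma LB.cmul {f : ℝ → ℝ} (hf : LB f) (c : ℝ) : LB fun y => c * f y := by
  refine ⟨hf.m.const_mul c, fun R => ?_⟩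
  obtain ⟨C, hC⟩ := hf.b R
  refine ⟨|c| * C, fun y hy => ?_⟩
  rw [abs_mul]
  exact mul_le_mul_of_nonneg_left (hC y hy) (abs_nonneg _)

lemma LB.shift {f : ℝ → ℝ} (hf : LB f) (h : ℝ) : LB fun y => f (y + h) := by
  refine ⟨hf.m.comp (measurable_id.add_const h), fun R => ?_⟩
  obtain ⟨C, hC⟩ := hf.b (R + |h|)
  exact ⟨C, fun y hy => hC _ ((abs_add_le _ _).trans (by linarith))⟩

lemma DT_LB {T : ℝ} (hT : 1 < T) : LB (DT T) := ⟨DT_meas T, DT_bd hT⟩

/-- integrability against a bounded function with bounded support -/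
lemma LB.int {g : ℝ → ℝ} (hg : LB g) {v : ℝ → ℝ} (hv : Measurable v) {M R : ℝ}
    (hM : ∀ y, |v y| ≤ M) (hz : ∀ y, R < |y| → v y = 0) : Integrable fun y => v y * g y := by
  obtain ⟨C, hC⟩ := hg.b R
  have h1 : IntegrableOn (fun y => v y * g y) (Icc (-R) R) := by
    refine Measure.integrableOn_of_bounded (M := M * C) (by simp) (hv.mul hg.m).aestronglyMeasurable
      ((ae_restrict_mem measurableSet_Icc).mono fun y hy => ?_)
    rw [Real.norm_eq_abs, abs_mul]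
    exact mul_le_mul (hM y) (hC y (abs_le.2 hy)) (abs_nonneg _) ((abs_nonneg _).trans (hM y))
  rw [← integrable_indicator_iff measurableSet_Icc] at h1
  refine h1.congr (ae_of_all _ fun y => ?_)
  by_cases h5 : y ∈ Icc (-R) R
  · simp only [indicator_of_mem h5]
  · simp only [indicator_of_notMem h5]
    rw [hz y, zero_mul]
    by_contra hcon
    exact h5 (abs_le.1 (not_lt.1 hcon))

lemma SC.bdd {w : ℝ → ℝ} (hw : SC w) : ∃ M R : ℝ, 0 < M ∧ 0 < R ∧ (∀ x, |w x| ≤ M) ∧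
    ∀ x, R < |x| → w x = 0 := by
  obtain ⟨A, hA, hAs⟩ := hw.supp
  obtain ⟨M, hM⟩ := hw.cont.bounded_above_of_compact_support hw.cs
  exact ⟨max M 1, A, by positivity, hA, fun x => (hM x).trans (le_max_left _ _), hAs⟩

lemma int_sc {w : ℝ → ℝ} (hw : SC w) {c : ℝ} (hc : 0 < c) {g : ℝ → ℝ} (hg : LB g) :
    Integrable fun y => w (y / c) * g y := by
  obtain ⟨M, R, -, -, h1, h2⟩ := SC.bdd hw
  refine hg.int (M := M) (R := R * c) (hw.cont.measurable.comp (measurable_id.div_const c))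
    (fun y => h1 _) fun y hy => h2 _ ?_
  rw [abs_div, abs_of_pos hc, lt_div_iff₀ hc]
  exact hy

lemma int_sca {w : ℝ → ℝ} (hw : SC w) {c : ℝ} (hc : 0 < c) {g : ℝ → ℝ} (hg : LB g) :
    Integrable fun y => |w (y / c)| * g y := by
  obtain ⟨M, R, -, -, h1, h2⟩ := SC.bdd hw
  refine hg.int (v := fun y => |w (y / c)|) (M := M) (R := R * c)
    (hw.cont.measurable.comp (measurable_id.div_const c)).abs
    (fun y => by rw [abs_abs]; exact h1 _) fun y hy => ?_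
  rw [h2 _ (by rw [abs_div, abs_of_pos hc, lt_div_iff₀ hc]; exact hy), abs_zero]

/-- the data of the comparison -/
structure CD (w W : ℝ → ℝ) (A1 a A M : ℝ) : Prop where
  hw : SC w
  hW : SC W
  W0 : ∀ x, 0 ≤ W x
  W1 : ∀ x, a ≤ x → x ≤ A + 1 → W x = 1
  z1 : ∀ x, x ≤ A1 → w x = 0
  z2 : ∀ x, A < x → w x = 0
  ha : 0 < a
  hA : 0 < A
  hM : 0 < M
  haA : a < A1
  bd : ∀ x, |w x| ≤ M
  lip : ∀ x y, |w x - w y| ≤ M * |x - y|

lemma CD.comp {w W : ℝ → ℝ} {A1 a A M : ℝ} (H : CD w W A1 a A M) {L L' h : ℝ} (hL : 1 ≤ L)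
    (hLL : L ≤ L') (hc : 1 + a * (L' - L) ≤ (A1 - a) * L) (hh : |h| ≤ 1) (y : ℝ)
    (hy1 : A1 < y / L) (hy2 : y / L ≤ A) : W ((y + h) / L') = 1 := by
  obtain ⟨h1, h2⟩ := abs_le.1 hh
  have hL0 : 0 < L := by linarith
  have hL0' : 0 < L' := by linarith
  rw [lt_div_iff₀ hL0] at hy1
  rw [div_le_iff₀ hL0] at hy2
  have hA := H.hA
  have ha := H.ha
  refine H.W1 _ ?_ ?_
  · rw [le_div_iff₀ hL0']
    nlinarith
  · rw [div_le_iff₀ hL0']
    nlinarith

lemma CD.comp' {w W : ℝ → ℝ} {A1 a A M : ℝ} (H : CD w W A1 a A M) {L L' h : ℝ} (hL : 1 ≤ L)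
    (hLL : L ≤ L') (hc : 1 + a * (L' - L) ≤ (A1 - a) * L) (hh : |h| ≤ 1) (y : ℝ) :
    |w (y / L)| ≤ M * W ((y + h) / L') := by
  have hM := H.hM
  have hW0 := H.W0 ((y + h) / L')
  by_cases h1 : y / L ≤ A1
  · rw [H.z1 _ h1, abs_zero]; positivity
  by_cases h2 : A < y / L
  · rw [H.z2 _ h2, abs_zero]; positivity
  rw [H.comp hL hLL hc hh y (not_le.1 h1) (not_lt.1 h2), mul_one]
  exact H.bd _

/-- the scaled integral in terms of the weighted one -/
lemma sc_le {W : ℝ → ℝ} {C T : ℝ} (hT : 1 < T) (hC : ∫ α : ℝ, W α * uT T α ≤ C) :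
    ∫ y : ℝ, W (y / Real.log T) * DT T y ^ 2 ≤ C * (Real.log T ^ 2 / T) := by
  rw [← scale_int hT] at hC
  have hL := Real.log_pos hT
  have hT0 : 0 < T := by linarith
  have h1 : ∫ y : ℝ, W (y / Real.log T) * DT T y ^ 2 =
      (T / Real.log T ^ 2 * ∫ y : ℝ, W (y / Real.log T) * DT T y ^ 2) * (Real.log T ^ 2 / T) := by
    field_simp
  rw [h1]
  gcongr

end Pool.Agent.N804.PV
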