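import Pool.Agent.N804.PV.En

set_option autoImplicit false

/-! # From averages to counting functions -/

namespace Pool.Agent.N804.PV

open Filter Topology Set MeasureTheory
open H370 (Zf mult mem_Zf good_zeta zset NN NN_eq)
open Pool.Agent.N804

/-- pairs of zeros up to the height `V` -/
noncomputable def PZ (V : ℝ) : Finset (ℂ × ℂ) := Zf riemannZeta 0 V ×ˢ Zf riemannZeta 0 V

/-- the indicator of close pairs -/
noncomputable def FX (T x : ℝ) (s s' : ℂ) : ℝ := by
  classical
  exact if 0 < s.im - s'.im ∧ s.im - s'.im ≤ 2 * Real.pi * x / Real.log T then 1 else 0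

lemma FX_nonneg (T x : ℝ) (s s' : ℂ) : 0 ≤ FX T x s s' := by
  unfold FX
  split_ifs <;> norm_num

/-- the weights of the pairs -/
noncomputable def cT (T x : ℝ) (i : ℂ × ℂ) : ℝ :=
  (mult riemannZeta i.1 : ℝ) * (mult riemannZeta i.2 : ℝ) * FX T x i.1 i.2 / XX T

lemma cT_nonneg {T : ℝ} (hT : 1 < T) (x : ℝ) (i : ℂ × ℂ) : 0 ≤ cT T x i := by
  unfold cT
  have := FX_nonneg T x i.1 i.2
  have := XX_pos hT
  positivity

lemma mem_PZ {V W : ℝ} (h : V ≤ W) {i : ℂ × ℂ} :
    i ∈ PZ V ↔ i ∈ PZ W ∧ max i.1.im i.2.im ≤ V := by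
  unfold PZ
  rw [Finset.mem_product, Finset.mem_product, mem_ZT, mem_ZT, mem_ZT, mem_ZT]
  constructor
  · rintro ⟨⟨a1, a2, a3⟩, b1, b2, b3⟩
    exact ⟨⟨⟨a1, a2, a3.trans h⟩, b1, b2, b3.trans h⟩, max_le a3 b3⟩
  · rintro ⟨⟨⟨a1, a2, -⟩, b1, b2, -⟩, c⟩
    exact ⟨⟨a1, a2, (le_max_left _ _).trans c⟩, b1, b2, (le_max_right _ _).trans c⟩

lemma PZ_sub {V W : ℝ} (h : V ≤ W) : PZ V ⊆ PZ W := fun _ hi => ((mem_PZ h).1 hi).1

lemma PZ_pos {T V : ℝ} (hT : 0 < T) {i : ℂ × ℂ} (hi : i ∈ PZ V) : 0 < max i.1.im i.2.im / T := by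
  unfold PZ at hi
  rw [Finset.mem_product, mem_ZT, mem_ZT] at hi
  exact div_pos (lt_of_lt_of_le hi.1.2.1 (le_max_left _ _)) hT

/-- sums over the pairs up to `T` -/
lemma CF_PZ (T x : ℝ) : CF T x = ∑ i ∈ PZ T, cT T x i := by
  classical
  unfold CF cT PZ
  rw [← Finset.sum_div, Finset.sum_product, ← sum_Pc]
  rfl

/-- uniform bounds -/
lemma cT_bd (hb : S_ABELB) : ∃ B T0 : ℝ, 0 < B ∧ 10 ≤ T0 ∧ ∀ T : ℝ, T0 ≤ T → ∀ x : ℝ, 0 ≤ x →
    ∀ v : ℝ, 0 < v → ∑ i ∈ PZ (T ^ 2), (if max i.1.im i.2.im / T ≤ v then cT T x i else 0) ≤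
      B * (1 + x) * (1 + v) := by
  classical
  obtain ⟨C, hC, h⟩ := PW_bd hb
  obtain ⟨B, T0, hB, hT0, hp⟩ := Pc_scale
  refine ⟨B, T0, hB, hT0, fun T hT x hx => ?_⟩
  have hT1 : 1 < T := by linarith
  have h3 := (h T hT1 (FX T x) (B * (1 + x)) (by positivity) (FX_nonneg T x) fun V h1 h2 => by
        have := (hp T hT V h1 h2).2 x hx
        rw [← sum_Pc] at this
        exact this).2
  exact h3

/-- the full sum -/
lemma full (U x : ℝ) : ∑ i ∈ PZ (U ^ 2), ph (max i.1.im i.2.im / U) * cT U x i =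
    Real.pi * CA U x := by
  have e : CA U x = PW U (FX U x) := rfl
  have hpi := Real.pi_pos
  rw [e, PW_prod, ← mul_assoc, mul_one_div_cancel hpi.ne', one_mul]
  rfl

/-- the tail -/
lemma tail_bd (hb : S_ABELB) : ∃ C T0 : ℝ, 0 < C ∧ 10 ≤ T0 ∧ ∀ U : ℝ, T0 ≤ U → ∀ x : ℝ, 0 ≤ x →
    ∀ R : ℝ, 1 ≤ R → ∑ i ∈ PZ (U ^ 2), (if R ≤ max i.1.im i.2.im / U then
      ph (max i.1.im i.2.im / U) * cT U x i else 0) ≤ C * (1 + x) / R := by
  obtain ⟨B, T0, hB, hT0, h⟩ := cT_bd hb
  obtain ⟨C, hC, h2⟩ := hb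
  refine ⟨C * B, T0, by positivity, hT0, fun U hU x hx R hR => ?_⟩
  have hU1 : 1 < U := by linarith
  have h3 := (h2 (ℂ × ℂ) (PZ (U ^ 2)) (fun i => max i.1.im i.2.im / U) (cT U x) (B * (1 + x))
    (by positivity) (fun i hi => ⟨PZ_pos (by linarith) hi, cT_nonneg hU1 x i⟩)
    (h U hU x hx) 1 one_pos).2 R hR
  simp only [div_one] at h3
  refine h3.trans (le_of_eq ?_)
  ring

/-- the ratio of the logarithms -/
lemma log_ratio {lam : ℝ} (hl : 0 < lam) :
    Tendsto (fun T : ℝ => Real.log (lam * T) / Real.log T) atTop (𝓝 1) := by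
  have h1 : Tendsto (fun T : ℝ => Real.log lam / Real.log T + 1) atTop (𝓝 (0 + 1)) :=
    (tendsto_const_nhds.div_atTop Real.tendsto_log_atTop).add_const 1
  rw [zero_add] at h1
  refine h1.congr' ?_
  filter_upwards [eventually_gt_atTop 1] with T hT
  have hL := Real.log_pos hT
  rw [Real.log_mul hl.ne' (by linarith)]
  field_simp

lemma FX_scale {T U : ℝ} (hT : 1 < T) (hU : 1 < U) (x : ℝ) :
    FX T x = FX U (x * (Real.log U / Real.log T)) := by
  have h1 := Real.log_pos hT
  have h2 := Real.log_pos hU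
  have e : 2 * Real.pi * x / Real.log T =
      2 * Real.pi * (x * (Real.log U / Real.log T)) / Real.log U := by
    field_simp
  funext s s'
  unfold FX
  rw [e]

lemma cT_scale {T U : ℝ} (hT : 1 < T) (hU : 1 < U) (x : ℝ) (i : ℂ × ℂ) :
    cT T x i = XX U / XX T * cT U (x * (Real.log U / Real.log T)) i := by
  have h1 := XX_pos hT
  have h2 := XX_pos hU
  unfold cT
  rw [FX_scale hT hU]
  field_simp

/-- the averaged counting function near the scale -/
lemma CA_scale (h : ∀ x : ℝ, 0 < x → Tendsto (fun T => CA T x) atTop (𝓝 (PP x))) {lam x : ℝ}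
    (hl : 0 < lam) (hx : 0 < x) :
    Tendsto (fun T => CA (lam * T) (x * (Real.log (lam * T) / Real.log T))) atTop (𝓝 (PP x)) := by
  have hU : Tendsto (fun T : ℝ => lam * T) atTop atTop := tendsto_id.const_mul_atTop hl
  have h1 : Tendsto (fun T : ℝ => x * (Real.log (lam * T) / Real.log T)) atTop (𝓝 x) := by
    have := (log_ratio hl).const_mul x
    rwa [mul_one] at this
  have hPc := PP_cont.continuousAt (x := x)
  refine tendsto_order.2 ⟨fun y hy => ?_, fun y hy => ?_⟩
  · obtain ⟨τ, hτ, h2⟩ := Metric.eventually_nhds_iff.1 (hPc.eventually (lt_mem_nhds hy))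
    obtain ⟨z, hz1, hz2⟩ : ∃ z, max (x / 2) (x - τ) < z ∧ z < x :=
      exists_between (max_lt (by linarith) (by linarith))
    have hz0 : 0 < z := lt_of_lt_of_le (by positivity) ((le_max_left _ _).trans hz1.le)
    have h3 : y < PP z := h2 (by
      rw [Real.dist_eq, abs_lt]
      have := (le_max_right (x / 2) (x - τ)).trans_lt hz1
      constructor <;> linarith)
    filter_upwards [((h z hz0).comp hU).eventually (lt_mem_nhds h3), h1.eventually (lt_mem_nhds hz2),
      hU.eventually_ge_atTop 2] with T a1 a2 a3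
    exact a1.trans_le (CA_mono (by linarith) a2.le)
  · obtain ⟨τ, hτ, h2⟩ := Metric.eventually_nhds_iff.1 (hPc.eventually (gt_mem_nhds hy))
    have hz2 : x < x + τ / 2 := by linarith
    have h3 : PP (x + τ / 2) < y := h2 (by
      rw [Real.dist_eq, abs_lt]
      constructor <;> linarith)
    filter_upwards [((h (x + τ / 2) (by linarith)).comp hU).eventually (gt_mem_nhds h3),
      h1.eventually (gt_mem_nhds hz2), hU.eventually_ge_atTop 2] with T a1 a2 a3
    exact (CA_mono (by linarith) a2.le).trans_lt a1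

/-- the ratio of the sizes -/
lemma XX_lim {lam : ℝ} (hl : 0 < lam) : Tendsto (fun T : ℝ => XX (lam * T) / XX T) atTop (𝓝 lam) := by
  have h1 := (log_ratio hl).const_mul lam
  rw [mul_one] at h1
  refine h1.congr' ?_
  filter_upwards [eventually_gt_atTop 1] with T hT
  have hL := Real.log_pos hT
  have hpi := Real.pi_pos
  unfold XX
  field_simp

/-- the sums with the weight at the scale `lam` -/
theorem lam_lim (hb : S_ABELB) (h : ∀ x : ℝ, 0 < x → Tendsto (fun T => CA T x) atTop (𝓝 (PP x)))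
    {lam x : ℝ} (hl : 0 < lam) (hx : 0 < x) :
    Tendsto (fun T => ∑ i ∈ PZ (T * Real.sqrt T), ph (max i.1.im i.2.im / T / lam) * cT T x i) atTop
      (𝓝 (Real.pi * lam * PP x)) := by
  classical
  obtain ⟨C, T0, hC, hT0, ht⟩ := tail_bd hb
  have hU : Tendsto (fun T : ℝ => lam * T) atTop atTop := tendsto_id.const_mul_atTop hl
  set E : ℝ → ℝ := fun T => Real.pi * CA (lam * T) (x * (Real.log (lam * T) / Real.log T)) -
    ∑ i ∈ PZ (T * Real.sqrt T), ph (max i.1.im i.2.im / (lam * T)) *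
      cT (lam * T) (x * (Real.log (lam * T) / Real.log T)) i with hE
  have hsq : Tendsto (fun T : ℝ => Real.sqrt T / lam) atTop atTop :=
    Real.tendsto_sqrt_atTop.atTop_div_const hl
  have h1 : Tendsto (fun T : ℝ => x * (Real.log (lam * T) / Real.log T)) atTop (𝓝 x) := by
    have := (log_ratio hl).const_mul x
    rwa [mul_one] at this
  have hE0 : Tendsto E atTop (𝓝 0) := by
    have hz : Tendsto (fun T : ℝ => C * (1 + 2 * x) / (Real.sqrt T / lam)) atTop (𝓝 0) :=
      tendsto_const_nhds.div_atTop hsq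
    refine squeeze_zero' ?_ ?_ hz
    all_goals
      filter_upwards [hU.eventually_ge_atTop T0, eventually_ge_atTop 2,
        hsq.eventually_ge_atTop 1, h1.eventually (gt_mem_nhds (show x < 2 * x by linarith)),
        Real.tendsto_sqrt_atTop.eventually_ge_atTop (1 / lam ^ 2),
        h1.eventually (lt_mem_nhds (show 0 < x from hx))]
        with T g1 g2 g3 g4 g5 g6
      have hU1 : 1 < lam * T := by linarith
      have hs0 : 0 ≤ Real.sqrt T := Real.sqrt_nonneg T
      have hsT : Real.sqrt T * Real.sqrt T = T := Real.mul_self_sqrt (by linarith)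
      have hsub : T * Real.sqrt T ≤ (lam * T) ^ 2 := by
        rw [div_le_iff₀ (by positivity)] at g5
        calc T * Real.sqrt T = T * (Real.sqrt T * 1) := by ring
          _ ≤ T * (Real.sqrt T * (Real.sqrt T * lam ^ 2)) := by gcongr
          _ = T * ((Real.sqrt T * Real.sqrt T) * lam ^ 2) := by ring
          _ = (lam * T) ^ 2 := by rw [hsT]; ring
      have hEe : E T = ∑ i ∈ PZ ((lam * T) ^ 2) \ PZ (T * Real.sqrt T),
          ph (max i.1.im i.2.im / (lam * T)) *
            cT (lam * T) (x * (Real.log (lam * T) / Real.log T)) i := by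
        simp only [hE]
        rw [← full, ← Finset.sum_sdiff (PZ_sub hsub)]
        ring
    · rw [hEe]
      exact Finset.sum_nonneg fun i _ => mul_nonneg (ph_nonneg _) (cT_nonneg hU1 _ _)
    · rw [hEe]
      have h2 := ht (lam * T) g1 (x * (Real.log (lam * T) / Real.log T)) g6.le (Real.sqrt T / lam) g3
      refine le_trans ?_ (h2.trans ?_)
      · rw [← Finset.sum_filter]
        refine Finset.sum_le_sum_of_subset_of_nonneg ?_ fun i _ _ =>
          mul_nonneg (ph_nonneg _) (cT_nonneg hU1 _ _)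
        intro i hi
        rw [Finset.mem_sdiff] at hi
        rw [Finset.mem_filter]
        refine ⟨hi.1, ?_⟩
        have h3 : T * Real.sqrt T < max i.1.im i.2.im := by
          by_contra hcon
          exact hi.2 ((mem_PZ hsub).2 ⟨hi.1, not_lt.1 hcon⟩)
        rw [le_div_iff₀ (by linarith)]
        have e3 : Real.sqrt T / lam * (lam * T) = T * Real.sqrt T := by
          field_simp
        rw [e3]
        exact h3.le
      · gcongr
  have h2 := (XX_lim hl).mul (((CA_scale h hl hx).const_mul Real.pi).sub hE0)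
  have e : lam * (Real.pi * PP x - 0) = Real.pi * lam * PP x := by ring
  rw [e] at h2
  refine h2.congr' ?_
  filter_upwards [hU.eventually_ge_atTop T0, eventually_ge_atTop 2] with T g1 g2
  have hU1 : 1 < lam * T := by linarith
  simp only [hE]
  rw [sub_sub_cancel, Finset.mul_sum]
  refine Finset.sum_congr rfl fun i _ => ?_
  rw [cT_scale (show 1 < T by linarith) hU1, div_div, mul_comm T lam]
  ring

/-- **from averages to the counting function** -/
theorem CF_lim (hb : S_ABELB) (htau : S_TAU)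
    (h : ∀ x : ℝ, 0 < x → Tendsto (fun T => CA T x) atTop (𝓝 (PP x))) {x : ℝ} (hx : 0 < x) :
    Tendsto (fun T => CF T x) atTop (𝓝 (PP x)) := by
  classical
  obtain ⟨B, T0, hB, hT0, hbd⟩ := cT_bd hb
  have hsq : ∀ T : ℝ, 1 ≤ T → T * Real.sqrt T ≤ T ^ 2 ∧ T ≤ T * Real.sqrt T := by
    intro T hT
    have h1 : 1 ≤ Real.sqrt T := Real.one_le_sqrt.2 hT
    have h2 : Real.sqrt T ≤ T := by
      have h3 := Real.mul_self_sqrt (show (0 : ℝ) ≤ T by linarith)
      nlinarith
    constructor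
    · rw [sq]
      gcongr
    · nlinarith
  have h1 := htau (ℂ × ℂ) (PP x) (B * (1 + x)) T0 (fun T => PZ (T * Real.sqrt T))
    (fun T i => max i.1.im i.2.im / T) (fun T i => cT T x i) (fun T hT i hi =>
      ⟨PZ_pos (by linarith) hi, cT_nonneg (by linarith) x i⟩) (fun T hT v hv => by
        refine le_trans ?_ (hbd T hT x hx.le v hv)
        refine Finset.sum_le_sum_of_subset_of_nonneg (PZ_sub (hsq T (by linarith)).1) fun i _ _ => ?_
        split_ifs
        · exact cT_nonneg (by linarith) x i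
        · exact le_rfl) (fun lam hl => lam_lim hb h hl hx)
  refine h1.congr' ?_
  filter_upwards [eventually_ge_atTop 2] with T hT
  rw [CF_PZ, ← Finset.sum_filter]
  refine Finset.sum_congr ?_ fun _ _ => rfl
  ext i
  rw [Finset.mem_filter, mem_PZ (hsq T (by linarith)).2, div_le_one (by linarith)]

end Pool.Agent.N804.PV
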