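import Pool.Agent.N804.PV.Ce

set_option autoImplicit false

/-! # Windows of the variance for fixed lengths: the kernel -/

namespace Pool.Agent.N804.PV

open Filter Topology Set MeasureTheory
open Pool.Agent.N804

lemma FI_nonneg {T t : ℝ} (hT : 1 < T) (ht : 0 ≤ t) (α : ℝ) : 0 ≤ FI T t α := by
  unfold FI
  have := Real.log_pos hT
  positivity

lemma PSI_nonneg {θ T : ℝ} (hθ1 : θ ≤ 1) (hT : 1 < T) (α : ℝ) : 0 ≤ PSI θ T α := by
  unfold PSI JV
  have hL := Real.log_pos hT
  have hT0 : 0 < T := by linarith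
  have hX : 0 < T ^ α := Real.rpow_pos_of_pos hT0 α
  have h1 : 0 ≤ T ^ α - θ * (T ^ α / T) := by
    have h2 : θ * (T ^ α / T) ≤ 1 * (T ^ α / T) := by gcongr
    have h3 : T ^ α / T ≤ T ^ α := div_le_self hX.le hT.le
    linarith
  have h2 : 0 ≤ ∫ x in (0 : ℝ)..(T ^ α - θ * (T ^ α / T)), fE x (T ^ α / T) ^ 2 :=
    intervalIntegral.integral_nonneg h1 fun x _ => sq_nonneg _
  positivity

/-- substitution in the exponent -/
lemma k_form {T t : ℝ} (ht : 1 < t) (hT : 1 < T) (F : ℝ → ℝ) :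
    ∫ α in Ioi (1 : ℝ), F α * uT t α = (Real.log T / Real.log t) ^ 2 *
      ∫ α in Ioi (1 : ℝ), F (1 + (α - 1) * (Real.log T / Real.log t)) * FI T t α := by
  have hl := Real.log_pos ht
  have hL := Real.log_pos hT
  set ρ : ℝ := Real.log T / Real.log t with hρ
  have hρ0 : 0 < ρ := by positivity
  set G : ℝ → ℝ := (Ioi (1 : ℝ)).indicator (fun α => F α * uT t α) with hG
  have h1 : ∫ α : ℝ, G (1 + (α - 1) * ρ) = ρ⁻¹ * ∫ α : ℝ, G α := by
    have e1 := integral_sub_right_eq_self (μ := (volume : Measure ℝ))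
      (fun x : ℝ => G (1 + x * ρ)) 1
    have e2 := Measure.integral_comp_mul_right (fun x : ℝ => G (1 + x)) ρ
    have e3 := integral_add_left_eq_self (μ := (volume : Measure ℝ)) G 1
    rw [e1, e2, e3, abs_of_pos (inv_pos.2 hρ0), smul_eq_mul]
  have h2 : ∀ α : ℝ, G (1 + (α - 1) * ρ) =
      (Ioi (1 : ℝ)).indicator (fun α => ρ * (F (1 + (α - 1) * ρ) * FI T t α)) α := by
    intro α
    by_cases hα : 1 < α
    · have h3 : (1 : ℝ) < 1 + (α - 1) * ρ := by nlinarith
      simp only [hG]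
      rw [indicator_of_mem (show 1 + (α - 1) * ρ ∈ Ioi (1 : ℝ) from h3),
        indicator_of_mem (show α ∈ Ioi (1 : ℝ) from hα)]
      unfold uT FI
      have e4 : (1 + (α - 1) * ρ) * Real.log t = Real.log t + (α - 1) * Real.log T := by
        rw [hρ]
        field_simp
      rw [e4, hρ]
      field_simp
    · have h3 : ¬ (1 : ℝ) < 1 + (α - 1) * ρ := by nlinarith
      simp only [hG]
      rw [indicator_of_notMem (show 1 + (α - 1) * ρ ∉ Ioi (1 : ℝ) from h3),
        indicator_of_notMem (show α ∉ Ioi (1 : ℝ) from hα)]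
  simp_rw [h2] at h1
  rw [integral_indicator measurableSet_Ioi, integral_const_mul, hG,
    integral_indicator measurableSet_Ioi] at h1
  have h3 : ∫ α in Ioi (1 : ℝ), F α * uT t α =
      ρ * (ρ * ∫ α in Ioi (1 : ℝ), F (1 + (α - 1) * ρ) * FI T t α) := by
    rw [h1, ← mul_assoc, mul_inv_cancel₀ hρ0.ne', one_mul]
  rw [h3]
  ring

lemma FI_int (h1 : S_W1) {T t : ℝ} (hT : 2 ≤ T) (ht : 0 < t) (htT : t ≤ T) {g : ℝ → ℝ}
    (hg : Measurable g) {M A : ℝ} (hb : ∀ α : ℝ, 1 < α → |g α| ≤ M) (hz : ∀ α, A < α → g α = 0) :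
    IntegrableOn (fun α => g α * FI T t α) (Ioi 1) := by
  have h2 := ((h1 0 le_rfl zero_le_one T hT).2.2 ((Ioi (1 : ℝ)).indicator g)
    (hg.indicator measurableSet_Ioi) ⟨|M|, A, fun α => ⟨?_, ?_⟩⟩).1 t ht htT
  · rw [← integrable_indicator_iff measurableSet_Ioi]
    refine h2.congr (ae_of_all _ fun α => ?_)
    by_cases hα : α ∈ Ioi (1 : ℝ)
    · simp only [indicator_of_mem hα]
    · simp only [indicator_of_notMem hα, zero_mul]
  · by_cases hα : α ∈ Ioi (1 : ℝ)
    · rw [indicator_of_mem hα]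
      exact (hb α hα).trans (le_abs_self _)
    · rw [indicator_of_notMem hα, abs_zero]
      exact abs_nonneg _
  · rintro (h3 | h3)
    · exact indicator_of_notMem (by
        rw [mem_Ioi]
        linarith) _
    · by_cases hα : α ∈ Ioi (1 : ℝ)
      · rw [indicator_of_mem hα]
        exact hz α h3
      · exact indicator_of_notMem hα _

/-- the comparison of the two scalings -/
lemma k_le (h1 : S_W1) {T t : ℝ} (ht2 : 2 ≤ t) (htT : t ≤ T)
    (hρ2 : Real.log T / Real.log t ≤ 2) {r β : ℝ → ℝ} (Hr : SC r) {A Λ K : ℝ} (hA : 1 ≤ A)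
    (hz : ∀ α, A < |α| → r α = 0) (hΛ0 : 0 ≤ Λ) (hΛ : ∀ x y, |r x - r y| ≤ Λ * |x - y|)
    (Hβ : SC β) (hβ0 : ∀ x, 0 ≤ β x) (hβ1 : ∀ x, 1 ≤ x → x ≤ 2 * A → 1 ≤ β x)
    (hK : ∫ α : ℝ, β α * uT t α ≤ K) :
    ∫ α in Ioi (1 : ℝ), r α * uT t α ≤ (Real.log T / Real.log t) ^ 2 *
      ((∫ α in Ioi (1 : ℝ), r α * FI T t α) + Λ * A * (Real.log T / Real.log t - 1) * K) := by
  have ht1 : 1 < t := by linarith
  have hT1 : 1 < T := by linarith
  have hT2 : 2 ≤ T := by linarith
  have hl := Real.log_pos ht1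
  have hL := Real.log_pos hT1
  rw [k_form ht1 hT1]
  set ρ : ℝ := Real.log T / Real.log t with hρ
  have hρ1 : 1 ≤ ρ := by
    rw [hρ, le_div_iff₀ hl, one_mul]
    exact Real.log_le_log (by linarith) htT
  have hFI : ∀ α, 0 ≤ FI T t α := fun α => FI_nonneg hT1 (by linarith) α
  have hcr := Hr.cont
  have hcβ := Hβ.cont
  obtain ⟨m, hm⟩ := hcr.bounded_above_of_compact_support Hr.cs
  obtain ⟨m', hm'⟩ := hcβ.bounded_above_of_compact_support Hβ.cs
  obtain ⟨A', hA'0, hA'⟩ := Hβ.supp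
  have hge : ∀ α : ℝ, 1 < α → α ≤ 1 + (α - 1) * ρ := fun α hα => by nlinarith
  -- integrability
  have i1 : IntegrableOn (fun α => r α * FI T t α) (Ioi 1) :=
    FI_int h1 hT2 (by linarith) htT hcr.measurable (M := m) (A := A) (fun α _ => hm α)
      fun α hα => hz α (hα.trans_le (le_abs_self _))
  have i2 : IntegrableOn (fun α => r (1 + (α - 1) * ρ) * FI T t α) (Ioi 1) :=
    FI_int h1 hT2 (by linarith) htT (by fun_prop : Continuous fun α => r (1 + (α - 1) * ρ)).measurable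
      (M := m) (A := A) (fun α _ => hm _) fun α hα =>
        hz _ ((hα.trans_le (hge α (by linarith))).trans_le (le_abs_self _))
  have i3 : IntegrableOn (fun α => (Iic A).indicator (fun _ => (1 : ℝ)) α * FI T t α) (Ioi 1) :=
    FI_int h1 hT2 (by linarith) htT (measurable_const.indicator measurableSet_Iic)
      (M := 1) (A := A) (fun α _ => by
        rw [indicator_apply]
        split_ifs <;> norm_num) fun α hα => indicator_of_notMem (by
          rw [mem_Iic]
          linarith) _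
  have i4 : IntegrableOn (fun α => β (1 + (α - 1) * ρ) * FI T t α) (Ioi 1) :=
    FI_int h1 hT2 (by linarith) htT (by fun_prop : Continuous fun α => β (1 + (α - 1) * ρ)).measurable
      (M := m') (A := max A' 1) (fun α _ => hm' _) fun α hα =>
        hA' _ (((le_max_left A' 1).trans_lt (hα.trans_le (hge α ((le_max_right A' 1).trans_lt hα)))).trans_le
          (le_abs_self _))
  -- the bound for the mass
  have h3 : ∫ α in Ioi (1 : ℝ), (Iic A).indicator (fun _ => (1 : ℝ)) α * FI T t α ≤ K := by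
    have h4 : ∫ α in Ioi (1 : ℝ), (Iic A).indicator (fun _ => (1 : ℝ)) α * FI T t α ≤
        ∫ α in Ioi (1 : ℝ), β (1 + (α - 1) * ρ) * FI T t α := by
      refine setIntegral_mono_on i3 i4 measurableSet_Ioi fun α hα => ?_
      have hα' : (1 : ℝ) < α := hα
      have h5 := hFI α
      by_cases h6 : α ≤ A
      · rw [indicator_of_mem (show α ∈ Iic A from h6)]
        have h7 : 1 ≤ β (1 + (α - 1) * ρ) := hβ1 _ (by nlinarith) (by nlinarith)
        gcongr
      · rw [indicator_of_notMem (show α ∉ Iic A from h6), zero_mul]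
        exact mul_nonneg (hβ0 _) h5
    have h5 : ∫ α in Ioi (1 : ℝ), β (1 + (α - 1) * ρ) * FI T t α ≤
        ρ ^ 2 * ∫ α in Ioi (1 : ℝ), β (1 + (α - 1) * ρ) * FI T t α := by
      have h6 : 0 ≤ ∫ α in Ioi (1 : ℝ), β (1 + (α - 1) * ρ) * FI T t α :=
        setIntegral_nonneg measurableSet_Ioi fun α _ => mul_nonneg (hβ0 _) (hFI α)
      have h7 : 1 ≤ ρ ^ 2 := one_le_pow₀ hρ1
      nlinarith
    rw [hρ, ← k_form ht1 hT1 β] at h5
    have h6 : ∫ α in Ioi (1 : ℝ), β α * uT t α ≤ ∫ α : ℝ, β α * uT t α :=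
      setIntegral_le_integral (uT_int ht1 Hβ)
        (ae_of_all _ fun α => mul_nonneg (hβ0 α) (uT_nonneg ht1 α))
    rw [← hρ] at h5
    linarith
  -- the main bound
  have h4 : ∫ α in Ioi (1 : ℝ), r (1 + (α - 1) * ρ) * FI T t α ≤
      (∫ α in Ioi (1 : ℝ), r α * FI T t α) + Λ * A * (ρ - 1) *
        ∫ α in Ioi (1 : ℝ), (Iic A).indicator (fun _ => (1 : ℝ)) α * FI T t α := by
    rw [← integral_const_mul, ← integral_add i1 (i3.const_mul _)]
    refine setIntegral_mono_on i2 (i1.add (i3.const_mul _)) measurableSet_Ioi fun α hα => ?_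
    have hα' : (1 : ℝ) < α := hα
    have h5 := hFI α
    by_cases h6 : α ≤ A
    · rw [indicator_of_mem (show α ∈ Iic A from h6), one_mul]
      have h7 : r (1 + (α - 1) * ρ) ≤ r α + Λ * A * (ρ - 1) := by
        have h8 := hΛ (1 + (α - 1) * ρ) α
        have h9 : |1 + (α - 1) * ρ - α| = (α - 1) * (ρ - 1) := by
          rw [show 1 + (α - 1) * ρ - α = (α - 1) * (ρ - 1) by ring]
          exact abs_of_nonneg (mul_nonneg (by linarith) (by linarith))
        rw [h9] at h8
        have h10 := le_abs_self (r (1 + (α - 1) * ρ) - r α)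
        have h11 : Λ * ((α - 1) * (ρ - 1)) ≤ Λ * (A * (ρ - 1)) := by
          have : 0 ≤ ρ - 1 := by linarith
          gcongr
          linarith
        linarith
      calc r (1 + (α - 1) * ρ) * FI T t α ≤ (r α + Λ * A * (ρ - 1)) * FI T t α := by gcongr
        _ = _ := by ring
    · rw [indicator_of_notMem (show α ∉ Iic A from h6)]
      push Not at h6
      rw [hz α (h6.trans_le (le_abs_self _)),
        hz _ ((h6.trans_le (hge α hα')).trans_le (le_abs_self _))]
      simp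
  have h5 : (∫ α in Ioi (1 : ℝ), r α * FI T t α) + Λ * A * (ρ - 1) *
      ∫ α in Ioi (1 : ℝ), (Iic A).indicator (fun _ => (1 : ℝ)) α * FI T t α ≤
      (∫ α in Ioi (1 : ℝ), r α * FI T t α) + Λ * A * (ρ - 1) * K := by
    have : 0 ≤ Λ * A * (ρ - 1) := mul_nonneg (by positivity) (by linarith)
    gcongr
  have h6 := h4.trans h5
  have h7 : 0 ≤ ρ ^ 2 := sq_nonneg _
  gcongr

/-- the part below `1` -/
lemma split_le {t η C m : ℝ} (ht : 1 < t) (hη0 : 0 < η) {r : ℝ → ℝ} (Hr : SC r)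
    (hr0 : ∀ α, 0 ≤ r α) (hrm : ∀ α, r α ≤ m)
    (h7 : t / Real.log t ^ 2 * ∫ y in ((1 - 2 * η) * Real.log t)..(Real.log t), DT t y ^ 2 ≤
      C * (2 * η)) :
    ∫ α : ℝ, r α * sst (1 - 2 * η) (1 - η) α * uT t α ≤ m * (C * (2 * η)) +
      ∫ α in Ioi (1 : ℝ), r α * uT t α := by
  set χ : ℝ → ℝ := sst (1 - 2 * η) (1 - η) with hχ
  have hχs : ContDiff ℝ (⊤ : ℕ∞) χ := sst_sm _ _
  have hlt : 1 - 2 * η < 1 - η := by linarith
  have H1 : SC fun α => r α * χ α := Hr.mulS hχs
  have i1 := uT_int ht H1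
  have hm0 : 0 ≤ m := (hr0 0).trans (hrm 0)
  rw [← integral_add_compl (measurableSet_Ioi (a := (1 : ℝ))) i1, compl_Ioi]
  have a1 : ∫ α in Iic (1 : ℝ), r α * χ α * uT t α ≤ m * (C * (2 * η)) := by
    have h1 : ∫ α in Iic (1 : ℝ), r α * χ α * uT t α =
        ∫ α in (1 - 2 * η)..1, r α * χ α * uT t α := by
      rw [intervalIntegral.integral_of_le (by linarith)]
      refine setIntegral_eq_of_subset_of_forall_sdiff_eq_zero measurableSet_Iic
        Ioc_subset_Iic_self fun α hα => ?_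
      have h2 : α ≤ 1 - 2 * η := by
        by_contra hcon
        exact hα.2 ⟨not_le.1 hcon, hα.1⟩
      simp only [hχ]
      rw [sst_zero hlt h2]
      ring
    rw [h1]
    have h2 : ∫ α in (1 - 2 * η)..1, r α * χ α * uT t α ≤
        ∫ α in (1 - 2 * η)..1, m * uT t α := by
      refine intervalIntegral.integral_mono_on (by linarith) i1.intervalIntegrable
        ((uT_ii ht _ _).const_mul m) fun α _ => ?_
      have h3 := uT_nonneg ht α
      have h4 : r α * χ α ≤ m := by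
        calc r α * χ α ≤ r α * 1 := by
              have := hr0 α
              have := sst_le (1 - 2 * η) (1 - η) α
              gcongr
          _ ≤ m := by rw [mul_one]; exact hrm α
      gcongr
    refine h2.trans ?_
    rw [intervalIntegral.integral_const_mul]
    have h5 := scale_ii ht (1 - 2 * η) 1
    rw [one_mul] at h5
    rw [h5] at h7
    gcongr
  have a2 : ∫ α in Ioi (1 : ℝ), r α * χ α * uT t α = ∫ α in Ioi (1 : ℝ), r α * uT t α := by
    refine setIntegral_congr_fun measurableSet_Ioi fun α hα => ?_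
    have hα' : (1 : ℝ) < α := hα
    show r α * χ α * uT t α = r α * uT t α
    simp only [hχ]
    rw [sst_one hlt (by linarith), mul_one]
  linarith

/-- smoothed variances are bounded -/
lemma gP_bd (I : Inp) (RH : RiemannHypothesis) {w : ℝ → ℝ} (Hw : SC w)
    (hw : ∃ A1 : ℝ, 1 / 2 < A1 ∧ ∀ α : ℝ, α ≤ A1 → w α = 0) :
    ∃ K : ℝ, 0 < K ∧ ∀ᶠ t in atTop, |∫ α : ℝ, w α * uT t α| ≤ K := by
  obtain ⟨C, hC⟩ := aA_bd I.hk Hw
  have h1 := I.hI RH w Hw hw
  refine ⟨|C| + 1, by positivity, ?_⟩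
  filter_upwards [hC, h1.abs.eventually (gt_mem_nhds (show |(0 : ℝ)| < 1 by simp)),
    eventually_gt_atTop 1] with t a1 a2 a3
  rw [scale_int a3] at a2
  unfold aA at a1
  have e : ∫ α : ℝ, w α * uT t α = ((∫ α : ℝ, w α * uT t α) - AT t (sc w t)) + AT t (sc w t) := by
    ring
  rw [e]
  refine (abs_add_le _ _).trans ?_
  have := le_abs_self C
  linarith

end Pool.Agent.N804.PV
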