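import Pool.Agent.N804.PV.Wa

set_option autoImplicit false

/-! # Windows of the variance for fixed lengths: the cone -/

namespace Pool.Agent.N804.PV

open Filter Topology Set MeasureTheory
open Pool.Agent.N804

lemma DU_add (hk : S_AKB) (h4 : S_W4) {U : Ultrafilter ℝ} (hU : (U : Filter ℝ) ≤ atTop)
    {r s : ℝ → ℝ} (Hr : SC r) (Hs : SC s) : DU U (fun α => r α + s α) = DU U r + DU U s := by
  have h1 := (DU_lim hk h4 hU Hr).add (DU_lim hk h4 hU Hs)
  have h2 := DU_lim hk h4 hU (Hr.add Hs)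
  have h3 : Tendsto (av (aA fun α => r α + s α)) (U : Filter ℝ)
      (𝓝 ((mg r + 2 * DU U r) + (mg s + 2 * DU U s))) := by
    refine h1.congr' ?_
    filter_upwards [hU (eventually_ge_atTop 2)] with T hT
    rw [← av_add (LI_aA h4 Hr) (LI_aA h4 Hs) hT]
    congr 1
    funext t
    exact (aA_add Hr Hs t).symm
  have h5 := tendsto_nhds_unique h2 h3
  rw [mg_add Hr Hs] at h5
  linarith

lemma DU_band (I : Inp) (RH : RiemannHypothesis) (h4 : S_W4) {U : Ultrafilter ℝ}
    (hU : (U : Filter ℝ) ≤ atTop) {r : ℝ → ℝ} (Hr : SC r)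
    (hs : ∃ κ : ℝ, κ < 1 ∧ ∀ α, κ < |α| → r α = 0) : DU U r = 0 := by
  have h1 : Tendsto (aA r) atTop (𝓝 (mg r)) := I.hav r Hr _ (I.hmo RH r Hr hs)
  have h2 := (av_lim (LI_aA h4 Hr) h1).mono_left hU
  have h3 := tendsto_nhds_unique h2 (DU_lim I.hk h4 hU Hr)
  linarith

/-- the primes in the averages -/
lemma DU_prime (I : Inp) (RH : RiemannHypothesis) (h4 : S_W4) {U : Ultrafilter ℝ}
    (hU : (U : Filter ℝ) ≤ atTop) {w : ℝ → ℝ} (Hw : SC w)
    (hw : ∃ A1 : ℝ, 1 / 2 < A1 ∧ ∀ α : ℝ, α ≤ A1 → w α = 0) :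
    Tendsto (av fun t => ∫ α : ℝ, w α * uT t α) (U : Filter ℝ) (𝓝 (mg w + 2 * DU U w)) := by
  have i1 : LI (fun t => ∫ α : ℝ, w α * uT t α) := fun M => (h4 w Hw M).2.2
  have h1 : Tendsto (fun t => (∫ α : ℝ, w α * uT t α) - aA w t) atTop (𝓝 0) := by
    refine (I.hI RH w Hw hw).congr' ?_
    filter_upwards [eventually_gt_atTop 1] with t ht
    rw [scale_int ht]
    rfl
  have h2 := ((av_lim (i1.sub (LI_aA h4 Hw)) h1).mono_left hU).add (DU_lim I.hk h4 hU Hw)
  rw [zero_add] at h2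
  refine h2.congr' ?_
  filter_upwards [hU (eventually_ge_atTop 2)] with T hT
  rw [av_sub i1 (LI_aA h4 Hw) hT]
  ring

/-- the Lipschitz constant of a test function -/
lemma SC_lip {r : ℝ → ℝ} (Hr : SC r) : ∃ Λ : ℝ, 0 ≤ Λ ∧ ∀ x y, |r x - r y| ≤ Λ * |x - y| := by
  obtain ⟨Λ, hΛ⟩ := Hr.deriv.cont.bounded_above_of_compact_support Hr.deriv.cs
  refine ⟨Λ, (norm_nonneg _).trans (hΛ 0), fun x y => ?_⟩
  exact Convex.norm_image_sub_le_of_norm_deriv_le (s := univ) (fun z _ => Hr.diff z)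
    (fun z _ => hΛ z) convex_univ (mem_univ y) (mem_univ x)

/-- **the averages of the windows for fixed lengths** -/
theorem Q_lim (h1 : S_W1) {θ : ℝ} (hθ0 : 0 ≤ θ) (hθ1 : θ ≤ 1) {δ : ℝ} (hδ : 0 < δ)
    (hW : ∀ᵐ s : ℝ, 1 - δ < s → ∀ ε : ℝ, 0 < ε → ∀ᶠ T in atTop,
      WV θ T (max 1 s) (max 1 (s + δ)) ≤ (max 1 (s + δ) - max 1 s) + ε)
    (hB : ∀ B : ℝ, ∃ b : ℝ, B < b ∧ ∃ C T0 : ℝ, ∀ T : ℝ, T0 ≤ T → WV θ T 1 b ≤ C)
    {ρ : ℝ → ℝ} (Hρ : SC ρ) (hρ : ∀ s, 0 ≤ ρ s) {ε : ℝ} (hε : 0 < ε) : ∀ᶠ T in atTop,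
      ∫ α in Ioi (1 : ℝ), Wn (-δ) 0 ρ α * PSI θ T α ≤
        (∫ s : ℝ, ρ s * (max 1 (s + δ) - max 1 s)) + ε := by
  have hρc := Hρ.cont
  obtain ⟨A, hA, hAs⟩ := Hρ.supp
  obtain ⟨b, hb, C, T0, hC⟩ := hB (A + δ + 1)
  set WG : ℝ → ℝ := fun s => max 1 (s + δ) - max 1 s with hWG
  have hWGc : Continuous WG := by
    simp only [hWG]
    fun_prop
  have hWG0 : ∀ s, 0 ≤ WG s := fun s => sub_nonneg.2 (max_le_max le_rfl (by linarith))
  set V : ℝ → ℝ → ℝ := fun T s => ∫ α in (max 1 s)..(max 1 (s + δ)), PSI θ T α with hV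
  have hVW : ∀ T, 2 ≤ T → ∀ s, V T s = WV θ T (max 1 s) (max 1 (s + δ)) := fun T hT s =>
    ((h1 θ hθ0 hθ1 T hT).2.1 _ _ (le_max_left _ _) (max_le_max le_rfl (by linarith))).symm
  have hVc : ∀ T, 2 ≤ T → Continuous (V T) := by
    intro T hT
    have hii := (h1 θ hθ0 hθ1 T hT).1
    have hP := intervalIntegral.continuous_primitive (μ := volume) hii 0
    have e : V T = fun s : ℝ => (∫ α in (0 : ℝ)..(max 1 (s + δ)), PSI θ T α) -
        ∫ α in (0 : ℝ)..(max 1 s), PSI θ T α := by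
      funext s
      rw [intervalIntegral.integral_interval_sub_left (hii _ _) (hii _ _)]
    rw [e]
    exact (hP.comp (by fun_prop : Continuous fun s : ℝ => max 1 (s + δ))).sub
      (hP.comp (by fun_prop : Continuous fun s : ℝ => max 1 s))
  have hV0 : ∀ T, 2 ≤ T → ∀ s, 0 ≤ V T s := fun T hT s =>
    intervalIntegral.integral_nonneg (max_le_max le_rfl (by linarith)) fun α _ =>
      PSI_nonneg hθ1 (by linarith) α
  set M : ℝ := max C 0 with hM
  have hbd : ∀ T, max T0 2 ≤ T → ∀ s : ℝ, ρ s ≠ 0 → V T s ≤ M := by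
    intro T hT s hs
    have hT2 : 2 ≤ T := (le_max_right _ _).trans hT
    have h3 : |s| ≤ A := by
      by_contra hcon
      exact hs (hAs s (not_le.1 hcon))
    have h4 := abs_le.1 h3
    have h5 : V T s ≤ ∫ α in (1 : ℝ)..b, PSI θ T α :=
      intervalIntegral.integral_mono_interval (le_max_left _ _)
        (max_le_max le_rfl (by linarith)) (max_le (by linarith) (by linarith))
        (ae_of_all _ fun α => PSI_nonneg hθ1 (by linarith) α) ((h1 θ hθ0 hθ1 T hT2).1 _ _)
    rw [← (h1 θ hθ0 hθ1 T hT2).2.1 1 b le_rfl (by linarith)] at h5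
    exact h5.trans ((hC T ((le_max_left _ _).trans hT)).trans (le_max_left _ _))
  have hpos : Tendsto (fun T => ∫ s : ℝ, ρ s * max (V T s - WG s) 0) atTop (𝓝 (∫ s : ℝ, (0 : ℝ))) := by
    refine tendsto_integral_filter_of_dominated_convergence (fun s => M * ρ s) ?_ ?_ ?_ ?_
    · filter_upwards [eventually_ge_atTop 2] with T hT
      have h2 := hVc T hT
      exact (by fun_prop : Continuous fun s => ρ s * max (V T s - WG s) 0).aestronglyMeasurable
    · filter_upwards [eventually_ge_atTop (max T0 2)] with T hT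
      refine ae_of_all _ fun s => ?_
      rw [Real.norm_eq_abs, abs_mul, abs_of_nonneg (hρ s), abs_of_nonneg (le_max_right _ _)]
      by_cases h0 : ρ s = 0
      · rw [h0]
        simp
      · have h1 := hbd T hT s h0
        have h2 := hWG0 s
        have h4 := hV0 T ((le_max_right _ _).trans hT) s
        have h3 : max (V T s - WG s) 0 ≤ M := max_le (by linarith) (le_max_right _ _)
        calc ρ s * max (V T s - WG s) 0 ≤ ρ s * M := by
              have := hρ s
              gcongr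
          _ = M * ρ s := mul_comm _ _
    · exact (hρc.integrable_of_hasCompactSupport Hρ.cs).const_mul M
    · filter_upwards [hW] with s hs
      have h2 : Tendsto (fun T => max (V T s - WG s) 0) atTop (𝓝 0) := by
        by_cases h0 : 1 - δ < s
        · rw [Metric.tendsto_nhds]
          intro ε hε
          filter_upwards [hs h0 (ε / 2) (by positivity), eventually_ge_atTop 2] with T hT hT2
          rw [Real.dist_eq, sub_zero, abs_of_nonneg (le_max_right _ _)]
          refine max_lt ?_ hε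
          rw [hVW T hT2]
          simp only [hWG]
          linarith
        · push Not at h0
          have e1 : max 1 (s + δ) = 1 := max_eq_left (by linarith)
          have e2 : max 1 s = 1 := max_eq_left (by linarith)
          simp only [hV, hWG, e1, e2, intervalIntegral.integral_same, sub_self, max_self]
          exact tendsto_const_nhds
      have h3 := h2.const_mul (ρ s)
      rwa [mul_zero] at h3
  rw [integral_zero] at hpos
  filter_upwards [hpos.eventually (gt_mem_nhds hε), eventually_ge_atTop 2] with T hT hT2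
  rw [fub_win Hρ (h1 θ hθ0 hθ1 T hT2).1 hδ 1]
  have hc1 := hVc T hT2
  have h3 : ∫ s : ℝ, ρ s * V T s ≤ (∫ s : ℝ, ρ s * WG s) + ∫ s : ℝ, ρ s * max (V T s - WG s) 0 := by
    rw [← integral_add]
    · refine integral_mono ?_ ?_ fun s => ?_
      · exact (hρc.mul hc1).integrable_of_hasCompactSupport Hρ.cs.mul_right
      · exact (by fun_prop : Continuous fun s => ρ s * WG s +
          ρ s * max (V T s - WG s) 0).integrable_of_hasCompactSupport
          (Hρ.cs.mul_right.add Hρ.cs.mul_right)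
      · show ρ s * V T s ≤ _
        have h2 := hρ s
        have h3 := le_max_left (V T s - WG s) 0
        have h4 : ρ s * (V T s - WG s) ≤ ρ s * max (V T s - WG s) 0 := by
          gcongr
        linarith
    · exact (hρc.mul hWGc).integrable_of_hasCompactSupport Hρ.cs.mul_right
    · exact (by fun_prop : Continuous fun s => ρ s * max (V T s - WG s) 0).integrable_of_hasCompactSupport
        Hρ.cs.mul_right
  have h4 : ∫ s : ℝ, ρ s * V T s = ∫ s : ℝ, ρ s * ∫ α in (max 1 s)..(max 1 (s + δ)), PSI θ T α := rfl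
  rw [← h4]
  linarith

/-- **the averages of the smoothed variance** -/
theorem av_up (I : Inp) (h1 : S_W1) (h4 : S_W4) (RH : RiemannHypothesis) {θ : ℝ} (hθ0 : 0 ≤ θ)
    (hθ1 : θ ≤ 1) {δ : ℝ} (hδ : 0 < δ)
    (hW : ∀ᵐ s : ℝ, 1 - δ < s → ∀ ε : ℝ, 0 < ε → ∀ᶠ T in atTop,
      WV θ T (max 1 s) (max 1 (s + δ)) ≤ (max 1 (s + δ) - max 1 s) + ε)
    (hB : ∀ B : ℝ, ∃ b : ℝ, B < b ∧ ∃ C T0 : ℝ, ∀ T : ℝ, T0 ≤ T → WV θ T 1 b ≤ C)
    {ρ : ℝ → ℝ} (Hρ : SC ρ) (hρ : ∀ s, 0 ≤ ρ s) {C η m : ℝ} (hη0 : 0 < η) (hη1 : η < 1 / 4)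
    (hrm : ∀ α, Wn (-δ) 0 ρ α ≤ m)
    (h7 : ∀ᶠ t : ℝ in atTop, t / Real.log t ^ 2 *
      ∫ y in ((1 - 2 * η) * Real.log t)..(Real.log t), DT t y ^ 2 ≤ C * (2 * η))
    {ε : ℝ} (hε : 0 < ε) : ∀ᶠ T in atTop,
      av (fun t => ∫ α : ℝ, Wn (-δ) 0 ρ α * sst (1 - 2 * η) (1 - η) α * uT t α) T ≤
        m * (C * (2 * η)) + (∫ s : ℝ, ρ s * (max 1 (s + δ) - max 1 s)) + ε := by
  set r : ℝ → ℝ := Wn (-δ) 0 ρ with hr
  have Hr : SC r := Wn_SC Hρ _ _
  have hr0 : ∀ α, 0 ≤ r α := fun α => Wn_nonneg hρ (by linarith) α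
  have hm0 : 0 ≤ m := (hr0 0).trans (hrm 0)
  obtain ⟨A', hA'0, hA'⟩ := Hr.supp
  set A : ℝ := max A' 1 with hA
  have hA1 : 1 ≤ A := le_max_right _ _
  have hAz : ∀ α, A < |α| → r α = 0 := fun α hα => hA' α ((le_max_left _ _).trans_lt hα)
  obtain ⟨Λ, hΛ0, hΛ⟩ := SC_lip Hr
  set β : ℝ → ℝ := fun x => big (2 * A) (by linarith) x * sst (3 / 4) 1 x with hβ
  have Hβ : SC β := (big_SC _).mulS (sst_sm (3 / 4) 1)
  have hβ0 : ∀ x, 0 ≤ β x := fun x => mul_nonneg (big _ _).nonneg (sst_nonneg _ _ _)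
  have hβ1 : ∀ x, 1 ≤ x → x ≤ 2 * A → 1 ≤ β x := by
    intro x h1 h2
    simp only [hβ]
    rw [big_one _ (by rw [abs_le]; constructor <;> linarith), sst_one (by norm_num) h1, one_mul]
  obtain ⟨K, hK0, hK⟩ := gP_bd I RH Hβ ⟨3 / 4, by norm_num, fun α hα => by
    simp only [hβ]
    rw [sst_zero (by norm_num) hα, mul_zero]⟩
  set χ : ℝ → ℝ := sst (1 - 2 * η) (1 - η) with hχ
  have hlt : 1 - 2 * η < 1 - η := by linarith
  have H1 : SC fun α => r α * χ α := Hr.mulS (sst_sm _ _)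
  have hw1 : ∃ A1 : ℝ, 1 / 2 < A1 ∧ ∀ α : ℝ, α ≤ A1 → r α * χ α = 0 :=
    ⟨1 - 2 * η, by linarith, fun α hα => by
      simp only [hχ]
      rw [sst_zero hlt hα, mul_zero]⟩
  obtain ⟨K2, hK20, hK2⟩ := gP_bd I RH H1 hw1
  set g2 : ℝ → ℝ := fun t => ∫ α : ℝ, r α * χ α * uT t α with hg2
  have i2 : LI g2 := fun M => (h4 _ H1 M).2.2
  set S : ℝ := ∫ s : ℝ, ρ s * (max 1 (s + δ) - max 1 s) with hS
  have hS0 : 0 ≤ S := integral_nonneg fun s => mul_nonneg (hρ s)
    (sub_nonneg.2 (max_le_max le_rfl (by linarith)))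
  have hmC : 0 ≤ m * (C * (2 * η)) := by
    obtain ⟨t, ht, ht2⟩ := (h7.and (eventually_gt_atTop 1)).exists
    have hl := Real.log_pos ht2
    have h8 : 0 ≤ t / Real.log t ^ 2 *
        ∫ y in ((1 - 2 * η) * Real.log t)..(Real.log t), DT t y ^ 2 := by
      have h9 : 0 ≤ ∫ y in ((1 - 2 * η) * Real.log t)..(Real.log t), DT t y ^ 2 :=
        intervalIntegral.integral_nonneg (by nlinarith) fun y _ => sq_nonneg _
      positivity
    exact mul_nonneg hm0 (h8.trans ht)
  -- the constants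
  obtain ⟨e1, he10, he11, he12⟩ : ∃ e1 : ℝ, 0 < e1 ∧ e1 < 1 ∧ e1 * (K2 + 1) ≤ ε / 4 := by
    refine ⟨min (1 / 2) (ε / (4 * (K2 + 1))), lt_min (by norm_num) (by positivity),
      lt_of_le_of_lt (min_le_left _ _) (by norm_num), ?_⟩
    calc min (1 / 2) (ε / (4 * (K2 + 1))) * (K2 + 1) ≤ ε / (4 * (K2 + 1)) * (K2 + 1) := by
          gcongr
          exact min_le_right _ _
      _ = ε / 4 := by field_simp
  obtain ⟨e2, he20, he21, he22⟩ : ∃ e2 : ℝ, 0 < e2 ∧ e2 ≤ 1 ∧
      e2 + (1 + e2) * (S + e2) ≤ S + ε / 2 := by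
    refine ⟨min 1 (ε / (2 * (S + 3))), lt_min one_pos (by positivity), min_le_left _ _, ?_⟩
    set e := min 1 (ε / (2 * (S + 3)))
    have q1 : e ≤ 1 := min_le_left _ _
    have q0 : 0 ≤ e := le_min zero_le_one (by positivity)
    have q2 : e * (S + 3) ≤ ε / 2 := by
      calc e * (S + 3) ≤ ε / (2 * (S + 3)) * (S + 3) := by
            gcongr
            exact min_le_right _ _
        _ = ε / 2 := by field_simp
    nlinarith
  -- the ratio
  set R : ℝ → ℝ := fun T => Real.log T / (Real.log e1 + Real.log T) with hR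
  have hRlim : Tendsto R atTop (𝓝 1) := by
    have h5 : Tendsto (fun T : ℝ => Real.log e1 / Real.log T + 1) atTop (𝓝 (0 + 1)) :=
      (tendsto_const_nhds.div_atTop Real.tendsto_log_atTop).add_const 1
    have h6 := h5.inv₀ (by norm_num)
    rw [zero_add, inv_one] at h6
    refine h6.congr' ?_
    filter_upwards [eventually_gt_atTop 1] with T hT
    have hL := Real.log_pos hT
    simp only [hR]
    rw [div_add_one hL.ne', inv_div]
  have hR2 : Tendsto (fun T => R T ^ 2) atTop (𝓝 1) := by simpa using hRlim.pow 2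
  have hR3 : Tendsto (fun T => R T ^ 2 * (Λ * A * (R T - 1) * K)) atTop (𝓝 0) := by
    have := hR2.mul (((hRlim.sub_const 1).const_mul (Λ * A)).mul_const K)
    simpa using this
  have he1T : Tendsto (fun T : ℝ => e1 * T) atTop atTop := tendsto_id.const_mul_atTop he10
  obtain ⟨t3, ht3⟩ := eventually_atTop.1 (h7.and (hK.and hK2))
  have hthT : Tendsto (fun T : ℝ => K2 / T) atTop (𝓝 0) := tendsto_const_nhds.div_atTop tendsto_id
  filter_upwards [he1T.eventually (av_bdd i2 hK2), Q_lim h1 hθ0 hθ1 hδ hW hB Hρ hρ he20,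
    hR2.eventually (gt_mem_nhds (show (1 : ℝ) < 1 + e2 by linarith)),
    hR3.eventually (gt_mem_nhds he20), hRlim.eventually (gt_mem_nhds (show (1 : ℝ) < 2 by norm_num)),
    he1T.eventually_ge_atTop (max t3 2), eventually_ge_atTop 4,
    hthT.eventually (gt_mem_nhds (show (0 : ℝ) < ε / 4 by positivity)),
    (tendsto_id.const_mul_atTop (show 0 < 1 - e1 by linarith)).eventually_ge_atTop 1]
    with T a1 a2 a3 a4 a5 a6 a7 a8 a9
  have hT0 : 0 < T := by linarith
  have hT1 : 1 < T := by linarith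
  have hL := Real.log_pos hT1
  have he1T2 : 2 ≤ e1 * T := (le_max_right _ _).trans a6
  have he1T3 : t3 ≤ e1 * T := (le_max_left _ _).trans a6
  simp only [id] at a9
  have hmid : e1 * T ≤ T - θ := by linarith
  have hTθ : T - θ ≤ T := by linarith
  -- the pointwise bound
  have hpt : ∀ t ∈ Icc (e1 * T) (T - θ), g2 t ≤ m * (C * (2 * η)) +
      ((1 + e2) * (∫ α : ℝ, (Ioi (1 : ℝ)).indicator r α * FI T t α) + e2) := by
    intro t ht
    have ht2 : 2 ≤ t := he1T2.trans ht.1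
    have htT : t ≤ T := ht.2.trans hTθ
    obtain ⟨b1, b2, b3⟩ := ht3 t (he1T3.trans ht.1)
    have hl := Real.log_pos (show 1 < t by linarith)
    have hle : Real.log e1 + Real.log T ≤ Real.log t := by
      rw [← Real.log_mul he10.ne' hT0.ne']
      exact Real.log_le_log (by linarith) ht.1
    have hpos2 : 0 < Real.log e1 + Real.log T := by
      rw [← Real.log_mul he10.ne' hT0.ne']
      exact Real.log_pos (by linarith)
    have hρR : Real.log T / Real.log t ≤ R T := by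
      simp only [hR]
      gcongr
    have hρ1 : 1 ≤ Real.log T / Real.log t := by
      rw [le_div_iff₀ hl, one_mul]
      exact Real.log_le_log (by linarith) htT
    have hR1 : 1 ≤ R T := hρ1.trans hρR
    have c1 := split_le (show 1 < t by linarith) hη0 Hr hr0 hrm b1
    have c2 := k_le h1 ht2 htT (hρR.trans a5.le) Hr hA1 hAz hΛ0 hΛ Hβ hβ0 hβ1
      ((le_abs_self _).trans b2)
    have e5 : ∫ α : ℝ, (Ioi (1 : ℝ)).indicator r α * FI T t α =
        ∫ α in Ioi (1 : ℝ), r α * FI T t α := by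
      rw [← integral_indicator measurableSet_Ioi]
      congr 1
      funext α
      by_cases hα : α ∈ Ioi (1 : ℝ)
      · simp only [indicator_of_mem hα]
      · simp only [indicator_of_notMem hα, zero_mul]
    rw [e5]
    set Z : ℝ := ∫ α in Ioi (1 : ℝ), r α * FI T t α with hZ
    have hZ0 : 0 ≤ Z := setIntegral_nonneg measurableSet_Ioi fun α _ =>
      mul_nonneg (hr0 α) (FI_nonneg hT1 (by linarith) α)
    have c3 : (Real.log T / Real.log t) ^ 2 * (Z + Λ * A * (Real.log T / Real.log t - 1) * K) ≤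
        R T ^ 2 * (Z + Λ * A * (R T - 1) * K) := by
      have hq : 0 ≤ Real.log T / Real.log t - 1 := by linarith
      have hA0 : 0 ≤ A := by linarith
      have : 0 ≤ Z + Λ * A * (R T - 1) * K := by
        have : 0 ≤ R T - 1 := by linarith
        positivity
      gcongr
    have c4 : R T ^ 2 * (Z + Λ * A * (R T - 1) * K) ≤ (1 + e2) * Z + e2 := by
      have c5 : R T ^ 2 * Z ≤ (1 + e2) * Z := by gcongr
      calc R T ^ 2 * (Z + Λ * A * (R T - 1) * K) = R T ^ 2 * Z + R T ^ 2 * (Λ * A * (R T - 1) * K) := by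
            ring
        _ ≤ (1 + e2) * Z + e2 := by linarith
    calc g2 t ≤ m * (C * (2 * η)) + ∫ α in Ioi (1 : ℝ), r α * uT t α := c1
      _ ≤ m * (C * (2 * η)) + ((1 + e2) * Z + e2) := by
          gcongr
          exact c2.trans (c3.trans c4)
  -- Fubini
  obtain ⟨m', hm'⟩ := Hr.cont.bounded_above_of_compact_support Hr.cs
  have hfub := (h1 θ hθ0 hθ1 T (by linarith)).2.2 ((Ioi (1 : ℝ)).indicator r)
    (Hr.cont.measurable.indicator measurableSet_Ioi) ⟨m', A, fun α => ⟨by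
      by_cases hα : α ∈ Ioi (1 : ℝ)
      · rw [indicator_of_mem hα]
        exact hm' α
      · rw [indicator_of_notMem hα, abs_zero]
        exact (norm_nonneg _).trans (hm' 0), by
      rintro (h3 | h3)
      · exact indicator_of_notMem (by
          rw [mem_Ioi]
          linarith) _
      · by_cases hα : α ∈ Ioi (1 : ℝ)
        · rw [indicator_of_mem hα]
          exact hAz α (h3.trans_le (le_abs_self _))
        · exact indicator_of_notMem hα _⟩⟩
  obtain ⟨-, f2, f3⟩ := hfub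
  set G : ℝ → ℝ := fun t => ∫ α : ℝ, (Ioi (1 : ℝ)).indicator r α * FI T t α with hG
  have hG0 : ∀ t, 0 ≤ t → 0 ≤ G t := fun t ht => integral_nonneg fun α =>
    mul_nonneg (indicator_nonneg (fun x _ => hr0 x) α) (FI_nonneg hT1 ht α)
  have e6 : ∫ α : ℝ, (Ioi (1 : ℝ)).indicator r α * PSI θ T α =
      ∫ α in Ioi (1 : ℝ), r α * PSI θ T α := by
    rw [← integral_indicator measurableSet_Ioi]
    congr 1
    funext α
    by_cases hα : α ∈ Ioi (1 : ℝ)
    · simp only [indicator_of_mem hα]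
    · simp only [indicator_of_notMem hα, zero_mul]
  rw [e6] at f3
  rw [f3] at a2
  -- splitting
  have s1 : ∫ t in (2 : ℝ)..T, g2 t = (∫ t in (2 : ℝ)..(e1 * T), g2 t) +
      (∫ t in (e1 * T)..(T - θ), g2 t) + ∫ t in (T - θ)..T, g2 t := by
    rw [intervalIntegral.integral_add_adjacent_intervals (i2.ii le_rfl he1T2)
      (i2.ii he1T2 (he1T2.trans hmid)), intervalIntegral.integral_add_adjacent_intervals
      (i2.ii le_rfl (he1T2.trans hmid)) (i2.ii (he1T2.trans hmid) (by linarith))]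
  have s2 : 1 / T * ∫ t in (2 : ℝ)..(e1 * T), g2 t ≤ ε / 4 := by
    have h5 : 1 / T * ∫ t in (2 : ℝ)..(e1 * T), g2 t = e1 * av g2 (e1 * T) := by
      unfold av
      field_simp
    rw [h5]
    have h6 := (le_abs_self _).trans a1
    calc e1 * av g2 (e1 * T) ≤ e1 * (K2 + 1) := by gcongr
      _ ≤ ε / 4 := he12
  have s3 : ∫ t in (T - θ)..T, g2 t ≤ K2 := by
    have h5 : ∫ t in (T - θ)..T, g2 t ≤ ∫ t in (T - θ)..T, K2 := by
      refine intervalIntegral.integral_mono_on hTθ (i2.ii (he1T2.trans hmid) (by linarith))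
        intervalIntegrable_const fun t ht => ?_
      exact (le_abs_self _).trans (ht3 t (he1T3.trans (hmid.trans ht.1))).2.2
    rw [intervalIntegral.integral_const, smul_eq_mul] at h5
    have h6 : (T - (T - θ)) * K2 ≤ 1 * K2 := by
      gcongr
      linarith
    linarith
  have fii : IntervalIntegrable G volume (e1 * T) (T - θ) := by
    refine f2.mono_set ?_
    rw [uIcc_of_le hmid, uIcc_of_le (by linarith)]
    exact Icc_subset_Icc (by linarith) le_rfl
  have s4 : ∫ t in (e1 * T)..(T - θ), g2 t ≤ (m * (C * (2 * η)) + e2) * T +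
      (1 + e2) * ∫ t in (0 : ℝ)..(T - θ), G t := by
    have h5 : ∫ t in (e1 * T)..(T - θ), g2 t ≤ ∫ t in (e1 * T)..(T - θ),
        ((m * (C * (2 * η)) + e2) + (1 + e2) * G t) := by
      refine intervalIntegral.integral_mono_on hmid (i2.ii he1T2 (he1T2.trans hmid))
        (intervalIntegrable_const.add (fii.const_mul _)) fun t ht => ?_
      have := hpt t ht
      simp only [hG]
      linarith
    rw [intervalIntegral.integral_add intervalIntegrable_const (fii.const_mul _),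
      intervalIntegral.integral_const, intervalIntegral.integral_const_mul, smul_eq_mul] at h5
    have h6 : ∫ t in (e1 * T)..(T - θ), G t ≤ ∫ t in (0 : ℝ)..(T - θ), G t := by
      refine intervalIntegral.integral_mono_interval (by linarith) hmid le_rfl ?_ f2
      refine (ae_restrict_iff' measurableSet_Ioc).2 (ae_of_all _ fun t ht => hG0 t ht.1.le)
    have h7 : (T - θ - e1 * T) * (m * (C * (2 * η)) + e2) ≤ T * (m * (C * (2 * η)) + e2) := by
      gcongr
      nlinarith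
    have h8 : (1 + e2) * ∫ t in (e1 * T)..(T - θ), G t ≤
        (1 + e2) * ∫ t in (0 : ℝ)..(T - θ), G t := by gcongr
    linarith
  have s5 : av g2 T = 1 / T * (∫ t in (2 : ℝ)..(e1 * T), g2 t) +
      1 / T * (∫ t in (e1 * T)..(T - θ), g2 t) + 1 / T * ∫ t in (T - θ)..T, g2 t := by
    unfold av
    rw [s1]
    ring
  have s6 : 1 / T * (∫ t in (e1 * T)..(T - θ), g2 t) ≤ (m * (C * (2 * η)) + e2) +
      (1 + e2) * (S + e2) := by
    have h5 : 1 / T * (∫ t in (e1 * T)..(T - θ), g2 t) ≤ 1 / T * ((m * (C * (2 * η)) + e2) * T +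
      (1 + e2) * ∫ t in (0 : ℝ)..(T - θ), G t) := by gcongr
    have e7 : 1 / T * ((m * (C * (2 * η)) + e2) * T + (1 + e2) * ∫ t in (0 : ℝ)..(T - θ), G t) =
        (m * (C * (2 * η)) + e2) + (1 + e2) * (1 / T * ∫ t in (0 : ℝ)..(T - θ), G t) := by
      field_simp
    rw [e7] at h5
    have h6 : (1 + e2) * (1 / T * ∫ t in (0 : ℝ)..(T - θ), G t) ≤ (1 + e2) * (S + e2) := by
      gcongr
    linarith
  have s7 : 1 / T * ∫ t in (T - θ)..T, g2 t ≤ K2 / T := by
    rw [one_div, inv_mul_eq_div]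
    gcongr
  rw [s5]
  linarith

/-- **the cone** -/
theorem win_avg (I : Inp) (h1 : S_W1) (h4 : S_W4) (RH : RiemannHypothesis) {θ : ℝ} (hθ0 : 0 ≤ θ)
    (hθ1 : θ ≤ 1) {δ : ℝ} (hδ : 0 < δ)
    (hW : ∀ᵐ s : ℝ, 1 - δ < s → ∀ ε : ℝ, 0 < ε → ∀ᶠ T in atTop,
      WV θ T (max 1 s) (max 1 (s + δ)) ≤ (max 1 (s + δ) - max 1 s) + ε)
    (hB : ∀ B : ℝ, ∃ b : ℝ, B < b ∧ ∃ C T0 : ℝ, ∀ T : ℝ, T0 ≤ T → WV θ T 1 b ≤ C)
    {U : Ultrafilter ℝ} (hU : (U : Filter ℝ) ≤ atTop) {ρ : ℝ → ℝ} (Hρ : SC ρ)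
    (hρ : ∀ s, 0 ≤ ρ s) {a : ℝ} (ha : 0 < a) (hz : ∀ s, s < a → ρ s = 0) :
    DU U (Wn (-δ) 0 ρ) ≤ 0 := by
  obtain ⟨C, hC, h7⟩ := I.h7
  set r : ℝ → ℝ := Wn (-δ) 0 ρ with hr
  have Hr : SC r := Wn_SC Hρ _ _
  have hr0 : ∀ α, 0 ≤ r α := fun α => Wn_nonneg hρ (by linarith) α
  obtain ⟨m, hm⟩ := Hr.cont.bounded_above_of_compact_support Hr.cs
  have hm0 : 0 ≤ m := (norm_nonneg _).trans (hm 0)
  have hrm : ∀ α, r α ≤ m := fun α => (le_abs_self _).trans (hm α)
  have hrz : ∀ α, α < a → r α = 0 := by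
    intro α hα
    simp only [hr, Wn]
    rw [intervalIntegral.integral_congr (g := fun _ => 0)]
    · simp
    · intro s hs
      rw [uIcc_of_le (by linarith)] at hs
      exact hz s (by linarith [hs.2])
  have f2 : ∫ α in Ioi (1 : ℝ), r α = ∫ s : ℝ, ρ s * (max 1 (s + δ) - max 1 s) := by
    have h1 := fub_win (u := fun _ => (1 : ℝ)) Hρ (fun a b => one_ii a b) hδ 1
    simp only [mul_one, intervalIntegral.integral_const, smul_eq_mul] at h1
    rw [hr, h1]
  have key : ∀ η : ℝ, 0 < η → η < 1 / 4 → DU U r ≤ m * C * η := by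
    intro η hη0 hη1
    set χ : ℝ → ℝ := sst (1 - 2 * η) (1 - η) with hχ
    have hχs : ContDiff ℝ (⊤ : ℕ∞) χ := sst_sm _ _
    have hlt : 1 - 2 * η < 1 - η := by linarith
    have H1 : SC fun α => r α * χ α := Hr.mulS hχs
    have H2 : SC fun α => r α * (1 - χ α) := Hr.mulS (contDiff_const.sub hχs)
    have z2 : DU U (fun α => r α * (1 - χ α)) = 0 := by
      refine DU_band I RH h4 hU H2 ⟨1 - η, by linarith, fun α hα => ?_⟩
      rcases lt_abs.1 hα with h1 | h1
      · simp only [hχ]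
        rw [sst_one hlt h1.le]
        ring
      · rw [hrz α (by linarith), zero_mul]
    have e0 : DU U r = DU U (fun α => r α * χ α) := by
      have e : r = fun α => r α * χ α + r α * (1 - χ α) := by
        funext α
        ring
      have h3 := DU_add I.hk h4 hU H1 H2
      rw [z2, add_zero] at h3
      rw [← h3]
      exact congrArg _ e
    have hlim := DU_prime I RH h4 hU H1 ⟨1 - 2 * η, by linarith, fun α hα => by
      simp only [hχ]
      rw [sst_zero hlt hα, mul_zero]⟩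
    have hmg : ∫ s : ℝ, ρ s * (max 1 (s + δ) - max 1 s) ≤ mg (fun α => r α * χ α) := by
      have h1 : r 0 * χ 0 = 0 := by
        rw [hrz 0 ha, zero_mul]
      unfold mg
      beta_reduce
      rw [h1, zero_add, ← f2]
      have h2 := sc_min_int H1
      have h3 : ∫ α in Ioi (1 : ℝ), r α = ∫ α in Ioi (1 : ℝ), min |α| 1 * (r α * χ α) := by
        refine setIntegral_congr_fun measurableSet_Ioi fun α hα => ?_
        have hα' : (1 : ℝ) < α := hα
        show r α = min |α| 1 * (r α * χ α)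
        simp only [hχ]
        rw [sst_one hlt (by linarith), abs_of_pos (by linarith), min_eq_right hα'.le]
        ring
      rw [h3]
      refine setIntegral_le_integral h2 (ae_of_all _ fun α => ?_)
      exact mul_nonneg (le_min (abs_nonneg _) zero_le_one) (mul_nonneg (hr0 α) (sst_nonneg _ _ _))
    have hup : ∀ ε : ℝ, 0 < ε → mg (fun α => r α * χ α) + 2 * DU U (fun α => r α * χ α) ≤
        m * (C * (2 * η)) + (∫ s : ℝ, ρ s * (max 1 (s + δ) - max 1 s)) + ε := by
      intro ε hε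
      exact le_of_tendsto hlim (hU (av_up I h1 h4 RH hθ0 hθ1 hδ hW hB Hρ hρ hη0 hη1 hrm
        (h7 (2 * η) (by positivity) (by linarith)) hε))
    rw [e0]
    refine le_of_forall_pos_le_add fun ε hε => ?_
    have := hup ε hε
    linarith
  refine le_of_forall_pos_le_add fun ε hε => ?_
  obtain ⟨η, hη0, hη1, hη2⟩ : ∃ η : ℝ, 0 < η ∧ η < 1 / 4 ∧ m * C * η ≤ ε := by
    refine ⟨min (1 / 8) (ε / (m * C + 1)), lt_min (by norm_num) (by positivity),
      lt_of_le_of_lt (min_le_left _ _) (by norm_num), ?_⟩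
    calc m * C * min (1 / 8) (ε / (m * C + 1)) ≤ m * C * (ε / (m * C + 1)) := by
          gcongr
          exact min_le_right _ _
      _ = (m * C / (m * C + 1)) * ε := by ring
      _ ≤ 1 * ε := by
          gcongr
          rw [div_le_one (by positivity)]
          linarith
      _ = ε := one_mul _
  linarith [key η hη0 hη1]

end Pool.Agent.N804.PV
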