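import Pool.Agent.N804.PV.Ld
import Pool.Agent.N804.PV.Pr

set_option autoImplicit false

/-! # Windows of the prime variance -/

namespace Pool.Agent.N804.PV

open Filter Topology Set MeasureTheory
open Pool.Agent.N804

/-- the upper bound for the window `[s, s + δ]`, cut at `1` -/
def UV (T : ℕ → ℝ) (δ s : ℝ) : Prop := ∀ ε : ℝ, 0 < ε → ∀ᶠ k in atTop,
  ∫ α in (max 1 s)..(max 1 (s + δ)), uT (T k) α ≤ (max 1 (s + δ) - max 1 s) + ε

/-- the limits of the smoothed prime variance -/
lemma AD.prime (hb : S_ABELB) (RH : RiemannHypothesis) (hI : S_PVI) {T : ℕ → ℝ} {Φ : ℝ → ℝ} {μ : ℝ}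
    (h : AD T Φ μ) {w : ℝ → ℝ} (Hw : SC w) (hw : ∃ A1 : ℝ, 1 / 2 < A1 ∧ ∀ α : ℝ, α ≤ A1 → w α = 0) :
    Tendsto (fun k => ∫ α : ℝ, w α * uT (T k) α) atTop (𝓝 (mg w + 2 * DD (Gd Φ μ) w)) := by
  have h1 := (hI RH w Hw hw).comp h.hT
  have h2 := h1.add (h.pair hb Hw)
  rw [zero_add] at h2
  refine h2.congr' ?_
  filter_upwards [h.hT.eventually_ge_atTop 2] with k hk
  have := scale_int (show 1 < T k by linarith) w
  simp only [Function.comp]
  rw [this]
  ring

/-- a window is bounded by a bump -/
lemma win_le' {T : ℝ} (hT : 1 < T) {r : ℝ → ℝ} (Hr : SC r) (hr : ∀ α, 0 ≤ r α) {a b : ℝ} (hab : a ≤ b)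
    (h1 : ∀ α ∈ Icc a b, 1 ≤ r α) : ∫ α in a..b, uT T α ≤ ∫ α : ℝ, r α * uT T α := by
  have i1 := uT_int hT Hr
  have h2 : ∫ α in a..b, uT T α ≤ ∫ α in a..b, r α * uT T α := by
    refine intervalIntegral.integral_mono_on hab (uT_ii hT a b) i1.intervalIntegrable fun α hα => ?_
    have h3 := h1 α hα
    have h4 := uT_nonneg hT α
    calc uT T α = 1 * uT T α := (one_mul _).symm
      _ ≤ r α * uT T α := by gcongr
  refine h2.trans ?_
  rw [intervalIntegral.integral_of_le hab]
  exact setIntegral_le_integral i1 (ae_of_all _ fun α => mul_nonneg (hr α) (uT_nonneg hT α))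

lemma one_ii (a b : ℝ) : IntervalIntegrable (fun _ : ℝ => (1 : ℝ)) volume a b :=
  intervalIntegrable_const

lemma uT_cont {T : ℝ} (hT : 1 < T) (δ : ℝ) :
    Continuous fun s : ℝ => ∫ α in (max 1 s)..(max 1 (s + δ)), uT T α := by
  have hP := intervalIntegral.continuous_primitive (μ := volume) (uT_ii hT) 0
  have e : (fun s : ℝ => ∫ α in (max 1 s)..(max 1 (s + δ)), uT T α) =
      fun s : ℝ => (∫ α in (0 : ℝ)..(max 1 (s + δ)), uT T α) - ∫ α in (0 : ℝ)..(max 1 s), uT T α := by
    funext s
    rw [intervalIntegral.integral_interval_sub_left (uT_ii hT _ _) (uT_ii hT _ _)]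
  rw [e]
  exact (hP.comp (by fun_prop : Continuous fun s : ℝ => max 1 (s + δ))).sub
    (hP.comp (by fun_prop : Continuous fun s : ℝ => max 1 s))

/-- the cone generated by the windows -/
theorem win_cone' (hb : S_ABELB) (RH : RiemannHypothesis) (hI : S_PVI) (h7 : S_PV7) (hmo : S_MO)
    (hav : S_AVG) {T : ℕ → ℝ} {Φ : ℝ → ℝ} {μ : ℝ} (h : AD T Φ μ) {δ : ℝ} (hδ : 0 < δ)
    (hW : ∀ᵐ s, 1 - δ < s → UV T δ s) {ρ : ℝ → ℝ} (Hρ : SC ρ) (hρ : ∀ s, 0 ≤ ρ s)
    {a : ℝ} (ha : 0 < a) (hz : ∀ s, s < a → ρ s = 0) : DD (Gd Φ μ) (Wn (-δ) 0 ρ) ≤ 0 := by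
  obtain ⟨C, hC, h7⟩ := h7
  set r : ℝ → ℝ := Wn (-δ) 0 ρ with hr
  have Hr : SC r := Wn_SC Hρ _ _
  have hr0 : ∀ α, 0 ≤ r α := fun α => Wn_nonneg hρ (by linarith) α
  obtain ⟨m, hm⟩ := Hr.cont.bounded_above_of_compact_support Hr.cs
  have hm0 : 0 ≤ m := (norm_nonneg _).trans (hm 0)
  have hrm : ∀ α, r α ≤ m := fun α => (le_abs_self _).trans (hm α)
  have hrz : ∀ α, α < a → r α = 0 := by
    intro α hα
    simp only [hr, Wn]
    rw [intervalIntegral.integral_congr (g := fun _ => 0)]
    · simp
    · intro s hs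
      rw [uIcc_of_le (by linarith)] at hs
      exact hz s (by linarith [hs.2])
  have hρc := Hρ.cont
  set WG : ℝ → ℝ := fun s => max 1 (s + δ) - max 1 s with hWG
  have hWGc : Continuous WG := by
    simp only [hWG]
    fun_prop
  have hWG0 : ∀ s, 0 ≤ WG s := fun s => sub_nonneg.2 (max_le_max le_rfl (by linarith))
  obtain ⟨A, hA, hAs⟩ := Hρ.supp
  -- the uniform bound
  set β : ℝ → ℝ := fun x => big (A + δ + 1) (by linarith) x * sst (3 / 4) 1 x with hβ
  have Hβ : SC β := (big_SC _).mulS (sst_sm (3 / 4) 1)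
  have hβ0 : ∀ x, 0 ≤ β x := fun x => mul_nonneg (big _ _).nonneg (sst_nonneg _ _ _)
  have hβ1 : ∀ x, 1 ≤ x → x ≤ A + δ + 1 → 1 ≤ β x := by
    intro x h1 h2
    simp only [hβ]
    rw [big_one _ (by rw [abs_le]; constructor <;> linarith), sst_one (by norm_num) h1, one_mul]
  have hβlim := h.prime hb RH hI Hβ ⟨3 / 4, by norm_num, fun α hα => by
    simp only [hβ]
    rw [sst_zero (by norm_num) hα, mul_zero]⟩
  set M : ℝ := mg β + 2 * DD (Gd Φ μ) β + 1 with hM
  have hbd : ∀ᶠ k in atTop, ∀ s : ℝ, ρ s ≠ 0 →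
      ∫ α in (max 1 s)..(max 1 (s + δ)), uT (T k) α ≤ M := by
    filter_upwards [h.hT.eventually_ge_atTop 2,
      hβlim.eventually (gt_mem_nhds (show mg β + 2 * DD (Gd Φ μ) β < M by rw [hM]; linarith))]
      with k hk h2 s hs
    refine le_trans ?_ h2.le
    refine win_le' (by linarith) Hβ hβ0 (max_le_max le_rfl (by linarith)) fun α hα => ?_
    have h3 : |s| ≤ A := by
      by_contra hcon
      exact hs (hAs s (not_le.1 hcon))
    have h4 := abs_le.1 h3
    refine hβ1 α ((le_max_left _ _).trans hα.1) (hα.2.trans (max_le (by linarith) (by linarith)))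
  -- positive parts
  have hpos : Tendsto (fun k => ∫ s : ℝ,
      ρ s * max ((∫ α in (max 1 s)..(max 1 (s + δ)), uT (T k) α) - WG s) 0)
      atTop (𝓝 (∫ s : ℝ, (0 : ℝ))) := by
    refine tendsto_integral_filter_of_dominated_convergence (fun s => M * ρ s) ?_ ?_ ?_ ?_
    · filter_upwards [h.hT.eventually_ge_atTop 2] with k hk
      have h1 := uT_cont (show 1 < T k by linarith) δ
      exact (by fun_prop : Continuous fun s =>
        ρ s * max ((∫ α in (max 1 s)..(max 1 (s + δ)), uT (T k) α) - WG s) 0).aestronglyMeasurable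
    · filter_upwards [hbd, h.hT.eventually_ge_atTop 2] with k hk hk2
      refine ae_of_all _ fun s => ?_
      rw [Real.norm_eq_abs, abs_mul, abs_of_nonneg (hρ s), abs_of_nonneg (le_max_right _ _)]
      by_cases h0 : ρ s = 0
      · rw [h0]
        simp
      · have h1 := hk s h0
        have h2 := hWG0 s
        have h4 : 0 ≤ ∫ α in (max 1 s)..(max 1 (s + δ)), uT (T k) α :=
          intervalIntegral.integral_nonneg (max_le_max le_rfl (by linarith)) fun α _ =>
            uT_nonneg (by linarith) α
        have h3 : max ((∫ α in (max 1 s)..(max 1 (s + δ)), uT (T k) α) - WG s) 0 ≤ M :=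
          max_le (by linarith) (by linarith)
        calc ρ s * max ((∫ α in (max 1 s)..(max 1 (s + δ)), uT (T k) α) - WG s) 0 ≤ ρ s * M := by
              have := hρ s
              gcongr
          _ = M * ρ s := mul_comm _ _
    · exact (hρc.integrable_of_hasCompactSupport Hρ.cs).const_mul M
    · filter_upwards [hW] with s hs
      have h2 : Tendsto (fun k => max ((∫ α in (max 1 s)..(max 1 (s + δ)), uT (T k) α) - WG s) 0)
          atTop (𝓝 0) := by
        by_cases h0 : 1 - δ < s
        · rw [Metric.tendsto_nhds]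
          intro ε hε
          filter_upwards [hs h0 (ε / 2) (by positivity)] with k hk
          rw [Real.dist_eq, sub_zero, abs_of_nonneg (le_max_right _ _)]
          refine max_lt ?_ hε
          simp only [hWG]
          linarith
        · push Not at h0
          have e1 : max 1 (s + δ) = 1 := max_eq_left (by linarith)
          have e2 : max 1 s = 1 := max_eq_left (by linarith)
          simp only [hWG, e1, e2, intervalIntegral.integral_same, sub_self, max_self]
          exact tendsto_const_nhds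
      have h3 := h2.const_mul (ρ s)
      rwa [mul_zero] at h3
  rw [integral_zero] at hpos
  -- the formula for the main term
  have f2 : ∫ α in Ioi (1 : ℝ), r α = ∫ s : ℝ, ρ s * WG s := by
    have h1 := fub_win (u := fun _ => (1 : ℝ)) Hρ (fun a b => one_ii a b) hδ 1
    simp only [mul_one, intervalIntegral.integral_const, smul_eq_mul] at h1
    rw [hr, h1]
  have iR : Integrable r := Hr.cont.integrable_of_hasCompactSupport Hr.cs
  -- the main bound
  have key : ∀ η : ℝ, 0 < η → η < 1 / 4 → DD (Gd Φ μ) r ≤ m * C * η := by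
    intro η hη0 hη1
    set χ : ℝ → ℝ := sst (1 - 2 * η) (1 - η) with hχ
    have hχs : ContDiff ℝ (⊤ : ℕ∞) χ := sst_sm _ _
    have hlt : 1 - 2 * η < 1 - η := by linarith
    have H1 : SC fun α => r α * χ α := Hr.mulS hχs
    have H2 : SC fun α => r α * (1 - χ α) := Hr.mulS (contDiff_const.sub hχs)
    have z2 : DD (Gd Φ μ) (fun α => r α * (1 - χ α)) = 0 := by
      refine h.band hb RH hmo hav H2 ⟨1 - η, by linarith, fun α hα => ?_⟩
      rcases lt_abs.1 hα with h1 | h1
      · simp only [hχ]
        rw [sst_one hlt h1.le]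
        ring
      · rw [hrz α (by linarith), zero_mul]
    have e0 : DD (Gd Φ μ) r = DD (Gd Φ μ) (fun α => r α * χ α) := by
      have e : r = fun α => r α * χ α + r α * (1 - χ α) := by
        funext α
        ring
      have h3 := DD_add h.lg H1 H2
      rw [z2, add_zero] at h3
      rw [← h3]
      exact congrArg _ e
    have hlim := h.prime hb RH hI H1 ⟨1 - 2 * η, by linarith, fun α hα => by
      simp only [hχ]
      rw [sst_zero hlt hα, mul_zero]⟩
    -- lower bound for mg
    have hmg : ∫ s : ℝ, ρ s * WG s ≤ mg (fun α => r α * χ α) := by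
      have h1 : r 0 * χ 0 = 0 := by
        rw [hrz 0 ha, zero_mul]
      unfold mg
      beta_reduce
      rw [h1, zero_add, ← f2]
      have h2 := sc_min_int H1
      have h3 : ∫ α in Ioi (1 : ℝ), r α = ∫ α in Ioi (1 : ℝ), min |α| 1 * (r α * χ α) := by
        refine setIntegral_congr_fun measurableSet_Ioi fun α hα => ?_
        have hα' : (1 : ℝ) < α := hα
        show r α = min |α| 1 * (r α * χ α)
        simp only [hχ]
        rw [sst_one hlt (by linarith), abs_of_pos (by linarith), min_eq_right hα'.le]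
        ring
      rw [h3]
      refine setIntegral_le_integral h2 (ae_of_all _ fun α => ?_)
      exact mul_nonneg (le_min (abs_nonneg _) zero_le_one) (mul_nonneg (hr0 α) (sst_nonneg _ _ _))
    -- upper bound for the variance
    have hup : ∀ᶠ k in atTop, ∫ α : ℝ, r α * χ α * uT (T k) α ≤ m * (C * (2 * η)) +
        (∫ s : ℝ, ρ s * WG s) +
        ∫ s : ℝ, ρ s * max ((∫ α in (max 1 s)..(max 1 (s + δ)), uT (T k) α) - WG s) 0 := by
      filter_upwards [h.hT.eventually (h7 (2 * η) (by positivity) (by linarith)),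
        h.hT.eventually_ge_atTop 2] with k hk hk2
      have hT1 : 1 < T k := by linarith
      have i1 := uT_int hT1 H1
      rw [← integral_add_compl (measurableSet_Ioi (a := (1 : ℝ))) i1, compl_Ioi]
      have a1 : ∫ α in Iic (1 : ℝ), r α * χ α * uT (T k) α ≤ m * (C * (2 * η)) := by
        have h1 : ∫ α in Iic (1 : ℝ), r α * χ α * uT (T k) α =
            ∫ α in (1 - 2 * η)..1, r α * χ α * uT (T k) α := by
          rw [intervalIntegral.integral_of_le (by linarith)]
          refine setIntegral_eq_of_subset_of_forall_sdiff_eq_zero measurableSet_Iic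
            Ioc_subset_Iic_self fun α hα => ?_
          have h2 : α ≤ 1 - 2 * η := by
            by_contra hcon
            exact hα.2 ⟨not_le.1 hcon, hα.1⟩
          simp only [hχ]
          rw [sst_zero hlt h2]
          ring
        rw [h1]
        have h2 : ∫ α in (1 - 2 * η)..1, r α * χ α * uT (T k) α ≤
            ∫ α in (1 - 2 * η)..1, m * uT (T k) α := by
          refine intervalIntegral.integral_mono_on (by linarith) i1.intervalIntegrable
            ((uT_ii hT1 _ _).const_mul m) fun α _ => ?_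
          have h3 := uT_nonneg hT1 α
          have h4 : r α * χ α ≤ m := by
            calc r α * χ α ≤ r α * 1 := by
                  have := hr0 α
                  have := sst_le (1 - 2 * η) (1 - η) α
                  gcongr
              _ ≤ m := by rw [mul_one]; exact hrm α
          gcongr
        refine h2.trans ?_
        rw [intervalIntegral.integral_const_mul]
        have h5 := scale_ii hT1 (1 - 2 * η) 1
        rw [one_mul] at h5
        rw [h5] at hk
        gcongr
      have a2 : ∫ α in Ioi (1 : ℝ), r α * χ α * uT (T k) α ≤ (∫ s : ℝ, ρ s * WG s) +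
          ∫ s : ℝ, ρ s * max ((∫ α in (max 1 s)..(max 1 (s + δ)), uT (T k) α) - WG s) 0 := by
        have h1 : ∫ α in Ioi (1 : ℝ), r α * χ α * uT (T k) α =
            ∫ α in Ioi (1 : ℝ), r α * uT (T k) α := by
          refine setIntegral_congr_fun measurableSet_Ioi fun α hα => ?_
          have hα' : (1 : ℝ) < α := hα
          show r α * χ α * uT (T k) α = r α * uT (T k) α
          simp only [hχ]
          rw [sst_one hlt (by linarith), mul_one]
        rw [h1, hr, fub_win Hρ (uT_ii hT1) hδ 1]
        have hc1 := uT_cont hT1 δ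
        rw [← integral_add]
        · refine integral_mono ?_ ?_ fun s => ?_
          · exact (hρc.mul hc1).integrable_of_hasCompactSupport Hρ.cs.mul_right
          · exact (by fun_prop : Continuous fun s => ρ s * WG s +
              ρ s * max ((∫ α in (max 1 s)..(max 1 (s + δ)), uT (T k) α) - WG s) 0).integrable_of_hasCompactSupport
              (Hρ.cs.mul_right.add Hρ.cs.mul_right)
          · show ρ s * (∫ α in (max 1 s)..(max 1 (s + δ)), uT (T k) α) ≤ _
            have h2 := hρ s
            have h3 := le_max_left ((∫ α in (max 1 s)..(max 1 (s + δ)), uT (T k) α) - WG s) 0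
            have h4 : ρ s * ((∫ α in (max 1 s)..(max 1 (s + δ)), uT (T k) α) - WG s) ≤
                ρ s * max ((∫ α in (max 1 s)..(max 1 (s + δ)), uT (T k) α) - WG s) 0 := by
              gcongr
            linarith
        · exact (hρc.mul hWGc).integrable_of_hasCompactSupport Hρ.cs.mul_right
        · exact (by fun_prop : Continuous fun s => ρ s * max ((∫ α in (max 1 s)..(max 1 (s + δ)), uT (T k) α) - WG s) 0).integrable_of_hasCompactSupport
            Hρ.cs.mul_right
      linarith
    have h5 := le_of_tendsto_of_tendsto hlim (hpos.const_add (m * (C * (2 * η)) +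
      ∫ s : ℝ, ρ s * WG s)) hup
    rw [e0]
    linarith
  refine le_of_forall_pos_le_add fun ε hε => ?_
  obtain ⟨η, hη0, hη1, hη2⟩ : ∃ η : ℝ, 0 < η ∧ η < 1 / 4 ∧ m * C * η ≤ ε := by
    refine ⟨min (1 / 8) (ε / (m * C + 1)), lt_min (by norm_num) (by positivity),
      lt_of_le_of_lt (min_le_left _ _) (by norm_num), ?_⟩
    calc m * C * min (1 / 8) (ε / (m * C + 1)) ≤ m * C * (ε / (m * C + 1)) := by
          gcongr
          exact min_le_right _ _
      _ = (m * C / (m * C + 1)) * ε := by ring
      _ ≤ 1 * ε := by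
          gcongr
          rw [div_le_one (by positivity)]
          linarith
      _ = ε := one_mul _
  linarith [key η hη0 hη1]

end Pool.Agent.N804.PV
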